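import Mathlib

/-!
# MP_f011a7_co: positive association of the fixed point weighted measure, definitions

Permutations of `Fin n`. A board is a pair `(I, ρ)`: `I` is the set of the free rows, the other rows
`i` have the value `ρ i`; so `Om I ρ` is the set of the permutations that agree with `ρ` off `I`, and
the free columns are `J = I.image ρ`. The weight is `t` for every fixed point in `I`.
The class `Cls I ρ`: every free column that is not a free row is smaller than all free rows.
`z` is the smallest free row, `j ≤ z` are the old columns, `j > z` the special ones (they are in `I`).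
-/

set_option autoImplicit false

namespace FixPA

open Finset Equiv

variable {n : ℕ}

/-- the weight `t ^ (number of fixed points in E)` -/
noncomputable def wt (t : ℝ) (E : Finset (Fin n)) (σ : Equiv.Perm (Fin n)) : ℝ :=
  ∏ i ∈ E, if σ i = i then t else 1

/-- the permutations that agree with `ρ` off `I` -/
def Om (I : Finset (Fin n)) (ρ : Equiv.Perm (Fin n)) : Finset (Equiv.Perm (Fin n)) :=
  univ.filter fun σ => ∀ i, i ∉ I → σ i = ρ i

/-- those with `σ z = j` -/
def Cy (I : Finset (Fin n)) (ρ : Equiv.Perm (Fin n)) (z j : Fin n) :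
    Finset (Equiv.Perm (Fin n)) := (Om I ρ).filter fun σ => σ z = j

/-- monotone for the strong Bruhat order, the identity is the top -/
def Mon (f : Equiv.Perm (Fin n) → ℝ) : Prop :=
  ∀ (σ : Equiv.Perm (Fin n)) (p q : Fin n), p < q → σ p < σ q → f (σ * swap p q) ≤ f σ

/-- the class of boards -/
def Cls (I : Finset (Fin n)) (ρ : Equiv.Perm (Fin n)) : Prop :=
  ∀ j ∈ I.image ρ, j ∉ I → ∀ i ∈ I, j < i

/-- old columns -/
def Ol (I : Finset (Fin n)) (ρ : Equiv.Perm (Fin n)) (z : Fin n) : Finset (Fin n) :=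
  (I.image ρ).filter fun j => j ≤ z

/-- special columns -/
def Sp (I : Finset (Fin n)) (ρ : Equiv.Perm (Fin n)) (z : Fin n) : Finset (Fin n) :=
  (I.image ρ).filter fun j => z < j

/-- weighted sum over the board -/
noncomputable def Hs (t : ℝ) (I : Finset (Fin n)) (ρ : Equiv.Perm (Fin n))
    (f : Equiv.Perm (Fin n) → ℝ) : ℝ := ∑ σ ∈ Om I ρ, wt t I σ * f σ

/-- weighted sum over `σ z = j`, without the weight of the row `z` -/
noncomputable def Hj (t : ℝ) (I : Finset (Fin n)) (ρ : Equiv.Perm (Fin n)) (z : Fin n)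
    (f : Equiv.Perm (Fin n) → ℝ) (j : Fin n) : ℝ :=
  ∑ σ ∈ Cy I ρ z j, wt t (I.erase j) σ * f σ

/-- weighted sum over `σ z = u`, `σ l = l`, without the weights of these two rows -/
noncomputable def Xs (t : ℝ) (I : Finset (Fin n)) (ρ : Equiv.Perm (Fin n)) (z : Fin n)
    (f : Equiv.Perm (Fin n) → ℝ) (u l : Fin n) : ℝ :=
  ∑ σ ∈ (Cy I ρ z u).filter (fun σ => σ l = l), wt t ((I.erase u).erase l) σ * f σ

/-- the gain between the columns `j < l` -/
noncomputable def gs (t : ℝ) (I : Finset (Fin n)) (ρ : Equiv.Perm (Fin n)) (z : Fin n)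
    (f : Equiv.Perm (Fin n) → ℝ) (j l : Fin n) : ℝ :=
  ∑ σ ∈ Cy I ρ z j, wt t ((I.erase j).erase l) σ * (f σ - f (swap j l * σ))

/-- the loss: `σ z = l`, `σ l = u`, `l < u` -/
noncomputable def Gs (t : ℝ) (I : Finset (Fin n)) (ρ : Equiv.Perm (Fin n)) (z : Fin n)
    (f : Equiv.Perm (Fin n) → ℝ) (l u : Fin n) : ℝ :=
  ∑ σ ∈ (Cy I ρ z l).filter (fun σ => σ l = u),
    wt t ((I.erase l).erase u) σ * (f σ - f (swap l u * σ))

/-- the partition function of a board with `N` rows and `K` special columns, `t = 1 + τ` -/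
noncomputable def Rk (t : ℝ) (N K : ℕ) : ℝ :=
  ∑ k ∈ range (K + 1), (K.choose k : ℝ) * (t - 1) ^ k * ((N - k).factorial : ℝ)

end FixPA
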