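import Pool.Agent.H.MP_f011a7_co.A0

/-!
# MP_f011a7_co: basic lemmas on weights, boards and monotone functions
-/

set_option autoImplicit false

namespace FixPA

open Finset Equiv

variable {n : ℕ}

/-! ### weights -/

theorem wt_eq_pow (t : ℝ) (E : Finset (Fin n)) (σ : Equiv.Perm (Fin n)) :
    wt t E σ = t ^ (E.filter fun i => σ i = i).card := by
  unfold wt
  rw [Finset.prod_ite, Finset.prod_const, Finset.prod_const_one, mul_one]

theorem wt_nonneg {t : ℝ} (ht : 0 ≤ t) (E : Finset (Fin n)) (σ : Equiv.Perm (Fin n)) :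
    0 ≤ wt t E σ := by
  rw [wt_eq_pow]; positivity

/-- two weights agree as soon as the fixed points in the two sets agree -/
theorem wt_ext {t : ℝ} {E E' : Finset (Fin n)} {σ σ' : Equiv.Perm (Fin n)}
    (h : ∀ i, (i ∈ E ∧ σ i = i) ↔ (i ∈ E' ∧ σ' i = i)) : wt t E σ = wt t E' σ' := by
  rw [wt_eq_pow, wt_eq_pow]
  congr 2
  ext i
  simp only [mem_filter]
  exact h i

/-- one more fixed point gives one more factor `t` -/
theorem wt_ext_mul {t : ℝ} {E E' : Finset (Fin n)} {σ σ' : Equiv.Perm (Fin n)} (l : Fin n)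
    (hl : l ∈ E') (hl' : σ' l = l)
    (h : ∀ i, (i ∈ E ∧ σ i = i) ↔ (i ≠ l ∧ i ∈ E' ∧ σ' i = i)) :
    wt t E' σ' = t * wt t E σ := by
  rw [wt_eq_pow, wt_eq_pow, ← pow_succ']
  congr 1
  have : (E'.filter fun i => σ' i = i) = insert l (E.filter fun i => σ i = i) := by
    ext i
    simp only [mem_filter, mem_insert]
    rw [h i]
    constructor
    · intro hi
      by_cases hil : i = l
      · exact Or.inl hil
      · exact Or.inr ⟨hil, hi⟩
    · rintro (rfl | hi)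
      · exact ⟨hl, hl'⟩
      · exact hi.2
  rw [this, card_insert_of_notMem]
  intro hmem
  rw [mem_filter] at hmem
  exact ((h l).mp hmem).1 rfl

theorem wt_erase_mul (t : ℝ) {E : Finset (Fin n)} {a : Fin n} (ha : a ∈ E)
    (σ : Equiv.Perm (Fin n)) :
    wt t E σ = (if σ a = a then t else 1) * wt t (E.erase a) σ := by
  unfold wt
  rw [← Finset.mul_prod_erase _ _ ha]

theorem wt_erase_of_ne (t : ℝ) (E : Finset (Fin n)) {a : Fin n}
    {σ : Equiv.Perm (Fin n)} (h : σ a ≠ a) : wt t (E.erase a) σ = wt t E σ := by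
  apply wt_ext
  intro i
  rw [mem_erase]
  constructor
  · rintro ⟨⟨_, h2⟩, h3⟩; exact ⟨h2, h3⟩
  · rintro ⟨h2, h3⟩
    refine ⟨⟨?_, h2⟩, h3⟩
    rintro rfl
    exact h h3

/-! ### monotone functions -/

/-- left form, upwards -/
theorem Mon.left_le {f : Equiv.Perm (Fin n) → ℝ} (hf : Mon f) {σ : Equiv.Perm (Fin n)}
    {j l : Fin n} (hjl : j < l) (h : σ.symm j < σ.symm l) : f (swap j l * σ) ≤ f σ := by
  have h1 := hf σ (σ.symm j) (σ.symm l) h (by simpa using hjl)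
  have h2 : σ * swap (σ.symm j) (σ.symm l) = swap j l * σ := by
    rw [Equiv.mul_swap_eq_swap_mul]; simp
  rwa [h2] at h1

/-- left form, downwards -/
theorem Mon.left_ge {f : Equiv.Perm (Fin n) → ℝ} (hf : Mon f) {σ : Equiv.Perm (Fin n)}
    {j l : Fin n} (hjl : j < l) (h : σ.symm l < σ.symm j) : f σ ≤ f (swap j l * σ) := by
  have h1 := hf.left_le (σ := swap j l * σ) hjl (by
    rw [Equiv.Perm.mul_def]
    simpa using h)
  rwa [← mul_assoc, Equiv.swap_mul_self, one_mul] at h1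

/-- values in the wrong order: the swap goes up -/
theorem Mon.up {f : Equiv.Perm (Fin n) → ℝ} (hf : Mon f) {σ : Equiv.Perm (Fin n)}
    {p q : Fin n} (hpq : p < q) (h : σ q < σ p) : f σ ≤ f (σ * swap p q) := by
  have h1 := hf (σ * swap p q) p q hpq (by simpa using h)
  rwa [mul_assoc, Equiv.swap_mul_self, mul_one] at h1

/-! ### boards -/

theorem mem_Om {I : Finset (Fin n)} {ρ σ : Equiv.Perm (Fin n)} :
    σ ∈ Om I ρ ↔ ∀ i, i ∉ I → σ i = ρ i := by
  simp [Om]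

theorem self_mem_Om (I : Finset (Fin n)) (ρ : Equiv.Perm (Fin n)) : ρ ∈ Om I ρ :=
  mem_Om.2 fun _ _ => rfl

theorem mem_Cy {I : Finset (Fin n)} {ρ σ : Equiv.Perm (Fin n)} {z j : Fin n} :
    σ ∈ Cy I ρ z j ↔ σ ∈ Om I ρ ∧ σ z = j := by
  simp [Cy]

theorem Om_congr {I : Finset (Fin n)} {ρ ρ' : Equiv.Perm (Fin n)} (h : ρ' ∈ Om I ρ) :
    Om I ρ' = Om I ρ := by
  ext σ
  rw [mem_Om] at h
  rw [mem_Om, mem_Om]
  constructor
  · intro hs i hi; rw [hs i hi, h i hi]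
  · intro hs i hi; rw [hs i hi, h i hi]

theorem mem_image_of_Om {I : Finset (Fin n)} {ρ σ : Equiv.Perm (Fin n)} (h : σ ∈ Om I ρ)
    (i : Fin n) : σ i ∈ I.image ρ ↔ i ∈ I := by
  rw [mem_Om] at h
  constructor
  · intro hi
    by_contra hni
    rw [h i hni, mem_image] at hi
    obtain ⟨a, ha, hai⟩ := hi
    exact hni (ρ.injective hai ▸ ha)
  · intro hi
    by_contra hni
    -- the value `σ i` is `ρ k` with `k ∉ I`
    have hk : ρ.symm (σ i) ∉ I := by
      intro hk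
      exact hni (mem_image.2 ⟨_, hk, by simp⟩)
    have := h _ hk
    rw [Equiv.apply_symm_apply] at this
    exact hk (by rw [σ.injective this]; exact hi)

theorem symm_mem_of_Om {I : Finset (Fin n)} {ρ σ : Equiv.Perm (Fin n)} (h : σ ∈ Om I ρ)
    {j : Fin n} : σ.symm j ∈ I ↔ j ∈ I.image ρ := by
  rw [← mem_image_of_Om h, Equiv.apply_symm_apply]

theorem image_of_Om {I : Finset (Fin n)} {ρ σ : Equiv.Perm (Fin n)} (h : σ ∈ Om I ρ) :
    I.image σ = I.image ρ := by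
  ext j
  rw [← symm_mem_of_Om h, ← symm_mem_of_Om (self_mem_Om I σ)]

theorem swap_mul_mem_Om {I : Finset (Fin n)} {ρ σ : Equiv.Perm (Fin n)} (h : σ ∈ Om I ρ)
    {j l : Fin n} (hj : j ∈ I.image ρ) (hl : l ∈ I.image ρ) : swap j l * σ ∈ Om I ρ := by
  rw [mem_Om]
  intro i hi
  have h1 : σ i ≠ j := by
    rintro rfl; exact hi ((mem_image_of_Om h i).1 hj)
  have h2 : σ i ≠ l := by
    rintro rfl; exact hi ((mem_image_of_Om h i).1 hl)
  rw [Equiv.Perm.mul_apply, Equiv.swap_apply_of_ne_of_ne h1 h2]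
  exact mem_Om.1 h i hi

theorem mul_swap_mem_Om {I : Finset (Fin n)} {ρ σ : Equiv.Perm (Fin n)} (h : σ ∈ Om I ρ)
    {p q : Fin n} (hp : p ∈ I) (hq : q ∈ I) : σ * swap p q ∈ Om I ρ := by
  rw [mem_Om]
  intro i hi
  have h1 : i ≠ p := by rintro rfl; exact hi hp
  have h2 : i ≠ q := by rintro rfl; exact hi hq
  rw [Equiv.Perm.mul_apply, Equiv.swap_apply_of_ne_of_ne h1 h2]
  exact mem_Om.1 h i hi

/-- the sub-board of a member -/
theorem Om_erase {I : Finset (Fin n)} {ρ ρ' : Equiv.Perm (Fin n)} (h : ρ' ∈ Om I ρ)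
    {z : Fin n} (_hz : z ∈ I) : Om (I.erase z) ρ' = Cy I ρ z (ρ' z) := by
  ext σ
  rw [mem_Cy, mem_Om, mem_Om]
  rw [mem_Om] at h
  constructor
  · intro hs
    refine ⟨fun i hi => ?_, hs z (by simp)⟩
    rw [hs i (fun hh => hi (mem_of_mem_erase hh)), h i hi]
  · rintro ⟨h1, h2⟩ i hi
    by_cases hiz : i = z
    · rw [hiz, h2]
    · have : i ∉ I := fun hh => hi (mem_erase.2 ⟨hiz, hh⟩)
      rw [h1 i this, h i this]

/-- a member with a prescribed value -/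
theorem exists_mem_Cy {I : Finset (Fin n)} {ρ : Equiv.Perm (Fin n)} {z j : Fin n} (hz : z ∈ I)
    (hj : j ∈ I.image ρ) : ∃ ρ', ρ' ∈ Om I ρ ∧ ρ' z = j := by
  refine ⟨ρ * swap z (ρ.symm j), mul_swap_mem_Om (self_mem_Om I ρ) hz
    ((symm_mem_of_Om (self_mem_Om I ρ)).2 hj), by simp⟩

theorem image_erase_of_Om {I : Finset (Fin n)} {ρ ρ' : Equiv.Perm (Fin n)} (h : ρ' ∈ Om I ρ)
    {z : Fin n} : (I.erase z).image ρ' = (I.image ρ).erase (ρ' z) := by
  rw [Finset.image_erase ρ'.injective, image_of_Om h]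

/-- the class is kept when the smallest free row is removed -/
theorem Cls.sub_min {I : Finset (Fin n)} {ρ ρ' : Equiv.Perm (Fin n)} (hc : Cls I ρ)
    (h : ρ' ∈ Om I ρ) {z : Fin n} (hz : ∀ i ∈ I, z ≤ i) : Cls (I.erase z) ρ' := by
  intro j hj hjI i hi
  rw [image_erase_of_Om h, mem_erase] at hj
  rw [mem_erase] at hi
  by_cases hjI' : j ∈ I
  · have : j = z := by
      by_contra hne
      exact hjI (mem_erase.2 ⟨hne, hjI'⟩)
    subst this
    exact lt_of_le_of_ne (hz i hi.2) (Ne.symm hi.1)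
  · exact hc j hj.2 hjI' i hi.2

/-- the class is kept when a fixed point is removed -/
theorem Cls.sub_fix {I : Finset (Fin n)} {ρ ρ' : Equiv.Perm (Fin n)} (hc : Cls I ρ)
    (h : ρ' ∈ Om I ρ) {l : Fin n} (hl : ρ' l = l) : Cls (I.erase l) ρ' := by
  intro j hj hjI i hi
  rw [image_erase_of_Om h, mem_erase, hl] at hj
  rw [mem_erase] at hi
  have hjI' : j ∉ I := fun hh => hjI (mem_erase.2 ⟨hj.1, hh⟩)
  exact hc j hj.2 hjI' i hi.2

/-! ### old and special columns -/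

theorem mem_Ol {I : Finset (Fin n)} {ρ : Equiv.Perm (Fin n)} {z j : Fin n} :
    j ∈ Ol I ρ z ↔ j ∈ I.image ρ ∧ j ≤ z := by
  unfold Ol; rw [mem_filter]

theorem mem_Sp {I : Finset (Fin n)} {ρ : Equiv.Perm (Fin n)} {z j : Fin n} :
    j ∈ Sp I ρ z ↔ j ∈ I.image ρ ∧ z < j := by
  unfold Sp; rw [mem_filter]

theorem Sp_sub {I : Finset (Fin n)} {ρ : Equiv.Perm (Fin n)} (hc : Cls I ρ) {z : Fin n}
    (hzI : z ∈ I) {j : Fin n} (hj : j ∈ Sp I ρ z) : j ∈ I := by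
  rw [mem_Sp] at hj
  by_contra hn
  exact absurd (hc j hj.1 hn z hzI) (not_lt.2 hj.2.le)

theorem Ol_notMem {I : Finset (Fin n)} {ρ : Equiv.Perm (Fin n)} {z : Fin n}
    (hz : ∀ i ∈ I, z ≤ i) {j : Fin n} (hj : j ∈ Ol I ρ z) (hjz : j ≠ z) : j ∉ I := by
  rw [mem_Ol] at hj
  intro hn
  exact hjz (le_antisymm hj.2 (hz j hn))

theorem Ol_union_Sp (I : Finset (Fin n)) (ρ : Equiv.Perm (Fin n)) (z : Fin n) :
    Ol I ρ z ∪ Sp I ρ z = I.image ρ := by
  ext j
  rw [mem_union, mem_Ol, mem_Sp]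
  constructor
  · rintro (h | h) <;> exact h.1
  · intro h
    rcases le_or_gt j z with hh | hh
    · exact Or.inl ⟨h, hh⟩
    · exact Or.inr ⟨h, hh⟩

theorem Ol_disj_Sp (I : Finset (Fin n)) (ρ : Equiv.Perm (Fin n)) (z : Fin n) :
    Disjoint (Ol I ρ z) (Sp I ρ z) := by
  rw [Finset.disjoint_left]
  intro j hj hj'
  rw [mem_Ol] at hj
  rw [mem_Sp] at hj'
  exact absurd hj'.2 (not_lt.2 hj.2)

theorem card_Ol_add_Sp (I : Finset (Fin n)) (ρ : Equiv.Perm (Fin n)) (z : Fin n) :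
    (Ol I ρ z).card + (Sp I ρ z).card = I.card := by
  rw [← card_union_of_disjoint (Ol_disj_Sp I ρ z), Ol_union_Sp, card_image_of_injective _ ρ.injective]

/-! ### the transfer between two columns -/

theorem swap_mul_mem_Cy {I : Finset (Fin n)} {ρ σ : Equiv.Perm (Fin n)} {z j l : Fin n}
    (hj : j ∈ I.image ρ) (hl : l ∈ I.image ρ) (h : σ ∈ Cy I ρ z j) : swap j l * σ ∈ Cy I ρ z l := by
  rw [mem_Cy] at h ⊢
  refine ⟨swap_mul_mem_Om h.1 hj hl, ?_⟩
  rw [Equiv.Perm.mul_apply, h.2, Equiv.swap_apply_left]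

/-- a sum over the column `l` as a sum over the column `j` -/
theorem sum_Cy_swap {I : Finset (Fin n)} {ρ : Equiv.Perm (Fin n)} {z j l : Fin n}
    (hj : j ∈ I.image ρ) (hl : l ∈ I.image ρ) (F : Equiv.Perm (Fin n) → ℝ) :
    ∑ σ ∈ Cy I ρ z l, F σ = ∑ σ ∈ Cy I ρ z j, F (swap j l * σ) := by
  symm
  refine Finset.sum_bij' (fun σ _ => swap j l * σ) (fun σ _ => swap l j * σ) ?_ ?_ ?_ ?_ ?_
  · intro σ hσ; exact swap_mul_mem_Cy hj hl hσ
  · intro σ hσ; exact swap_mul_mem_Cy hl hj hσ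
  · intro σ _
    rw [← mul_assoc, Equiv.swap_comm l j, Equiv.swap_mul_self, one_mul]
  · intro σ _
    rw [← mul_assoc, Equiv.swap_comm l j, Equiv.swap_mul_self, one_mul]
  · intro σ _; rfl

/-- the swap of two values does not change the fixed points elsewhere -/
theorem swap_fix_iff {σ : Equiv.Perm (Fin n)} {j l i : Fin n} (h1 : i ≠ j) (h2 : i ≠ l) :
    (swap j l * σ) i = i ↔ σ i = i := by
  rw [Equiv.Perm.mul_apply]
  constructor
  · intro h
    have : σ i = swap j l i := by rw [← Equiv.swap_apply_eq_iff]; exact h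
    rwa [Equiv.swap_apply_of_ne_of_ne h1 h2] at this
  · intro h
    rw [h, Equiv.swap_apply_of_ne_of_ne h1 h2]

theorem wt_swap (t : ℝ) (E : Finset (Fin n)) (σ : Equiv.Perm (Fin n)) (j l : Fin n) :
    wt t ((E.erase j).erase l) (swap j l * σ) = wt t ((E.erase j).erase l) σ := by
  apply wt_ext
  intro i
  rw [mem_erase, mem_erase]
  constructor
  · rintro ⟨⟨h1, h2, h3⟩, h4⟩; exact ⟨⟨h1, h2, h3⟩, (swap_fix_iff h2 h1).1 h4⟩
  · rintro ⟨⟨h1, h2, h3⟩, h4⟩; exact ⟨⟨h1, h2, h3⟩, (swap_fix_iff h2 h1).2 h4⟩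

/-- the gains are nonnegative -/
theorem gain_nonneg {f : Equiv.Perm (Fin n) → ℝ} (hf : Mon f) {I : Finset (Fin n)}
    {ρ σ : Equiv.Perm (Fin n)} {z j l : Fin n} (hz : ∀ i ∈ I, z ≤ i) (hjl : j < l)
    (hl : l ∈ I.image ρ) (h : σ ∈ Cy I ρ z j) : 0 ≤ f σ - f (swap j l * σ) := by
  rw [mem_Cy] at h
  have h1 : σ.symm j = z := by rw [← h.2, Equiv.symm_apply_apply]
  have h2 : σ.symm l ∈ I := (symm_mem_of_Om h.1).2 hl
  have h3 : σ.symm l ≠ z := by
    intro hh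
    rw [← h1] at hh
    exact (ne_of_gt hjl) (σ.symm.injective hh)
  have := hf.left_le hjl (by rw [h1]; exact lt_of_le_of_ne (hz _ h2) (Ne.symm h3))
  linarith

theorem gs_nonneg {t : ℝ} (ht : 0 ≤ t) {f : Equiv.Perm (Fin n) → ℝ} (hf : Mon f)
    {I : Finset (Fin n)} {ρ : Equiv.Perm (Fin n)} {z j l : Fin n} (hz : ∀ i ∈ I, z ≤ i)
    (hjl : j < l) (hl : l ∈ I.image ρ) : 0 ≤ gs t I ρ z f j l := by
  apply Finset.sum_nonneg
  intro σ hσ
  exact mul_nonneg (wt_nonneg ht _ _) (gain_nonneg hf hz hjl hl hσ)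

/-- `Xs` vanishes when `l` is not a fixed point candidate -/
theorem Xs_eq_zero {t : ℝ} {f : Equiv.Perm (Fin n) → ℝ} {I : Finset (Fin n)}
    {ρ : Equiv.Perm (Fin n)} {z u l : Fin n} (hl : l ∈ I.image ρ)
    (h : l ∉ I ∨ (l = z ∧ u ≠ z)) : Xs t I ρ z f u l = 0 := by
  unfold Xs
  apply Finset.sum_eq_zero
  intro σ hσ
  rw [mem_filter, mem_Cy] at hσ
  exfalso
  rcases h with h | ⟨rfl, h⟩
  · have := (mem_image_of_Om hσ.1.1 l).1 (by rw [hσ.2]; exact hl)
    exact h this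
  · exact h (by rw [← hσ.1.2, hσ.2])

/-- splitting off the fixed point `l` -/
theorem Hj_split {t : ℝ} {f : Equiv.Perm (Fin n) → ℝ} {I : Finset (Fin n)}
    {ρ : Equiv.Perm (Fin n)} {z j l : Fin n} (hjl : j ≠ l) (hl : l ∈ I.image ρ) :
    Hj t I ρ z f j = ∑ σ ∈ Cy I ρ z j, wt t ((I.erase j).erase l) σ * f σ
      + (t - 1) * Xs t I ρ z f j l := by
  unfold Hj Xs
  rw [Finset.mul_sum, Finset.sum_filter, ← Finset.sum_add_distrib]
  apply Finset.sum_congr rfl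
  intro σ hσ
  rw [mem_Cy] at hσ
  by_cases hfl : σ l = l
  · rw [if_pos hfl]
    have hlI : l ∈ I := (mem_image_of_Om hσ.1 l).1 (by rw [hfl]; exact hl)
    rw [wt_erase_mul t (mem_erase.2 ⟨hjl.symm, hlI⟩) σ, if_pos hfl]
    ring
  · rw [if_neg hfl, wt_erase_of_ne t _ hfl]
    ring

/-- the identity between two columns -/
theorem Hj_sub {t : ℝ} {f : Equiv.Perm (Fin n) → ℝ} {I : Finset (Fin n)}
    {ρ : Equiv.Perm (Fin n)} {z j l : Fin n} (hjl : j ≠ l) (hj : j ∈ I.image ρ)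
    (hl : l ∈ I.image ρ) :
    Hj t I ρ z f j - Hj t I ρ z f l
      = gs t I ρ z f j l + (t - 1) * (Xs t I ρ z f j l - Xs t I ρ z f l j) := by
  rw [Hj_split hjl hl, Hj_split (f := f) (z := z) (t := t) hjl.symm hj, sum_Cy_swap hj hl]
  have : ∑ σ ∈ Cy I ρ z j, wt t ((I.erase l).erase j) (swap j l * σ) * f (swap j l * σ)
      = ∑ σ ∈ Cy I ρ z j, wt t ((I.erase j).erase l) σ * f (swap j l * σ) := by
    apply Finset.sum_congr rfl
    intro σ _
    rw [Finset.erase_right_comm, wt_swap]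
  rw [this]
  unfold gs
  simp only [mul_sub, Finset.sum_sub_distrib]
  ring

/-! ### the recursion -/

/-- the sum over the board, by the value of `σ z` -/
theorem Hs_eq {t : ℝ} {f : Equiv.Perm (Fin n) → ℝ} {I : Finset (Fin n)}
    {ρ : Equiv.Perm (Fin n)} {z : Fin n} (hzI : z ∈ I) :
    Hs t I ρ f = ∑ j ∈ I.image ρ, (if j = z then t else 1) * Hj t I ρ z f j := by
  unfold Hs Hj
  have h1 : Om I ρ = (I.image ρ).biUnion (fun j => Cy I ρ z j) := by
    ext σ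
    rw [mem_biUnion]
    constructor
    · intro h
      exact ⟨σ z, (mem_image_of_Om h z).2 hzI, mem_Cy.2 ⟨h, rfl⟩⟩
    · rintro ⟨j, _, h⟩; exact (mem_Cy.1 h).1
  rw [h1, Finset.sum_biUnion]
  · apply Finset.sum_congr rfl
    intro j hj
    rw [Finset.mul_sum]
    apply Finset.sum_congr rfl
    intro σ hσ
    rw [mem_Cy] at hσ
    by_cases hjz : j = z
    · rw [if_pos hjz, ← mul_assoc]
      congr 1
      rw [wt_erase_mul t hzI σ, if_pos (by rw [hσ.2, hjz]), hjz]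
    · rw [if_neg hjz, one_mul]
      congr 1
      by_cases hfj : σ j = j
      · exfalso
        exact hjz (σ.injective (hfj.trans hσ.2.symm))
      · rw [wt_erase_of_ne t _ hfj]
  · intro a _ b _ hab
    rw [Function.onFun, Finset.disjoint_left]
    intro σ h1 h2
    exact hab ((mem_Cy.1 h1).2.symm.trans (mem_Cy.1 h2).2)

/-- `Hj` is the weighted sum of the sub-board -/
theorem Hj_eq_Hs {t : ℝ} {f : Equiv.Perm (Fin n) → ℝ} {I : Finset (Fin n)}
    {ρ ρ' : Equiv.Perm (Fin n)} {z : Fin n} (hzI : z ∈ I) (h : ρ' ∈ Om I ρ) :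
    Hj t I ρ z f (ρ' z) = Hs t (I.erase z) ρ' f := by
  unfold Hs Hj
  rw [Om_erase h hzI]
  apply Finset.sum_congr rfl
  intro σ hσ
  rw [mem_Cy] at hσ
  congr 1
  apply wt_ext
  intro i
  rw [mem_erase, mem_erase]
  constructor
  · rintro ⟨⟨h1, h2⟩, h3⟩
    refine ⟨⟨?_, h2⟩, h3⟩
    rintro rfl
    exact h1 (h3.symm.trans hσ.2)
  · rintro ⟨⟨h1, h2⟩, h3⟩
    refine ⟨⟨?_, h2⟩, h3⟩
    rintro rfl
    exact h1 (σ.injective (h3.trans hσ.2.symm))

/-- `Xs` is the column sum of the board without the fixed point `l` -/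
theorem Xs_eq_Hj {t : ℝ} {f : Equiv.Perm (Fin n) → ℝ} {I : Finset (Fin n)}
    {ρ ρ' : Equiv.Perm (Fin n)} {z u l : Fin n} (hlI : l ∈ I) (h : ρ' ∈ Om I ρ) (hl : ρ' l = l) :
    Xs t I ρ z f u l = Hj t (I.erase l) ρ' z f u := by
  unfold Xs Hj
  have h1 : (Cy I ρ z u).filter (fun σ => σ l = l) = Cy (I.erase l) ρ' z u := by
    ext σ
    rw [mem_filter, mem_Cy, mem_Cy, Om_erase h hlI, hl, mem_Cy]
    tauto
  rw [h1]
  apply Finset.sum_congr rfl
  intro σ _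
  rw [Finset.erase_right_comm]

end FixPA
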