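import Pool.Agent.H.MP_f011a7_co.A1

/-!
# MP_f011a7_co: the loss between the special columns, bounded by the gains of an old column
-/

set_option autoImplicit false

namespace FixPA

open Finset Equiv

variable {n : ℕ}

/-- the bound of one term, when the row of the value `b` is above the row `l` -/
theorem B1_termA {t : ℝ} (ht : 0 ≤ t) {f : Equiv.Perm (Fin n) → ℝ} (hf : Mon f)
    {I : Finset (Fin n)} {σ : Equiv.Perm (Fin n)} {z l u b q : Fin n}
    (hbz : b ≤ z) (hlu : l < u) (h1 : σ z = l) (h2 : σ l = u)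
    (h3 : σ q = b) (hzq : z < q) (hql : q < l) (hbI : b ∈ I → b = z) :
    wt t ((I.erase l).erase u) σ * (f σ - f (swap l u * σ))
      ≤ wt t ((I.erase b).erase u) (swap l b * σ)
        * (f (swap l b * σ) - f (swap b u * (swap l b * σ))) := by
  have hzl : z < l := hzq.trans hql
  have hbl : b < l := lt_of_le_of_lt hbz hzl
  have hbu : b < u := hbl.trans hlu
  have ez : (swap l b * σ) z = b := by rw [Equiv.Perm.mul_apply, h1, Equiv.swap_apply_left]
  have eq : (swap l b * σ) q = l := by rw [Equiv.Perm.mul_apply, h3, Equiv.swap_apply_right]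
  have el : (swap l b * σ) l = u := by
    rw [Equiv.Perm.mul_apply, h2, Equiv.swap_apply_of_ne_of_ne hlu.ne' hbu.ne']
  have hwt : wt t ((I.erase l).erase u) σ = wt t ((I.erase b).erase u) (swap l b * σ) := by
    apply wt_ext
    intro i
    rw [mem_erase, mem_erase, mem_erase, mem_erase]
    by_cases hiz : i = z
    · subst hiz
      rw [ez, h1]
      constructor
      · rintro ⟨_, h⟩; exact absurd h hzl.ne'
      · rintro ⟨⟨_, h, _⟩, h'⟩; exact absurd h'.symm h
    · by_cases hiq : i = q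
      · subst hiq
        rw [eq, h3]
        constructor
        · rintro ⟨_, h⟩; exact absurd h (lt_of_le_of_lt hbz hzq).ne
        · rintro ⟨_, h⟩; exact absurd h hql.ne'
      · by_cases hil : i = l
        · subst hil
          rw [el, h2]
          constructor
          · rintro ⟨⟨_, h, _⟩, _⟩; exact absurd rfl h
          · rintro ⟨_, h⟩; exact absurd h hlu.ne'
        · have n1 : σ i ≠ l := fun h => hiz (σ.injective (h.trans h1.symm))
          have n2 : σ i ≠ b := fun h => hiq (σ.injective (h.trans h3.symm))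
          have e1 : (swap l b * σ) i = σ i := by
            rw [Equiv.Perm.mul_apply, Equiv.swap_apply_of_ne_of_ne n1 n2]
          rw [e1]
          constructor
          · rintro ⟨⟨h4, _, h6⟩, h7⟩
            refine ⟨⟨h4, ?_, h6⟩, h7⟩
            rintro rfl
            exact hiz (hbI h6)
          · rintro ⟨⟨h4, _, h6⟩, h7⟩
            exact ⟨⟨h4, hil, h6⟩, h7⟩
  rw [hwt]
  apply mul_le_mul_of_nonneg_left _ (wt_nonneg ht _ _)
  have hup : f σ ≤ f (swap l b * σ) := by
    have h := hf.up (σ := σ) hzq (by rw [h1, h3]; exact hbl)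
    rwa [Equiv.mul_swap_eq_swap_mul, h1, h3] at h
  have hlow : f (swap b u * (swap l b * σ)) ≤ f (swap l u * σ) := by
    have aq : (swap b u * (swap l b * σ)) q = l := by
      rw [Equiv.Perm.mul_apply, eq, Equiv.swap_apply_of_ne_of_ne hbl.ne' hlu.ne]
    have al : (swap b u * (swap l b * σ)) l = b := by
      rw [Equiv.Perm.mul_apply, el, Equiv.swap_apply_right]
    have h := hf.up (σ := swap b u * (swap l b * σ)) hql (by rw [aq, al]; exact hbl)
    rw [Equiv.mul_swap_eq_swap_mul, aq, al] at h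
    have e : swap l b * (swap b u * (swap l b * σ)) = swap l u * σ := by
      rw [← mul_assoc, Equiv.mul_swap_eq_swap_mul, Equiv.swap_apply_right,
        Equiv.swap_apply_of_ne_of_ne hlu.ne' hbu.ne', mul_assoc, ← mul_assoc (swap l b) (swap l b),
        Equiv.swap_mul_self, one_mul]
    rwa [e] at h
  linarith

/-- the bound of one term, when the row of the value `b` is below the row `l` -/
theorem B1_termB {t : ℝ} (ht : 0 < t) {f : Equiv.Perm (Fin n) → ℝ} (hf : Mon f)
    {I : Finset (Fin n)} {σ : Equiv.Perm (Fin n)} {z l u b q : Fin n}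
    (hbz : b ≤ z) (hzl : z < l) (hlu : l < u) (hlI : l ∈ I) (h1 : σ z = l) (h2 : σ l = u)
    (h3 : σ q = b) (hlq : l < q) (hbI : b ∈ I → b = z) :
    wt t ((I.erase l).erase u) σ * (f σ - f (swap l u * σ))
      ≤ (1 / t) * (wt t ((I.erase b).erase u) (swap b u * (swap l u * σ))
        * (f (swap b u * (swap l u * σ)) - f (swap b u * (swap b u * (swap l u * σ))))) := by
  have hzq : z < q := hzl.trans hlq
  have hbl : b < l := lt_of_le_of_lt hbz hzl
  have hbu : b < u := hbl.trans hlu
  have ez : (swap b u * (swap l u * σ)) z = b := by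
    rw [Equiv.Perm.mul_apply, Equiv.Perm.mul_apply, h1, Equiv.swap_apply_left,
      Equiv.swap_apply_right]
  have el : (swap b u * (swap l u * σ)) l = l := by
    rw [Equiv.Perm.mul_apply, Equiv.Perm.mul_apply, h2, Equiv.swap_apply_right,
      Equiv.swap_apply_of_ne_of_ne hbl.ne' hlu.ne]
  have eq : (swap b u * (swap l u * σ)) q = u := by
    rw [Equiv.Perm.mul_apply, Equiv.Perm.mul_apply, h3,
      Equiv.swap_apply_of_ne_of_ne hbl.ne hbu.ne, Equiv.swap_apply_left]
  have hwt : wt t ((I.erase b).erase u) (swap b u * (swap l u * σ))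
      = t * wt t ((I.erase l).erase u) σ := by
    apply wt_ext_mul l (by
      rw [mem_erase, mem_erase]
      exact ⟨hlu.ne, hbl.ne', hlI⟩) el
    intro i
    rw [mem_erase, mem_erase, mem_erase, mem_erase]
    by_cases hiz : i = z
    · subst hiz
      rw [ez, h1]
      constructor
      · rintro ⟨_, h⟩; exact absurd h hzl.ne'
      · rintro ⟨_, ⟨_, h, _⟩, h'⟩; exact absurd h'.symm h
    · by_cases hil : i = l
      · subst hil
        constructor
        · rintro ⟨⟨_, h, _⟩, _⟩; exact absurd rfl h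
        · rintro ⟨h, _⟩; exact absurd rfl h
      · by_cases hiq : i = q
        · subst hiq
          rw [eq, h3]
          constructor
          · rintro ⟨_, h⟩; exact absurd h (lt_of_le_of_lt hbz hzq).ne
          · rintro ⟨_, ⟨h, _⟩, h'⟩; exact absurd h'.symm h
        · have n1 : σ i ≠ l := fun h => hiz (σ.injective (h.trans h1.symm))
          have n2 : σ i ≠ b := fun h => hiq (σ.injective (h.trans h3.symm))
          have n3 : σ i ≠ u := fun h => hil (σ.injective (h.trans h2.symm))
          have e1 : (swap b u * (swap l u * σ)) i = σ i := by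
            rw [Equiv.Perm.mul_apply, Equiv.Perm.mul_apply,
              Equiv.swap_apply_of_ne_of_ne n1 n3, Equiv.swap_apply_of_ne_of_ne n2 n3]
          rw [e1]
          constructor
          · rintro ⟨⟨h4, _, h6⟩, h7⟩
            refine ⟨hil, ⟨h4, ?_, h6⟩, h7⟩
            rintro rfl
            exact hiz (hbI h6)
          · rintro ⟨_, ⟨h4, _, h6⟩, h7⟩
            exact ⟨⟨h4, hil, h6⟩, h7⟩
  rw [hwt, ← mul_assoc (swap b u) (swap b u), Equiv.swap_mul_self, one_mul]
  have e0 : (1 / t) * (t * wt t ((I.erase l).erase u) σ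
      * (f (swap b u * (swap l u * σ)) - f (swap l u * σ)))
      = wt t ((I.erase l).erase u) σ * (f (swap b u * (swap l u * σ)) - f (swap l u * σ)) := by
    field_simp
  rw [e0]
  apply mul_le_mul_of_nonneg_left _ (wt_nonneg ht.le _ _)
  have hup : f σ ≤ f (swap l b * σ) := by
    have h := hf.up (σ := σ) hzq (by rw [h1, h3]; exact hbl)
    rwa [Equiv.mul_swap_eq_swap_mul, h1, h3] at h
  have hup2 : f (swap l b * σ) ≤ f (swap b u * (swap l u * σ)) := by
    have bq : (swap l b * σ) q = l := by rw [Equiv.Perm.mul_apply, h3, Equiv.swap_apply_right]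
    have bl : (swap l b * σ) l = u := by
      rw [Equiv.Perm.mul_apply, h2, Equiv.swap_apply_of_ne_of_ne hlu.ne' hbu.ne']
    have h := hf.up (σ := swap l b * σ) hlq (by rw [bq, bl]; exact hlu)
    rw [Equiv.mul_swap_eq_swap_mul, bq, bl] at h
    have e : swap u l * (swap l b * σ) = swap b u * (swap l u * σ) := by
      rw [← mul_assoc, Equiv.mul_swap_eq_swap_mul, Equiv.swap_apply_right,
        Equiv.swap_apply_of_ne_of_ne hbu.ne hbl.ne, Equiv.swap_comm u b, Equiv.swap_comm u l,
        mul_assoc]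
    rwa [e] at h
  linarith

/-- the bound of one pair `l < u` -/
theorem B1_pair {t : ℝ} (ht : 1 ≤ t) {f : Equiv.Perm (Fin n) → ℝ} (hf : Mon f)
    {I : Finset (Fin n)} {ρ : Equiv.Perm (Fin n)} (hc : Cls I ρ) {z : Fin n} (hzI : z ∈ I)
    (hz : ∀ i ∈ I, z ≤ i) {b l u : Fin n} (hb : b ∈ Ol I ρ z) (hl : l ∈ Sp I ρ z)
    (hu : u ∈ Sp I ρ z) (hlu : l < u) :
    Gs t I ρ z f l u
      ≤ ∑ s ∈ Cy I ρ z b, (wt t ((I.erase b).erase u) s * (f s - f (swap b u * s)))
        * ((if s l = u then 1 else 0) + (1 / t) * (if s l = l ∧ l < s.symm u then 1 else 0)) := by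
  classical
  have ht0 : (0 : ℝ) < t := lt_of_lt_of_le one_pos ht
  have hzl : z < l := (mem_Sp.1 hl).2
  have hzu : z < u := (mem_Sp.1 hu).2
  have hlJ : l ∈ I.image ρ := (mem_Sp.1 hl).1
  have huJ : u ∈ I.image ρ := (mem_Sp.1 hu).1
  have hlI : l ∈ I := Sp_sub hc hzI hl
  have hbz : b ≤ z := (mem_Ol.1 hb).2
  have hbJ : b ∈ I.image ρ := (mem_Ol.1 hb).1
  have hbl : b < l := lt_of_le_of_lt hbz hzl
  have hbu : b < u := lt_of_le_of_lt hbz hzu
  have hbI : b ∈ I → b = z := fun h => le_antisymm hbz (hz b h)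
  have hW : ∀ s ∈ Cy I ρ z b, 0 ≤ wt t ((I.erase b).erase u) s * (f s - f (swap b u * s)) :=
    fun s hs => mul_nonneg (wt_nonneg ht0.le _ _) (gain_nonneg hf hz hbu huJ hs)
  have hF : ∀ σ ∈ (Cy I ρ z l).filter (fun σ => σ l = u),
      σ ∈ Om I ρ ∧ σ z = l ∧ σ l = u ∧ z < σ.symm b ∧ σ.symm b ≠ l := by
    intro σ hσ
    rw [mem_filter, mem_Cy] at hσ
    obtain ⟨⟨h1, h2⟩, h3⟩ := hσ
    refine ⟨h1, h2, h3, ?_, ?_⟩
    · refine lt_of_le_of_ne (hz _ ((symm_mem_of_Om h1).2 hbJ)) ?_
      intro h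
      have : σ z = b := by rw [h, Equiv.apply_symm_apply]
      exact hbl.ne (this.symm.trans h2)
    · intro h
      have : σ l = b := by rw [← h, Equiv.apply_symm_apply]
      exact hbu.ne (this.symm.trans h3)
  unfold Gs
  rw [← Finset.sum_filter_add_sum_filter_not ((Cy I ρ z l).filter (fun σ => σ l = u))
    (fun σ => σ.symm b < l)]
  simp only [mul_add, Finset.sum_add_distrib]
  apply add_le_add
  · -- the row of `b` is above the row `l`
    set F := ((Cy I ρ z l).filter (fun σ => σ l = u)).filter (fun σ => σ.symm b < l) with hFd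
    have s1 : ∑ σ ∈ F, wt t ((I.erase l).erase u) σ * (f σ - f (swap l u * σ))
        ≤ ∑ σ ∈ F, wt t ((I.erase b).erase u) (swap l b * σ)
          * (f (swap l b * σ) - f (swap b u * (swap l b * σ))) := by
      apply Finset.sum_le_sum
      intro σ hσ
      rw [hFd, mem_filter] at hσ
      obtain ⟨h1, h2, h3, h4, h5⟩ := hF σ hσ.1
      exact B1_termA ht0.le hf hbz hlu h2 h3 (Equiv.apply_symm_apply σ b) h4 hσ.2 hbI
    refine s1.trans ?_
    have s2 : ∑ σ ∈ F, wt t ((I.erase b).erase u) (swap l b * σ)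
          * (f (swap l b * σ) - f (swap b u * (swap l b * σ)))
        = ∑ s ∈ F.image (fun σ => swap l b * σ), wt t ((I.erase b).erase u) s
          * (f s - f (swap b u * s)) := by
      rw [Finset.sum_image]
      intro x _ y _ hxy
      exact mul_left_cancel hxy
    rw [s2]
    simp only [mul_ite, mul_one, mul_zero]
    rw [← Finset.sum_filter]
    apply Finset.sum_le_sum_of_subset_of_nonneg
    · intro s hs
      rw [mem_image] at hs
      obtain ⟨σ, hσ, rfl⟩ := hs
      rw [hFd, mem_filter] at hσ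
      obtain ⟨h1, h2, h3, h4, h5⟩ := hF σ hσ.1
      rw [mem_filter, mem_Cy]
      refine ⟨⟨swap_mul_mem_Om h1 hlJ hbJ, ?_⟩, ?_⟩
      · rw [Equiv.Perm.mul_apply, h2, Equiv.swap_apply_left]
      · rw [Equiv.Perm.mul_apply, h3, Equiv.swap_apply_of_ne_of_ne hlu.ne' hbu.ne']
    · intro s hs _
      rw [mem_filter] at hs
      exact hW s hs.1
  · -- the row of `b` is below the row `l`
    set F := ((Cy I ρ z l).filter (fun σ => σ l = u)).filter (fun σ => ¬ σ.symm b < l) with hFd
    have s1 : ∑ σ ∈ F, wt t ((I.erase l).erase u) σ * (f σ - f (swap l u * σ))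
        ≤ ∑ σ ∈ F, (1 / t) * (wt t ((I.erase b).erase u) (swap b u * (swap l u * σ))
          * (f (swap b u * (swap l u * σ)) - f (swap b u * (swap b u * (swap l u * σ))))) := by
      apply Finset.sum_le_sum
      intro σ hσ
      rw [hFd, mem_filter] at hσ
      obtain ⟨h1, h2, h3, h4, h5⟩ := hF σ hσ.1
      exact B1_termB ht0 hf hbz hzl hlu hlI h2 h3 (Equiv.apply_symm_apply σ b)
        (lt_of_le_of_ne (not_lt.1 hσ.2) h5.symm) hbI
    refine s1.trans ?_
    have s2 : ∑ σ ∈ F, (1 / t) * (wt t ((I.erase b).erase u) (swap b u * (swap l u * σ))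
          * (f (swap b u * (swap l u * σ)) - f (swap b u * (swap b u * (swap l u * σ)))))
        = ∑ s ∈ F.image (fun σ => swap b u * (swap l u * σ)),
          (1 / t) * (wt t ((I.erase b).erase u) s * (f s - f (swap b u * s))) := by
      rw [Finset.sum_image]
      intro x _ y _ hxy
      exact mul_left_cancel (mul_left_cancel hxy)
    rw [s2]
    have s3 : ∑ s ∈ Cy I ρ z b, (wt t ((I.erase b).erase u) s * (f s - f (swap b u * s)))
          * ((1 / t) * (if s l = l ∧ l < s.symm u then 1 else 0))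
        = ∑ s ∈ (Cy I ρ z b).filter (fun s => s l = l ∧ l < s.symm u),
          (1 / t) * (wt t ((I.erase b).erase u) s * (f s - f (swap b u * s))) := by
      rw [Finset.sum_filter]
      apply Finset.sum_congr rfl
      intro s _
      split_ifs
      · ring
      · ring
    rw [s3]
    apply Finset.sum_le_sum_of_subset_of_nonneg
    · intro s hs
      rw [mem_image] at hs
      obtain ⟨σ, hσ, rfl⟩ := hs
      rw [hFd, mem_filter] at hσ
      obtain ⟨h1, h2, h3, h4, h5⟩ := hF σ hσ.1
      have hlq : l < σ.symm b := lt_of_le_of_ne (not_lt.1 hσ.2) h5.symm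
      rw [mem_filter, mem_Cy]
      refine ⟨⟨swap_mul_mem_Om (swap_mul_mem_Om h1 hlJ huJ) hbJ huJ, ?_⟩, ?_, ?_⟩
      · rw [Equiv.Perm.mul_apply, Equiv.Perm.mul_apply, h2, Equiv.swap_apply_left,
          Equiv.swap_apply_right]
      · rw [Equiv.Perm.mul_apply, Equiv.Perm.mul_apply, h3, Equiv.swap_apply_right,
          Equiv.swap_apply_of_ne_of_ne hbl.ne' hlu.ne]
      · have e : (swap b u * (swap l u * σ)).symm u = σ.symm b := by
          rw [Equiv.symm_apply_eq, Equiv.Perm.mul_apply, Equiv.Perm.mul_apply,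
            Equiv.apply_symm_apply, Equiv.swap_apply_of_ne_of_ne hbl.ne hbu.ne,
            Equiv.swap_apply_left]
        rw [e]
        exact hlq
    · intro s hs _
      rw [mem_filter] at hs
      exact mul_nonneg (by positivity) (hW s hs.1)

/-- the multiplicity bound -/
theorem B1_mult {t : ℝ} (ht : 1 ≤ t) (S : Finset (Fin n)) (s : Equiv.Perm (Fin n))
    {u : Fin n} (hu : u ∈ S) :
    ∑ l ∈ S.filter (fun l => l < u),
        ((if s l = u then (1 : ℝ) else 0)
          + (1 / t) * (if s l = l ∧ l < s.symm u then 1 else 0))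
      ≤ 1 + ((S.card : ℝ) - 2) / t := by
  classical
  have ht0 : (0 : ℝ) < t := lt_of_lt_of_le one_pos ht
  rw [Finset.sum_add_distrib, ← Finset.mul_sum]
  have e1 : ∑ l ∈ S.filter (fun l => l < u), (if s l = u then (1 : ℝ) else 0)
      = if s.symm u ∈ S.filter (fun l => l < u) then 1 else 0 := by
    have : ∀ l, (s l = u) ↔ (s.symm u = l) := fun l => by
      rw [Equiv.symm_apply_eq]; exact eq_comm
    simp only [this]
    rw [Finset.sum_ite_eq]
  have e2 : ∑ l ∈ S.filter (fun l => l < u), (if s l = l ∧ l < s.symm u then (1 : ℝ) else 0)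
      = (((S.filter (fun l => l < u)).filter (fun l => s l = l ∧ l < s.symm u)).card : ℝ) := by
    rw [Finset.sum_boole]
  rw [e1, e2]
  set C := (S.filter (fun l => l < u)).filter (fun l => s l = l ∧ l < s.symm u) with hC
  have hCm : ∀ l ∈ C, l ∈ S ∧ l < u ∧ l < s.symm u := by
    intro l hl
    rw [hC, mem_filter, mem_filter] at hl
    exact ⟨hl.1.1, hl.1.2, hl.2.2⟩
  by_cases ha : s.symm u ∈ S.filter (fun l => l < u)
  · rw [if_pos ha]
    rw [mem_filter] at ha
    have hsub : C ⊆ (S.erase u).erase (s.symm u) := by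
      intro l hl
      obtain ⟨h1, h2, h3⟩ := hCm l hl
      rw [mem_erase, mem_erase]
      exact ⟨h3.ne, h2.ne, h1⟩
    have hcard := Finset.card_le_card hsub
    have hm : s.symm u ∈ S.erase u := mem_erase.2 ⟨ha.2.ne, ha.1⟩
    have h1 := Finset.card_erase_add_one hm
    have h2 := Finset.card_erase_add_one hu
    have h3 : (C.card : ℝ) ≤ (S.card : ℝ) - 2 := by
      have : C.card + 2 ≤ S.card := by omega
      have h' : ((C.card + 2 : ℕ) : ℝ) ≤ (S.card : ℝ) := by exact_mod_cast this
      push_cast at h'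
      linarith
    have h4 : (1 / t) * (C.card : ℝ) ≤ ((S.card : ℝ) - 2) / t := by
      rw [one_div, inv_mul_eq_div]
      exact div_le_div_of_nonneg_right h3 ht0.le
    linarith
  · rw [if_neg ha]
    have hsub : C ⊆ S.erase u := by
      intro l hl
      obtain ⟨h1, h2, h3⟩ := hCm l hl
      rw [mem_erase]
      exact ⟨h2.ne, h1⟩
    have hcard := Finset.card_le_card hsub
    have h2 := Finset.card_erase_add_one hu
    have h3 : (C.card : ℝ) ≤ (S.card : ℝ) - 1 := by
      have : C.card + 1 ≤ S.card := by omega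
      have h' : ((C.card + 1 : ℕ) : ℝ) ≤ (S.card : ℝ) := by exact_mod_cast this
      push_cast at h'
      linarith
    have h4 : (1 / t) * (C.card : ℝ) ≤ ((S.card : ℝ) - 1) / t := by
      rw [one_div, inv_mul_eq_div]
      exact div_le_div_of_nonneg_right h3 ht0.le
    have h5 : ((S.card : ℝ) - 1) / t = ((S.card : ℝ) - 2) / t + 1 / t := by
      rw [← add_div]; congr 1; ring
    have h6 : 1 / t ≤ 1 := by
      rw [div_le_one ht0]; exact ht
    linarith

theorem core_B1 {t : ℝ} (ht : 1 ≤ t) {f : Equiv.Perm (Fin n) → ℝ} (hf : Mon f)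
    {I : Finset (Fin n)} {ρ : Equiv.Perm (Fin n)} (hc : Cls I ρ) {z : Fin n} (hzI : z ∈ I)
    (hz : ∀ i ∈ I, z ≤ i) {b : Fin n} (hb : b ∈ Ol I ρ z) (hr : 2 ≤ (Sp I ρ z).card) :
    ∑ l ∈ Sp I ρ z, ∑ u ∈ (Sp I ρ z).filter (fun u => l < u), Gs t I ρ z f l u
      ≤ (1 + ((Sp I ρ z).card - 2 : ℝ) / t) * ∑ u ∈ Sp I ρ z, gs t I ρ z f b u := by
  classical
  have ht0 : (0 : ℝ) < t := lt_of_lt_of_le one_pos ht
  have _ := hr
  have step : ∑ l ∈ Sp I ρ z, ∑ u ∈ (Sp I ρ z).filter (fun u => l < u), Gs t I ρ z f l u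
      ≤ ∑ l ∈ Sp I ρ z, ∑ u ∈ (Sp I ρ z).filter (fun u => l < u),
        ∑ s ∈ Cy I ρ z b, (wt t ((I.erase b).erase u) s * (f s - f (swap b u * s)))
        * ((if s l = u then 1 else 0)
          + (1 / t) * (if s l = l ∧ l < s.symm u then 1 else 0)) := by
    apply Finset.sum_le_sum
    intro l hl
    apply Finset.sum_le_sum
    intro u hu
    rw [mem_filter] at hu
    exact B1_pair ht hf hc hzI hz hb hl hu.1 hu.2
  refine step.trans ?_
  rw [Finset.sum_comm' (t' := Sp I ρ z) (s' := fun u => (Sp I ρ z).filter (fun l => l < u)) (by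
    intro x y
    rw [mem_filter, mem_filter]
    tauto)]
  rw [Finset.mul_sum]
  apply Finset.sum_le_sum
  intro u hu
  have hbu : b < u := lt_of_le_of_lt (mem_Ol.1 hb).2 (mem_Sp.1 hu).2
  rw [Finset.sum_comm]
  unfold gs
  rw [Finset.mul_sum]
  apply Finset.sum_le_sum
  intro s hs
  rw [← Finset.mul_sum, mul_comm (1 + ((Sp I ρ z).card - 2 : ℝ) / t)]
  apply mul_le_mul_of_nonneg_left (B1_mult ht (Sp I ρ z) s hu)
  exact mul_nonneg (wt_nonneg ht0.le _ _) (gain_nonneg hf hz hbu (mem_Sp.1 hu).1 hs)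

end FixPA
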