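import Pool.Agent.H.MP_f011a7_co.A1

/-!
# MP_f011a7_co: an old column against the own column of the row `z`
-/

set_option autoImplicit false

namespace FixPA

open Finset Equiv

variable {n : ℕ}

/-- the weights of the two columns `b` and `z` agree along `σ ↦ swap b z * σ` -/
theorem B2_wt {t : ℝ} {I : Finset (Fin n)} {σ : Equiv.Perm (Fin n)} {z l b q : Fin n}
    (hbz : b < z) (h1 : σ z = b) (h3 : σ q = z) (hzq : z < q) (hbI : b ∉ I) :
    wt t ((I.erase z).erase l) (swap b z * σ) = wt t ((I.erase b).erase l) σ := by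
  have hbq : b < q := hbz.trans hzq
  have eq : (swap b z * σ) q = b := by rw [Equiv.Perm.mul_apply, h3, Equiv.swap_apply_right]
  apply wt_ext
  intro i
  rw [mem_erase, mem_erase, mem_erase, mem_erase]
  by_cases hiz : i = z
  · subst hiz
    rw [h1]
    constructor
    · rintro ⟨⟨_, h, _⟩, _⟩; exact absurd rfl h
    · rintro ⟨_, h⟩; exact absurd h hbz.ne
  · by_cases hiq : i = q
    · subst hiq
      rw [eq, h3]
      constructor
      · rintro ⟨_, h⟩; exact absurd h hbq.ne
      · rintro ⟨_, h⟩; exact absurd h hzq.ne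
    · have n1 : σ i ≠ b := fun h => hiz (σ.injective (h.trans h1.symm))
      have n2 : σ i ≠ z := fun h => hiq (σ.injective (h.trans h3.symm))
      have e1 : (swap b z * σ) i = σ i := by
        rw [Equiv.Perm.mul_apply, Equiv.swap_apply_of_ne_of_ne n1 n2]
      rw [e1]
      constructor
      · rintro ⟨⟨h4, _, h6⟩, h7⟩
        refine ⟨⟨h4, ?_, h6⟩, h7⟩
        rintro rfl
        exact hbI h6
      · rintro ⟨⟨h4, _, h6⟩, h7⟩
        exact ⟨⟨h4, hiz, h6⟩, h7⟩

/-- one term, when the row of the value `z` is above the row `l` -/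
theorem B2_termA {t : ℝ} (ht : 0 ≤ t) {f : Equiv.Perm (Fin n) → ℝ} (hf : Mon f)
    {I : Finset (Fin n)} {σ : Equiv.Perm (Fin n)} {z l b q : Fin n}
    (hbz : b < z) (h1 : σ z = b) (h2 : σ l = l) (h3 : σ q = z) (hzq : z < q) (hql : q < l) :
    wt t ((I.erase b).erase l) σ * (f σ - f (swap b z * σ))
      ≤ wt t ((I.erase b).erase l) σ * (f σ - f (swap b l * σ)) := by
  have hzl : z < l := hzq.trans hql
  have hbl : b < l := hbz.trans hzl
  apply mul_le_mul_of_nonneg_left _ (wt_nonneg ht _ _)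
  have az : (swap b l * σ) z = l := by rw [Equiv.Perm.mul_apply, h1, Equiv.swap_apply_left]
  have aq : (swap b l * σ) q = z := by
    rw [Equiv.Perm.mul_apply, h3, Equiv.swap_apply_of_ne_of_ne hbz.ne' hzl.ne]
  have al : (swap b l * σ) l = b := by rw [Equiv.Perm.mul_apply, h2, Equiv.swap_apply_right]
  have u1 := hf.up (σ := swap b l * σ) hzq (by rw [az, aq]; exact hzl)
  rw [Equiv.mul_swap_eq_swap_mul, az, aq] at u1
  have bq : (swap l z * (swap b l * σ)) q = l := by
    rw [Equiv.Perm.mul_apply, aq, Equiv.swap_apply_right]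
  have bl : (swap l z * (swap b l * σ)) l = b := by
    rw [Equiv.Perm.mul_apply, al, Equiv.swap_apply_of_ne_of_ne hbl.ne hbz.ne]
  have u2 := hf.up (σ := swap l z * (swap b l * σ)) hql (by rw [bq, bl]; exact hbl)
  rw [Equiv.mul_swap_eq_swap_mul, bq, bl] at u2
  have e : swap l b * (swap l z * (swap b l * σ)) = swap b z * σ := by
    rw [← mul_assoc, Equiv.mul_swap_eq_swap_mul, Equiv.swap_apply_left,
      Equiv.swap_apply_of_ne_of_ne hzl.ne hbz.ne', mul_assoc, Equiv.swap_comm l b,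
      ← mul_assoc (swap b l) (swap b l), Equiv.swap_mul_self, one_mul]
  rw [e] at u2
  linarith

/-- one term, when the row of the value `z` is below the row `l` -/
theorem B2_termB {t : ℝ} (ht : 0 ≤ t) {f : Equiv.Perm (Fin n) → ℝ} (hf : Mon f)
    {I : Finset (Fin n)} {σ : Equiv.Perm (Fin n)} {z l b q : Fin n}
    (hbz : b < z) (hzl : z < l) (h1 : σ z = b) (h2 : σ l = l) (h3 : σ q = z) (hlq : l < q) :
    wt t ((I.erase b).erase l) σ * (f σ - f (swap b z * σ))
      ≤ wt t ((I.erase b).erase l) (swap l z * σ)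
        * (f (swap l z * σ) - f (swap b l * (swap l z * σ))) := by
  have hzq : z < q := hzl.trans hlq
  have hbl : b < l := hbz.trans hzl
  have ez : (swap l z * σ) z = b := by
    rw [Equiv.Perm.mul_apply, h1, Equiv.swap_apply_of_ne_of_ne hbl.ne hbz.ne]
  have el : (swap l z * σ) l = z := by rw [Equiv.Perm.mul_apply, h2, Equiv.swap_apply_left]
  have eq : (swap l z * σ) q = l := by rw [Equiv.Perm.mul_apply, h3, Equiv.swap_apply_right]
  have hwt : wt t ((I.erase b).erase l) σ = wt t ((I.erase b).erase l) (swap l z * σ) := by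
    apply wt_ext
    intro i
    rw [mem_erase, mem_erase]
    by_cases hiz : i = z
    · subst hiz
      rw [ez, h1]
    · by_cases hil : i = l
      · subst hil
        constructor
        · rintro ⟨⟨h, _⟩, _⟩; exact absurd rfl h
        · rintro ⟨⟨h, _⟩, _⟩; exact absurd rfl h
      · by_cases hiq : i = q
        · subst hiq
          rw [eq, h3]
          constructor
          · rintro ⟨_, h⟩; exact absurd h hzq.ne
          · rintro ⟨_, h⟩; exact absurd h hlq.ne
        · have n1 : σ i ≠ l := fun h => hil (σ.injective (h.trans h2.symm))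
          have n2 : σ i ≠ z := fun h => hiq (σ.injective (h.trans h3.symm))
          have e1 : (swap l z * σ) i = σ i := by
            rw [Equiv.Perm.mul_apply, Equiv.swap_apply_of_ne_of_ne n1 n2]
          rw [e1]
  rw [hwt]
  apply mul_le_mul_of_nonneg_left _ (wt_nonneg ht _ _)
  have u1 := hf.up (σ := σ) hlq (by rw [h2, h3]; exact hzl)
  rw [Equiv.mul_swap_eq_swap_mul, h2, h3] at u1
  have cz : (swap b l * (swap l z * σ)) z = l := by
    rw [Equiv.Perm.mul_apply, ez, Equiv.swap_apply_left]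
  have cl : (swap b l * (swap l z * σ)) l = z := by
    rw [Equiv.Perm.mul_apply, el, Equiv.swap_apply_of_ne_of_ne hbz.ne' hzl.ne]
  have u2 := hf.up (σ := swap b l * (swap l z * σ)) hzl (by rw [cz, cl]; exact hzl)
  rw [Equiv.mul_swap_eq_swap_mul, cz, cl] at u2
  have e : swap l z * (swap b l * (swap l z * σ)) = swap b z * σ := by
    rw [← mul_assoc, Equiv.mul_swap_eq_swap_mul, Equiv.swap_apply_left,
      Equiv.swap_apply_of_ne_of_ne hbl.ne hbz.ne, mul_assoc,
      ← mul_assoc (swap l z) (swap l z), Equiv.swap_mul_self, one_mul]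
  rw [e] at u2
  linarith

theorem core_B2 {t : ℝ} (ht : 0 ≤ t) {f : Equiv.Perm (Fin n) → ℝ} (hf : Mon f)
    {I : Finset (Fin n)} {ρ : Equiv.Perm (Fin n)} (hc : Cls I ρ) {z : Fin n} (hzI : z ∈ I)
    (hz : ∀ i ∈ I, z ≤ i) (hzJ : z ∈ I.image ρ) {b : Fin n} (hb : b ∈ Ol I ρ z) (hbz : b < z)
    {l : Fin n} (hl : l ∈ Sp I ρ z) :
    Xs t I ρ z f b l - Xs t I ρ z f z l ≤ gs t I ρ z f b l := by
  classical
  have _ := hc
  have _ := hzI
  have hzl : z < l := (mem_Sp.1 hl).2
  have hlJ : l ∈ I.image ρ := (mem_Sp.1 hl).1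
  have hbJ : b ∈ I.image ρ := (mem_Ol.1 hb).1
  have hbl : b < l := hbz.trans hzl
  have hbI : b ∉ I := fun h => absurd (hz b h) (not_le.2 hbz)
  set P := (Cy I ρ z b).filter (fun σ => σ l = l) with hP
  have hPm : ∀ σ ∈ P, σ ∈ Om I ρ ∧ σ z = b ∧ σ l = l ∧ z < σ.symm z ∧ σ.symm z ≠ l := by
    intro σ hσ
    rw [hP, mem_filter, mem_Cy] at hσ
    obtain ⟨⟨h1, h2⟩, h3⟩ := hσ
    refine ⟨h1, h2, h3, ?_, ?_⟩
    · refine lt_of_le_of_ne (hz _ ((symm_mem_of_Om h1).2 hzJ)) ?_
      intro h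
      have : σ z = z := by
        conv_lhs => rw [h]
        rw [Equiv.apply_symm_apply]
      exact hbz.ne (h2.symm.trans this)
    · intro h
      have : σ l = z := by rw [← h, Equiv.apply_symm_apply]
      exact hzl.ne (this.symm.trans h3)
  have hX : Xs t I ρ z f z l
      = ∑ σ ∈ P, wt t ((I.erase b).erase l) σ * f (swap b z * σ) := by
    unfold Xs
    symm
    refine Finset.sum_bij' (fun σ _ => swap b z * σ) (fun σ _ => swap z b * σ) ?_ ?_ ?_ ?_ ?_
    · intro σ hσ
      obtain ⟨h1, h2, h3, _, _⟩ := hPm σ hσ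
      rw [mem_filter, mem_Cy]
      refine ⟨⟨swap_mul_mem_Om h1 hbJ hzJ, ?_⟩, ?_⟩
      · rw [Equiv.Perm.mul_apply, h2, Equiv.swap_apply_left]
      · rw [Equiv.Perm.mul_apply, h3, Equiv.swap_apply_of_ne_of_ne hbl.ne' hzl.ne']
    · intro σ hσ
      rw [mem_filter, mem_Cy] at hσ
      obtain ⟨⟨h1, h2⟩, h3⟩ := hσ
      rw [hP, mem_filter, mem_Cy]
      refine ⟨⟨swap_mul_mem_Om h1 hzJ hbJ, ?_⟩, ?_⟩
      · rw [Equiv.Perm.mul_apply, h2, Equiv.swap_apply_left]
      · rw [Equiv.Perm.mul_apply, h3, Equiv.swap_apply_of_ne_of_ne hzl.ne' hbl.ne']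
    · intro σ _
      rw [← mul_assoc, Equiv.swap_comm z b, Equiv.swap_mul_self, one_mul]
    · intro σ _
      rw [← mul_assoc, Equiv.swap_comm z b, Equiv.swap_mul_self, one_mul]
    · intro σ hσ
      obtain ⟨_, h2, _, h4, _⟩ := hPm σ hσ
      rw [B2_wt hbz h2 (Equiv.apply_symm_apply σ z) h4 hbI]
  have hL : Xs t I ρ z f b l - Xs t I ρ z f z l
      = ∑ σ ∈ P, wt t ((I.erase b).erase l) σ * (f σ - f (swap b z * σ)) := by
    rw [hX]
    unfold Xs
    rw [← hP, ← Finset.sum_sub_distrib]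
    apply Finset.sum_congr rfl
    intro σ _
    ring
  have hW : ∀ s ∈ Cy I ρ z b, 0 ≤ wt t ((I.erase b).erase l) s * (f s - f (swap b l * s)) :=
    fun s hs => mul_nonneg (wt_nonneg ht _ _) (gain_nonneg hf hz hbl hlJ hs)
  rw [hL, ← Finset.sum_filter_add_sum_filter_not P (fun σ => σ.symm z < l)]
  set F1 := P.filter (fun σ => σ.symm z < l) with hF1
  set F2 := P.filter (fun σ => ¬ σ.symm z < l) with hF2
  have s1 : ∑ σ ∈ F1, wt t ((I.erase b).erase l) σ * (f σ - f (swap b z * σ))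
      ≤ ∑ σ ∈ F1, wt t ((I.erase b).erase l) σ * (f σ - f (swap b l * σ)) := by
    apply Finset.sum_le_sum
    intro σ hσ
    rw [hF1, mem_filter] at hσ
    obtain ⟨_, h2, h3, h4, _⟩ := hPm σ hσ.1
    exact B2_termA ht hf hbz h2 h3 (Equiv.apply_symm_apply σ z) h4 hσ.2
  have s2 : ∑ σ ∈ F2, wt t ((I.erase b).erase l) σ * (f σ - f (swap b z * σ))
      ≤ ∑ σ ∈ F2, wt t ((I.erase b).erase l) (swap l z * σ)
        * (f (swap l z * σ) - f (swap b l * (swap l z * σ))) := by
    apply Finset.sum_le_sum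
    intro σ hσ
    rw [hF2, mem_filter] at hσ
    obtain ⟨_, h2, h3, _, h5⟩ := hPm σ hσ.1
    exact B2_termB ht hf hbz hzl h2 h3 (Equiv.apply_symm_apply σ z)
      (lt_of_le_of_ne (not_lt.1 hσ.2) h5.symm)
  have s3 : ∑ σ ∈ F2, wt t ((I.erase b).erase l) (swap l z * σ)
        * (f (swap l z * σ) - f (swap b l * (swap l z * σ)))
      = ∑ s ∈ F2.image (fun σ => swap l z * σ), wt t ((I.erase b).erase l) s
        * (f s - f (swap b l * s)) := by
    rw [Finset.sum_image]
    intro x _ y _ hxy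
    exact mul_left_cancel hxy
  have hdis : Disjoint F1 (F2.image (fun σ => swap l z * σ)) := by
    rw [Finset.disjoint_left]
    intro s hs hs'
    rw [mem_image] at hs'
    obtain ⟨σ, hσ, rfl⟩ := hs'
    rw [hF1, mem_filter] at hs
    rw [hF2, mem_filter] at hσ
    obtain ⟨_, _, h3, _, _⟩ := hPm _ hs.1
    obtain ⟨_, _, h3', _, _⟩ := hPm _ hσ.1
    rw [Equiv.Perm.mul_apply, h3', Equiv.swap_apply_left] at h3
    exact hzl.ne h3
  refine (add_le_add s1 s2).trans ?_
  rw [s3, ← Finset.sum_union hdis]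
  unfold gs
  apply Finset.sum_le_sum_of_subset_of_nonneg
  · intro s hs
    rw [mem_union] at hs
    rcases hs with hs | hs
    · rw [hF1, mem_filter, hP, mem_filter] at hs
      exact hs.1.1
    · rw [mem_image] at hs
      obtain ⟨σ, hσ, rfl⟩ := hs
      rw [hF2, mem_filter] at hσ
      obtain ⟨h1, h2, _, _, _⟩ := hPm _ hσ.1
      rw [mem_Cy]
      refine ⟨swap_mul_mem_Om h1 hlJ hzJ, ?_⟩
      rw [Equiv.Perm.mul_apply, h2, Equiv.swap_apply_of_ne_of_ne hbl.ne hbz.ne]
  · intro s hs _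
    exact hW s hs

end FixPA
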