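import Mathlib

/-!
Definitions for the fixed point weighted measure on the symmetric group:
strong up-sets, the weight `q ^ (n - f(a))` and the probability of a family.
-/

namespace Pool.Agent.H.MP_f011a7_co

open Equiv Finset

/-- A strong up-set: `a : Perm (Fin n)` is the tuple `(a 0, ..., a (n-1))`, the position of the
entry `i` is `a.symm i`; if `i < j` and `i` stands after `j`, then exchanging the entries
`i` and `j` stays in the family. -/
def StrongUpset {n : ℕ} (A : Set (Perm (Fin n))) : Prop :=
  ∀ a ∈ A, ∀ i j : Fin n, i < j → a.symm j < a.symm i → swap i j * a ∈ A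

/-- The number of `k` with `a k = k`. -/
def fixCount {n : ℕ} (a : Perm (Fin n)) : ℕ := (univ.filter fun k => a k = k).card

open Classical in
/-- The sum of `q ^ (n - f(a))` over the members `a` of `A`. -/
noncomputable def mass (n : ℕ) (q : ℝ) (A : Set (Perm (Fin n))) : ℝ :=
  ∑ a ∈ univ.filter (fun a => a ∈ A), q ^ (n - fixCount a)

/-- The probability of `A` under the fixed point weighted measure. -/
noncomputable def mu (n : ℕ) (q : ℝ) (A : Set (Perm (Fin n))) : ℝ :=
  mass n q A / mass n q Set.univ

end Pool.Agent.H.MP_f011a7_co
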