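import Pool.Agent.H.MP_f011a7_co.Small

namespace Pool.Agent.H.MP_f011a7_co

open Equiv Finset

variable {n : ℕ}

/-- Insert a last position carrying the value `v`; the other entries keep their relative order. -/
def ins (v : Fin (n + 1)) (a : Perm (Fin n)) : Perm (Fin (n + 1)) :=
  finSuccEquivLast.trans ((optionCongr a).trans (finSuccEquiv' v).symm)

lemma ins_last (v : Fin (n + 1)) (a : Perm (Fin n)) : ins v a (Fin.last n) = v := by
  simp [ins]

lemma ins_castSucc (v : Fin (n + 1)) (a : Perm (Fin n)) (i : Fin n) :
    ins v a i.castSucc = v.succAbove (a i) := by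
  simp [ins]

lemma ins_injective : Function.Injective
    (fun p : Fin (n + 1) × Perm (Fin n) => ins p.1 p.2) := by
  rintro ⟨v, a⟩ ⟨w, b⟩ h
  simp only at h
  have h1 : v = w := by
    rw [← ins_last v a, ← ins_last w b, h]
  subst h1
  have h2 : a = b := by
    ext i
    have := congrArg (fun c : Perm (Fin (n + 1)) => c i.castSucc) h
    simp only [ins_castSucc] at this
    rw [Fin.succAbove_right_injective this]
  rw [h2]

lemma ins_bijective : Function.Bijective
    (fun p : Fin (n + 1) × Perm (Fin n) => ins p.1 p.2) := by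
  rw [Fintype.bijective_iff_injective_and_card]
  refine ⟨ins_injective, ?_⟩
  rw [Fintype.card_prod, Fintype.card_perm, Fintype.card_perm, Fintype.card_fin, Fintype.card_fin,
    Nat.factorial_succ]

/-- The sections of a family. -/
def sec (A : Set (Perm (Fin (n + 1)))) (v : Fin (n + 1)) : Set (Perm (Fin n)) :=
  {a | ins v a ∈ A}

open Classical in
/-- The number of members. -/
noncomputable def num (A : Set (Perm (Fin n))) : ℕ := (univ.filter fun a => a ∈ A).card

lemma num_eq (A : Set (Perm (Fin n))) [DecidablePred (· ∈ A)] :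
    num A = (univ.filter fun a => a ∈ A).card := by
  unfold num
  congr

lemma num_succ (A : Set (Perm (Fin (n + 1)))) : num A = ∑ v, num (sec A v) := by
  classical
  simp only [num_eq, Finset.card_filter]
  rw [← Finset.sum_product' (univ : Finset (Fin (n + 1))) (univ : Finset (Perm (Fin n)))
    (fun v a => if a ∈ sec A v then 1 else 0)]
  rw [Finset.univ_product_univ]
  rw [← (Equiv.ofBijective _ (ins_bijective (n := n))).sum_comp]
  rfl

lemma sec_inter (A B : Set (Perm (Fin (n + 1)))) (v : Fin (n + 1)) :
    sec (A ∩ B) v = sec A v ∩ sec B v := rfl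

lemma num_mono {A B : Set (Perm (Fin n))} (h : A ⊆ B) : num A ≤ num B := by
  classical
  rw [num_eq, num_eq]
  apply Finset.card_le_card
  intro a ha
  simp only [mem_filter, mem_univ, true_and] at ha ⊢
  exact h ha

lemma eq_of_num {A B : Set (Perm (Fin n))} (h : A ⊆ B) (h2 : num B ≤ num A) : A = B := by
  classical
  rw [num_eq, num_eq] at h2
  have := Finset.eq_of_subset_of_card_le (s := univ.filter fun a => a ∈ A)
    (t := univ.filter fun a => a ∈ B) (by
      intro a ha
      simp only [mem_filter, mem_univ, true_and] at ha ⊢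
      exact h ha) h2
  ext a
  have h3 := congrArg (fun s => a ∈ s) this
  simpa using h3

lemma ins_symm_succAbove (v : Fin (n + 1)) (a : Perm (Fin n)) (i : Fin n) :
    (ins v a).symm (v.succAbove i) = (a.symm i).castSucc := by
  rw [Equiv.symm_apply_eq, ins_castSucc]
  simp

lemma ins_symm_self (v : Fin (n + 1)) (a : Perm (Fin n)) :
    (ins v a).symm v = Fin.last n := by
  rw [Equiv.symm_apply_eq, ins_last]

lemma ins_swap (v : Fin (n + 1)) (a : Perm (Fin n)) (i j : Fin n) :
    swap (v.succAbove i) (v.succAbove j) * ins v a = ins v (swap i j * a) := by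
  apply Equiv.ext
  intro k
  rw [Perm.mul_apply]
  refine Fin.lastCases ?_ (fun k => ?_) k
  · rw [ins_last, ins_last, swap_apply_of_ne_of_ne (Fin.succAbove_ne v i).symm
      (Fin.succAbove_ne v j).symm]
  · rw [ins_castSucc, ins_castSucc, Perm.mul_apply]
    by_cases h1 : a k = i
    · rw [h1, swap_apply_left, swap_apply_left]
    · by_cases h2 : a k = j
      · rw [h2, swap_apply_right, swap_apply_right]
      · rw [swap_apply_of_ne_of_ne h1 h2, swap_apply_of_ne_of_ne]
        · exact fun h => h1 (Fin.succAbove_right_injective h)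
        · exact fun h => h2 (Fin.succAbove_right_injective h)

lemma sec_upset {A : Set (Perm (Fin (n + 1)))} (hA : StrongUpset A) (v : Fin (n + 1)) :
    StrongUpset (sec A v) := by
  intro a ha i j hij hpos
  have := hA _ ha (v.succAbove i) (v.succAbove j) (by simpa using hij) (by
    rw [ins_symm_succAbove, ins_symm_succAbove]; simpa using hpos)
  rw [ins_swap] at this
  exact this

/-- Exchanging `v` (last entry) and `v + 1`. -/
lemma swap_ins_succ (v : Fin n) (a : Perm (Fin n)) :
    swap v.castSucc v.succ * ins v.castSucc a = ins v.succ a := by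
  apply Equiv.ext
  intro k
  rw [Perm.mul_apply]
  refine Fin.lastCases ?_ (fun k => ?_) k
  · rw [ins_last, ins_last, swap_apply_left]
  · rw [ins_castSucc, ins_castSucc]
    rcases lt_trichotomy (a k) v with h | h | h
    · have e1 : v.castSucc.succAbove (a k) = (a k).castSucc :=
        Fin.succAbove_of_castSucc_lt _ _ (by simpa using h)
      have e2 : v.succ.succAbove (a k) = (a k).castSucc :=
        Fin.succAbove_of_castSucc_lt _ _ (by
          rw [Fin.lt_def] at h ⊢; simp; omega)
      rw [e1, e2, swap_apply_of_ne_of_ne]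
      · intro h'; rw [Fin.castSucc_inj] at h'; exact h.ne h'
      · intro h'
        have := congrArg Fin.val h'
        rw [Fin.lt_def] at h
        simp at this; omega
    · rw [h]
      have e1 : v.castSucc.succAbove v = v.succ := Fin.succAbove_of_le_castSucc _ _ le_rfl
      have e2 : v.succ.succAbove v = v.castSucc := Fin.succAbove_of_castSucc_lt _ _ (by
          rw [Fin.lt_def]; simp)
      rw [e1, e2, swap_apply_right]
    · have e1 : v.castSucc.succAbove (a k) = (a k).succ :=
        Fin.succAbove_of_le_castSucc _ _ (by simpa using h.le)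
      have e2 : v.succ.succAbove (a k) = (a k).succ :=
        Fin.succAbove_of_le_castSucc _ _ (by
          rw [Fin.lt_def] at h; rw [Fin.le_def]; simp; omega)
      rw [e1, e2, swap_apply_of_ne_of_ne]
      · intro h'
        have := congrArg Fin.val h'
        rw [Fin.lt_def] at h
        simp at this; omega
      · intro h'; rw [Fin.succ_inj] at h'; exact h.ne' h'

lemma sec_le_succ {A : Set (Perm (Fin (n + 1)))} (hA : StrongUpset A) (v : Fin n) :
    sec A v.castSucc ⊆ sec A v.succ := by
  intro a ha
  have h1 := hA _ ha v.castSucc v.succ (by rw [Fin.lt_def]; simp) (by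
    rw [ins_symm_self]
    have : v.succ = v.castSucc.succAbove v := (Fin.succAbove_of_le_castSucc _ _ le_rfl).symm
    rw [this, ins_symm_succAbove]
    exact Fin.castSucc_lt_last _)
  rw [swap_ins_succ] at h1
  exact h1

lemma sec_mono {A : Set (Perm (Fin (n + 1)))} (hA : StrongUpset A) : Monotone (sec A) :=
  Fin.monotone_iff_le_succ.mpr fun v => sec_le_succ hA v

lemma num_le (A : Set (Perm (Fin n))) : num A ≤ n.factorial := by
  classical
  rw [num_eq]
  have := Finset.card_le_univ (univ.filter (fun a : Perm (Fin n) => a ∈ A))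
  rwa [Fintype.card_perm, Fintype.card_fin] at this

lemma num_empty : num (∅ : Set (Perm (Fin n))) = 0 := by
  classical
  rw [num_eq]; simp

lemma num_univ : num (Set.univ : Set (Perm (Fin n))) = n.factorial := by
  classical
  rw [num_eq]; simp [Fintype.card_perm]

/-- The uniform measure is positively associated. -/
theorem uniform_pa : ∀ (n : ℕ) (A B : Set (Perm (Fin n))), StrongUpset A → StrongUpset B →
    num A * num B ≤ n.factorial * num (A ∩ B) := by
  intro n
  induction n with
  | zero =>
    intro A B _ _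
    by_cases h1 : (1 : Perm (Fin 0)) ∈ A
    · have hA : A = Set.univ := by
        ext a; simp only [Set.mem_univ, iff_true]; rwa [Subsingleton.elim a 1]
      subst hA
      rw [num_univ, Set.univ_inter]
    · have hA : A = ∅ := by
        rw [Set.eq_empty_iff_forall_notMem]; intro a ha; rw [Subsingleton.elim a 1] at ha
        exact h1 ha
      subst hA
      rw [num_empty, zero_mul]; exact Nat.zero_le _
  | succ n ih =>
    intro A B hA hB
    have hmv : Monovary (fun v => num (sec A v)) (fun v => num (sec B v)) := by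
      intro v w h
      have : v < w := by
        by_contra hcon
        exact absurd (num_mono (sec_mono hB (not_lt.mp hcon))) (not_le.mpr h)
      exact num_mono (sec_mono hA this.le)
    have h1 := hmv.sum_mul_sum_le_card_mul_sum
    rw [Fintype.card_fin] at h1
    have h2 : ∑ v, num (sec A v) * num (sec B v) ≤
        ∑ v : Fin (n + 1), n.factorial * num (sec (A ∩ B) v) :=
      Finset.sum_le_sum fun v _ => ih _ _ (sec_upset hA v) (sec_upset hB v)
    rw [num_succ A, num_succ B, num_succ (A ∩ B), Nat.factorial_succ, mul_assoc]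
    calc (∑ v, num (sec A v)) * ∑ v, num (sec B v)
        ≤ (n + 1) * ∑ v, num (sec A v) * num (sec B v) := by exact_mod_cast h1
      _ ≤ (n + 1) * ∑ v, n.factorial * num (sec (A ∩ B) v) := Nat.mul_le_mul_left _ h2
      _ = _ := by rw [← Finset.mul_sum]

/-- Strict form of the Chebyshev inequality. -/
lemma cheb_strict (f g : Fin (n + 1) → ℕ) (hf : Monotone f) (hg : Monotone g)
    (hf1 : f 0 < f (Fin.last n)) (hg1 : g 0 < g (Fin.last n)) :
    (∑ v, f v) * (∑ v, g v) + 1 ≤ (n + 1) * ∑ v, f v * g v := by
  have hne : (0 : Fin (n + 1)) ≠ Fin.last n := by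
    intro h; rw [← h] at hf1; exact lt_irrefl _ hf1
  set T : Fin (n + 1) → Fin (n + 1) → ℤ := fun v w => ((f v : ℤ) - f w) * ((g v : ℤ) - g w) with hT
  have hT0 : ∀ v w, 0 ≤ T v w := by
    intro v w
    rcases le_total v w with h | h
    · have h1 : (f v : ℤ) ≤ f w := by exact_mod_cast hf h
      have h2 : (g v : ℤ) ≤ g w := by exact_mod_cast hg h
      exact mul_nonneg_of_nonpos_of_nonpos (by linarith) (by linarith)
    · have h1 : (f w : ℤ) ≤ f v := by exact_mod_cast hf h
      have h2 : (g w : ℤ) ≤ g v := by exact_mod_cast hg h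
      exact mul_nonneg (by linarith) (by linarith)
  have hf1' : (f 0 : ℤ) + 1 ≤ f (Fin.last n) := by exact_mod_cast hf1
  have hg1' : (g 0 : ℤ) + 1 ≤ g (Fin.last n) := by exact_mod_cast hg1
  have e1 : 1 ≤ T 0 (Fin.last n) := by
    simp only [hT]; nlinarith
  have e2 : 1 ≤ T (Fin.last n) 0 := by
    simp only [hT]; nlinarith
  have hsum : ∑ v, ∑ w, T v w = 2 * ((n + 1 : ℤ) * ∑ v, (f v : ℤ) * g v
      - (∑ v, (f v : ℤ)) * (∑ v, (g v : ℤ))) := by
    have : ∀ v w, T v w = (f v : ℤ) * g v - f v * g w - f w * g v + f w * g w := by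
      intro v w; simp only [hT]; ring
    simp only [this, Finset.sum_add_distrib, Finset.sum_sub_distrib, Finset.sum_const,
      Finset.card_univ, Fintype.card_fin, nsmul_eq_mul, ← Finset.mul_sum, ← Finset.sum_mul]
    push_cast
    ring
  have hge : (2 : ℤ) ≤ ∑ v, ∑ w, T v w := by
    have h0 : T 0 (Fin.last n) ≤ ∑ w, T 0 w :=
      Finset.single_le_sum (f := fun w => T 0 w) (fun w _ => hT0 0 w) (mem_univ _)
    have h1 : T (Fin.last n) 0 ≤ ∑ w, T (Fin.last n) w :=
      Finset.single_le_sum (f := fun w => T (Fin.last n) w) (fun w _ => hT0 _ w) (mem_univ _)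
    have h2 : ∑ v ∈ {0, Fin.last n}, ∑ w, T v w ≤ ∑ v, ∑ w, T v w :=
      Finset.sum_le_sum_of_subset_of_nonneg (Finset.subset_univ _)
        (fun v _ _ => Finset.sum_nonneg fun w _ => hT0 v w)
    rw [Finset.sum_pair hne] at h2
    linarith
  have hfin : (∑ v, (f v : ℤ)) * (∑ v, (g v : ℤ)) + 1 ≤ (n + 1 : ℤ) * ∑ v, (f v : ℤ) * g v := by
    linarith
  exact_mod_cast hfin

lemma ins_surj (b : Perm (Fin (n + 1))) : ∃ v a, ins v a = b := by
  obtain ⟨⟨v, a⟩, h⟩ := ins_bijective.2 b
  exact ⟨v, a, h⟩

/-- Exchanging the values `u - 1` (last entry) and `u + 1`. -/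
lemma swap_ins_two {m : ℕ} (i : Fin m) (a : Perm (Fin (m + 1))) :
    swap i.castSucc.castSucc i.succ.succ * ins i.castSucc.castSucc a
      = ins i.succ.succ (swap i.castSucc i.succ * a) := by
  apply Equiv.ext
  intro k
  rw [Perm.mul_apply]
  refine Fin.lastCases ?_ (fun k => ?_) k
  · rw [ins_last, ins_last, swap_apply_left]
  · rw [ins_castSucc, ins_castSucc, Perm.mul_apply]
    generalize a k = x
    simp only [swap_apply_def, Fin.succAbove, Fin.lt_def, Fin.ext_iff, Fin.val_castSucc,
      Fin.val_succ]
    split_ifs <;> simp_all <;> omega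

/-- If the first and the last section have the same size, the up-set is trivial. -/
lemma trivial_of_sec {A : Set (Perm (Fin (n + 1)))} (hA : StrongUpset A)
    (h : num (sec A (Fin.last n)) ≤ num (sec A 0)) : A = ∅ ∨ A = Set.univ := by
  have hall : ∀ v, sec A v = sec A 0 := by
    intro v
    have h1 : sec A 0 ⊆ sec A v := sec_mono hA (Fin.zero_le v)
    have h2 : sec A v ⊆ sec A (Fin.last n) := sec_mono hA (Fin.le_last v)
    exact (eq_of_num h1 ((num_mono h2).trans h)).symm
  have htriv : sec A 0 = ∅ ∨ sec A 0 = Set.univ := by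
    by_cases hne : (sec A 0).Nonempty
    · right
      obtain ⟨a, ha⟩ := hne
      rcases n with _ | m
      · ext b
        simp only [Set.mem_univ, iff_true]
        rwa [Subsingleton.elim b a]
      · have hstep : ∀ (i : Fin m) (a : Perm (Fin (m + 1))), a ∈ sec A 0 →
            swap i.castSucc i.succ * a ∈ sec A 0 := by
          intro i a ha
          have ha' : a ∈ sec A i.castSucc.castSucc := by rw [hall]; exact ha
          have h1 := hA _ ha' i.castSucc.castSucc i.succ.succ
            (by rw [Fin.lt_def]; simp) (by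
              rw [ins_symm_self]
              have : i.succ.succ = i.castSucc.castSucc.succAbove i.succ :=
                (Fin.succAbove_of_le_castSucc _ _ (by rw [Fin.le_def]; simp)).symm
              rw [this, ins_symm_succAbove]
              exact Fin.castSucc_lt_last _)
          rw [swap_ins_two] at h1
          rw [← hall i.succ.succ]
          exact h1
        have hgen : ∀ g : Perm (Fin (m + 1)), ∀ a ∈ sec A 0, g * a ∈ sec A 0 := by
          intro g
          have hg : g ∈ Submonoid.closure
              (Set.range fun i : Fin m => swap i.castSucc i.succ) := by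
            rw [Equiv.Perm.mclosure_swap_castSucc_succ]; trivial
          induction hg using Submonoid.closure_induction with
          | mem x hx =>
            obtain ⟨i, rfl⟩ := hx
            exact fun a ha => hstep i a ha
          | one => intro a ha; simpa using ha
          | mul x y _ _ hx hy =>
            intro a ha
            rw [mul_assoc]
            exact hx _ (hy _ ha)
        ext b
        simp only [Set.mem_univ, iff_true]
        have := hgen (b * a⁻¹) a ha
        simpa using this
    · left
      exact Set.not_nonempty_iff_eq_empty.mp hne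
  rcases htriv with h0 | h0
  · left
    rw [Set.eq_empty_iff_forall_notMem]
    intro b hb
    obtain ⟨v, a, rfl⟩ := ins_surj b
    have : a ∈ sec A v := hb
    rw [hall, h0] at this
    exact this
  · right
    ext b
    simp only [Set.mem_univ, iff_true]
    obtain ⟨v, a, rfl⟩ := ins_surj b
    have : a ∈ sec A v := by rw [hall, h0]; trivial
    exact this

/-- Strict positive association of the uniform measure. -/
theorem uniform_strict {n : ℕ} {A B : Set (Perm (Fin n))} (hA : StrongUpset A)
    (hB : StrongUpset B) (hA0 : A ≠ ∅) (hA1 : A ≠ Set.univ) (hB0 : B ≠ ∅) (hB1 : B ≠ Set.univ) :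
    num A * num B + 1 ≤ n.factorial * num (A ∩ B) := by
  rcases n with _ | n
  · exfalso
    by_cases h1 : (1 : Perm (Fin 0)) ∈ A
    · apply hA1
      ext a; simp only [Set.mem_univ, iff_true]; rwa [Subsingleton.elim a 1]
    · apply hA0
      rw [Set.eq_empty_iff_forall_notMem]; intro a ha; rw [Subsingleton.elim a 1] at ha
      exact h1 ha
  · have hf1 : num (sec A 0) < num (sec A (Fin.last n)) := by
      by_contra h
      rcases trivial_of_sec hA (not_lt.mp h) with h | h
      · exact hA0 h
      · exact hA1 h
    have hg1 : num (sec B 0) < num (sec B (Fin.last n)) := by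
      by_contra h
      rcases trivial_of_sec hB (not_lt.mp h) with h | h
      · exact hB0 h
      · exact hB1 h
    have h1 := cheb_strict (fun v => num (sec A v)) (fun v => num (sec B v))
      (fun v w h => num_mono (sec_mono hA h)) (fun v w h => num_mono (sec_mono hB h)) hf1 hg1
    have h2 : ∑ v, num (sec A v) * num (sec B v) ≤
        ∑ v : Fin (n + 1), n.factorial * num (sec (A ∩ B) v) :=
      Finset.sum_le_sum fun v _ => uniform_pa n _ _ (sec_upset hA v) (sec_upset hB v)
    rw [num_succ A, num_succ B, num_succ (A ∩ B), Nat.factorial_succ, mul_assoc]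
    calc (∑ v, num (sec A v)) * (∑ v, num (sec B v)) + 1
        ≤ (n + 1) * ∑ v, num (sec A v) * num (sec B v) := h1
      _ ≤ (n + 1) * ∑ v, n.factorial * num (sec (A ∩ B) v) := Nat.mul_le_mul_left _ h2
      _ = _ := by rw [← Finset.mul_sum]

lemma mass_ge_num {q : ℝ} (hq : 0 ≤ q) (hq1 : q ≤ 1) (A : Set (Perm (Fin n))) :
    q ^ n * num A ≤ mass n q A := by
  classical
  rw [mass_eq, num_eq, mul_comm, ← nsmul_eq_mul, ← Finset.sum_const]
  exact Finset.sum_le_sum fun a _ => pow_le_pow_of_le_one hq hq1 (cost_le a)

lemma mass_le_num {q : ℝ} (hq : 0 ≤ q) (hq1 : q ≤ 1) (A : Set (Perm (Fin n))) :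
    mass n q A ≤ num A := by
  classical
  rw [mass_eq, num_eq, ← nsmul_one, ← Finset.sum_const]
  exact Finset.sum_le_sum fun a _ => pow_le_one₀ hq hq1

/-- The high temperature regime. -/
theorem near_one {q : ℝ} (hq : 0 < q) (hq1 : q < 1)
    (hnear : 1 - 1 / (2 * n * (n.factorial : ℝ) ^ 2) ≤ q)
    {A B : Set (Perm (Fin n))} (hA : StrongUpset A) (hB : StrongUpset B) :
    mu n q A * mu n q B ≤ mu n q (A ∩ B) := by
  classical
  rw [mu_le_iff hq.le]
  by_cases hA0 : A = ∅
  · subst hA0
    have : mass n q (∅ : Set (Perm (Fin n))) = 0 := by rw [mass_eq]; simp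
    rw [this, zero_mul]
    exact mul_nonneg (mass_nonneg hq.le _) (mass_nonneg hq.le _)
  by_cases hB0 : B = ∅
  · subst hB0
    have : mass n q (∅ : Set (Perm (Fin n))) = 0 := by rw [mass_eq]; simp
    rw [this, mul_zero]
    exact mul_nonneg (mass_nonneg hq.le _) (mass_nonneg hq.le _)
  by_cases hA1 : A = Set.univ
  · subst hA1
    rw [Set.univ_inter, mul_comm]
  by_cases hB1 : B = Set.univ
  · subst hB1
    rw [Set.inter_univ]
  have hstrict := uniform_strict hA hB hA0 hA1 hB0 hB1
  have hn : 0 < n := by
    rcases Nat.eq_zero_or_pos n with h | h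
    · subst h
      norm_num at hnear
      linarith
    · exact h
  have hnr : (0 : ℝ) < n := by exact_mod_cast hn
  have hfr : (0 : ℝ) < (n.factorial : ℝ) := by exact_mod_cast Nat.factorial_pos n
  have hqn : q ^ n ≤ 1 := pow_le_one₀ hq.le hq1.le
  have hqn0 : 0 ≤ q ^ n := pow_nonneg hq.le _
  -- Bernoulli
  have hbern : 1 - 2 * n * (1 - q) ≤ q ^ n * q ^ n := by
    have := one_add_mul_le_pow (a := q - 1) (by linarith) (2 * n)
    rw [← pow_add]
    have e : n + n = 2 * n := by ring
    rw [e]
    push_cast at this
    have e2 : 1 + (q - 1) = q := by ring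
    rw [e2] at this
    linarith
  have hAB : ((num A : ℝ) * num B + 1) ≤ (n.factorial : ℝ) * num (A ∩ B) := by exact_mod_cast hstrict
  have hAn : (num A : ℝ) ≤ (n.factorial : ℝ) := by exact_mod_cast num_le A
  have hBn : (num B : ℝ) ≤ (n.factorial : ℝ) := by exact_mod_cast num_le B
  have hAB2 : (num A : ℝ) * num B + 1 ≤ (n.factorial : ℝ) ^ 2 := by
    have : (n.factorial : ℝ) * num (A ∩ B) ≤ (n.factorial : ℝ) * (n.factorial : ℝ) := by
      apply mul_le_mul_of_nonneg_left _ hfr.le
      exact_mod_cast num_le (A ∩ B)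
    nlinarith
  have hx : 2 * n * (1 - q) * ((num A : ℝ) * num B + 1) ≤ 1 := by
    have h1 : (1 - q) ≤ 1 / (2 * n * (n.factorial : ℝ) ^ 2) := by linarith
    have h2 : 2 * n * (1 - q) * ((num A : ℝ) * num B + 1) ≤
        2 * n * (1 - q) * (n.factorial : ℝ) ^ 2 := by
      apply mul_le_mul_of_nonneg_left hAB2
      have : 0 ≤ 1 - q := by linarith
      positivity
    rw [le_div_iff₀ (by positivity)] at h1
    nlinarith
  have l1 : mass n q A * mass n q B ≤ (num A : ℝ) * num B :=
    mul_le_mul (mass_le_num hq.le hq1.le A) (mass_le_num hq.le hq1.le B) (mass_nonneg hq.le _)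
      (by positivity)
  have l2 : (q ^ n * num (A ∩ B)) * (q ^ n * (n.factorial : ℝ)) ≤
      mass n q (A ∩ B) * mass n q Set.univ := by
    apply mul_le_mul (mass_ge_num hq.le hq1.le _) _ (by positivity) (mass_nonneg hq.le _)
    have := mass_ge_num (n := n) hq.le hq1.le Set.univ
    rwa [num_univ] at this
  calc mass n q A * mass n q B ≤ (num A : ℝ) * num B := l1
    _ ≤ (1 - 2 * n * (1 - q)) * ((num A : ℝ) * num B + 1) := by nlinarith
    _ ≤ (q ^ n * q ^ n) * ((num A : ℝ) * num B + 1) := by
        apply mul_le_mul_of_nonneg_right hbern (by positivity)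
    _ ≤ (q ^ n * q ^ n) * ((n.factorial : ℝ) * num (A ∩ B)) := by
        apply mul_le_mul_of_nonneg_left hAB (by positivity)
    _ = (q ^ n * num (A ∩ B)) * (q ^ n * (n.factorial : ℝ)) := by ring
    _ ≤ _ := l2

end Pool.Agent.H.MP_f011a7_co
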