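import Pool.Agent.H.MP_f011a7_co.A1

/-!
# MP_f011a7_co: partition functions and the algebra of `Rk`
-/

set_option autoImplicit false

namespace FixPA

open Finset Equiv

variable {n : ℕ}

/-! ### algebra -/

theorem Rk_pascal (t : ℝ) (N K : ℕ) :
    Rk t N (K + 1) = Rk t N K + (t - 1) * Rk t (N - 1) K := by
  unfold Rk
  have h0 : ∑ k ∈ range (K + 1), (K.choose (k + 1) : ℝ) * (t - 1) ^ (k + 1) *
        ((N - (k + 1)).factorial : ℝ) + (K.choose 0 : ℝ) * (t - 1) ^ 0 * ((N - 0).factorial : ℝ) =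
      ∑ k ∈ range (K + 1), (K.choose k : ℝ) * (t - 1) ^ k * ((N - k).factorial : ℝ) := by
    rw [← Finset.sum_range_succ' (fun k => (K.choose k : ℝ) * (t - 1) ^ k *
      ((N - k).factorial : ℝ)) (K + 1), Finset.sum_range_succ, Nat.choose_succ_self]
    simp
  rw [Finset.sum_range_succ' (fun k => ((K + 1).choose k : ℝ) * (t - 1) ^ k *
      ((N - k).factorial : ℝ)) (K + 1), Finset.mul_sum, ← h0]
  have h1 : ∀ k ∈ range (K + 1), ((K + 1).choose (k + 1) : ℝ) * (t - 1) ^ (k + 1) *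
        ((N - (k + 1)).factorial : ℝ) =
      (K.choose (k + 1) : ℝ) * (t - 1) ^ (k + 1) * ((N - (k + 1)).factorial : ℝ) +
        (t - 1) * ((K.choose k : ℝ) * (t - 1) ^ k * ((N - 1 - k).factorial : ℝ)) := by
    intro k _
    have h2 : N - 1 - k = N - (k + 1) := by omega
    rw [Nat.choose_succ_succ, h2, pow_succ]
    push_cast
    ring
  rw [Finset.sum_congr rfl h1, Finset.sum_add_distrib]
  simp only [Nat.choose_zero_right]
  ring

theorem Rk_row (t : ℝ) {N K : ℕ} (h : K + 1 ≤ N) :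
    Rk t N K = ((N : ℝ) - K) * Rk t (N - 1) K + K * Rk t (N - 1) (K - 1) := by
  have h1 : (K : ℝ) * Rk t (N - 1) (K - 1) = ∑ k ∈ range (K + 1),
      ((K : ℝ) - k) * ((K.choose k : ℝ) * (t - 1) ^ k * ((N - 1 - k).factorial : ℝ)) := by
    rcases K with _ | K
    · simp
    · rw [Finset.sum_range_succ, sub_self, zero_mul, add_zero, Nat.add_sub_cancel]
      unfold Rk
      rw [Finset.mul_sum]
      apply Finset.sum_congr rfl
      intro k hk
      have hk' : k ≤ K := Nat.lt_succ_iff.1 (Finset.mem_range.1 hk)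
      have h2 : (K + 1).choose k * (K + 1 - k) = (K + 1) * K.choose k := by
        have h3 := Nat.choose_mul_succ_eq K k
        rw [mul_comm (K.choose k)] at h3
        exact h3.symm
      have h4 : (((K + 1 - k : ℕ)) : ℝ) = ((K : ℝ) + 1) - k := by
        rw [Nat.cast_sub (by omega)]
        push_cast
        ring
      have h5 : ((K + 1).choose k : ℝ) * (((K : ℝ) + 1) - k) = ((K : ℝ) + 1) * (K.choose k : ℝ) := by
        rw [← h4]
        exact_mod_cast h2
      push_cast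
      linear_combination (-(t - 1) ^ k * ((N - 1 - k).factorial : ℝ)) * h5
  rw [h1]
  unfold Rk
  rw [Finset.mul_sum, ← Finset.sum_add_distrib]
  apply Finset.sum_congr rfl
  intro k hk
  have hk' : k ≤ K := Nat.lt_succ_iff.1 (Finset.mem_range.1 hk)
  have h2 : N - k = (N - 1 - k) + 1 := by omega
  have h3 : ((N - 1 - k : ℕ) : ℝ) + 1 = (N : ℝ) - k := by
    have h4 : (N - 1 - k : ℕ) + 1 + k = N := by omega
    have h5 : ((N - 1 - k : ℕ) : ℝ) + 1 + k = N := by exact_mod_cast h4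
    linarith
  rw [h2, Nat.factorial_succ]
  push_cast
  rw [h3]
  ring

theorem Rk_pos {t : ℝ} (ht : 1 ≤ t) (N K : ℕ) : 0 < Rk t N K := by
  unfold Rk
  have ht' : 0 ≤ t - 1 := by linarith
  refine Finset.sum_pos' (fun k _ => by positivity) ⟨0, by simp, ?_⟩
  simp only [Nat.choose_zero_right, Nat.cast_one, pow_zero, mul_one, one_mul, Nat.sub_zero]
  exact_mod_cast Nat.factorial_pos N

theorem Rk_le {t : ℝ} (ht : 1 ≤ t) (N K : ℕ) : Rk t N (K + 1) ≤ t * Rk t N K := by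
  rw [Rk_pascal]
  have ht' : 0 ≤ t - 1 := by linarith
  have h1 : Rk t (N - 1) K ≤ Rk t N K := by
    unfold Rk
    apply Finset.sum_le_sum
    intro k _
    apply mul_le_mul_of_nonneg_left _ (by positivity)
    exact_mod_cast Nat.factorial_le (by omega : N - 1 - k ≤ N - k)
  nlinarith [mul_le_mul_of_nonneg_left h1 ht']

/-! ### the partition function -/

theorem Z_wt_one (E : Finset (Fin n)) (σ : Equiv.Perm (Fin n)) : wt 1 E σ = 1 := by
  rw [wt_eq_pow, one_pow]

theorem Z_card_Om (I : Finset (Fin n)) (ρ : Equiv.Perm (Fin n)) :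
    Hs 1 I ρ (fun _ => 1) = (I.card.factorial : ℝ) := by
  induction I using Finset.strongInduction generalizing ρ with
  | _ I ih =>
    rcases I.eq_empty_or_nonempty with rfl | ⟨z, hz⟩
    · have h1 : Om (∅ : Finset (Fin n)) ρ = {ρ} := by
        ext σ
        rw [mem_Om, mem_singleton]
        constructor
        · intro h
          exact Equiv.ext fun i => h i (by simp)
        · rintro rfl i _
          rfl
      unfold Hs
      rw [h1]
      simp [Z_wt_one]
    · rw [Hs_eq hz]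
      have h1 : ∀ j ∈ I.image ρ, (if j = z then (1 : ℝ) else 1) * Hj 1 I ρ z (fun _ => 1) j =
          ((I.card - 1).factorial : ℝ) := by
        intro j hj
        obtain ⟨ρ', h2, h3⟩ := exists_mem_Cy hz hj
        rw [← h3, Hj_eq_Hs hz h2, ih (I.erase z) (Finset.erase_ssubset hz) ρ',
          card_erase_of_mem hz]
        simp
      rw [Finset.sum_congr rfl h1, Finset.sum_const, card_image_of_injective _ ρ.injective,
        nsmul_eq_mul]
      have h2 : 0 < I.card := card_pos.2 ⟨z, hz⟩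
      exact_mod_cast Nat.mul_factorial_pred h2.ne'

theorem Z_aux (t : ℝ) (E : Finset (Fin n)) : ∀ (I : Finset (Fin n)) (ρ : Equiv.Perm (Fin n)),
    E ⊆ I ∩ I.image ρ → ∑ σ ∈ Om I ρ, wt t E σ = Rk t I.card E.card := by
  induction E using Finset.induction_on with
  | empty =>
    intro I ρ _
    have h1 : ∑ σ ∈ Om I ρ, wt t (∅ : Finset (Fin n)) σ = Hs 1 I ρ (fun _ => 1) := by
      unfold Hs
      apply Finset.sum_congr rfl
      intro σ _
      rw [Z_wt_one, one_mul]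
      simp [wt]
    rw [h1, Z_card_Om, card_empty]
    simp [Rk]
  | insert l E' hl ih =>
    intro I ρ hE
    have hlI : l ∈ I := (mem_inter.1 (hE (mem_insert_self l E'))).1
    have hlJ : l ∈ I.image ρ := (mem_inter.1 (hE (mem_insert_self l E'))).2
    have hE' : E' ⊆ I ∩ I.image ρ := (subset_insert l E').trans hE
    obtain ⟨ρ', h2, h3⟩ := exists_mem_Cy hlI hlJ
    have h4 : E' ⊆ (I.erase l) ∩ (I.erase l).image ρ' := by
      intro i hi
      have hi' := mem_inter.1 (hE' hi)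
      have hil : i ≠ l := by
        rintro rfl
        exact hl hi
      rw [image_erase_of_Om h2, h3]
      exact mem_inter.2 ⟨mem_erase.2 ⟨hil, hi'.1⟩, mem_erase.2 ⟨hil, hi'.2⟩⟩
    have h5 := ih (I.erase l) ρ' h4
    rw [Om_erase h2 hlI, h3, card_erase_of_mem hlI] at h5
    rw [card_insert_of_notMem hl, Rk_pascal, ← ih I ρ hE', ← h5]
    unfold Cy
    rw [Finset.sum_filter, Finset.mul_sum, ← Finset.sum_add_distrib]
    apply Finset.sum_congr rfl
    intro σ _
    have h6 : wt t (insert l E') σ = (if σ l = l then t else 1) * wt t E' σ := by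
      unfold wt
      rw [Finset.prod_insert hl]
    rw [h6]
    by_cases h7 : σ l = l
    · rw [if_pos h7, if_pos h7]
      ring
    · rw [if_neg h7, if_neg h7]
      ring

theorem part_Om (t : ℝ) (I : Finset (Fin n)) (ρ : Equiv.Perm (Fin n)) :
    ∑ σ ∈ Om I ρ, wt t I σ = Rk t I.card (I ∩ I.image ρ).card := by
  rw [← Z_aux t (I ∩ I.image ρ) I ρ (Subset.refl _)]
  apply Finset.sum_congr rfl
  intro σ hσ
  apply wt_ext
  intro i
  rw [mem_inter]
  constructor
  · rintro ⟨h1, h2⟩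
    refine ⟨⟨h1, ?_⟩, h2⟩
    have h3 := (mem_image_of_Om hσ i).2 h1
    rwa [h2] at h3
  · rintro ⟨⟨h1, _⟩, h2⟩
    exact ⟨h1, h2⟩

theorem Z_Hj_one (t : ℝ) {I : Finset (Fin n)} {ρ : Equiv.Perm (Fin n)}
    {z : Fin n} (hzI : z ∈ I) {j : Fin n} (hj : j ∈ I.image ρ) :
    Hj t I ρ z (fun _ => 1) j = Rk t (I.card - 1) ((I.erase z) ∩ ((I.image ρ).erase j)).card := by
  obtain ⟨ρ', h2, h3⟩ := exists_mem_Cy hzI hj
  have h4 := Hj_eq_Hs (t := t) (f := fun _ => 1) hzI h2
  rw [h3] at h4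
  rw [h4]
  unfold Hs
  simp only [mul_one]
  rw [part_Om, card_erase_of_mem hzI, image_erase_of_Om h2, h3]

theorem Hj_one_Ol (t : ℝ) {I : Finset (Fin n)} {ρ : Equiv.Perm (Fin n)} (hc : Cls I ρ)
    {z : Fin n} (hzI : z ∈ I) (hz : ∀ i ∈ I, z ≤ i) {j : Fin n} (hj : j ∈ Ol I ρ z) :
    Hj t I ρ z (fun _ => 1) j = Rk t (I.card - 1) (Sp I ρ z).card := by
  rw [Z_Hj_one t hzI (mem_Ol.1 hj).1]
  congr 2
  ext i
  rw [mem_inter, mem_erase, mem_erase]
  constructor
  · rintro ⟨⟨h1, h2⟩, -, h3⟩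
    exact mem_Sp.2 ⟨h3, lt_of_le_of_ne (hz i h2) (Ne.symm h1)⟩
  · intro h
    have h' := mem_Sp.1 h
    refine ⟨⟨ne_of_gt h'.2, Sp_sub hc hzI h⟩, ?_, h'.1⟩
    exact ne_of_gt (lt_of_le_of_lt (mem_Ol.1 hj).2 h'.2)

theorem Hj_one_Sp (t : ℝ) {I : Finset (Fin n)} {ρ : Equiv.Perm (Fin n)} (hc : Cls I ρ)
    {z : Fin n} (hzI : z ∈ I) (hz : ∀ i ∈ I, z ≤ i) {j : Fin n} (hj : j ∈ Sp I ρ z) :
    Hj t I ρ z (fun _ => 1) j = Rk t (I.card - 1) ((Sp I ρ z).card - 1) := by
  rw [Z_Hj_one t hzI (mem_Sp.1 hj).1, ← card_erase_of_mem hj]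
  congr 2
  ext i
  rw [mem_inter, mem_erase, mem_erase, mem_erase]
  constructor
  · rintro ⟨⟨h1, h2⟩, h4, h3⟩
    exact ⟨h4, mem_Sp.2 ⟨h3, lt_of_le_of_ne (hz i h2) (Ne.symm h1)⟩⟩
  · rintro ⟨h4, h⟩
    have h' := mem_Sp.1 h
    exact ⟨⟨ne_of_gt h'.2, Sp_sub hc hzI h⟩, h4, h'.1⟩

end FixPA
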