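import Pool.Agent.H.MP_f011a7_co.S2a
import Pool.Agent.H.MP_f011a7_co.B1
import Pool.Agent.H.MP_f011a7_co.B2
import Pool.Agent.H.MP_f011a7_co.Z

/-!
# MP_f011a7_co: old columns against special columns
-/

set_option autoImplicit false

namespace FixPA

open Finset Equiv

variable {n : ℕ}

theorem Ol_sub_fix {I : Finset (Fin n)} {ρ ρ' : Equiv.Perm (Fin n)} (h : ρ' ∈ Om I ρ)
    {z l : Fin n} (hl : ρ' l = l) (hzl : z < l) : Ol (I.erase l) ρ' z = Ol I ρ z := by
  ext j
  rw [mem_Ol, mem_Ol, image_erase_of_Om h, hl, mem_erase]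
  constructor
  · rintro ⟨⟨_, h2⟩, h3⟩; exact ⟨h2, h3⟩
  · rintro ⟨h2, h3⟩; exact ⟨⟨ne_of_lt (lt_of_le_of_lt h3 hzl), h2⟩, h3⟩

theorem Sp_sub_fix {I : Finset (Fin n)} {ρ ρ' : Equiv.Perm (Fin n)} (h : ρ' ∈ Om I ρ)
    {z l : Fin n} (hl : ρ' l = l) : Sp (I.erase l) ρ' z = (Sp I ρ z).erase l := by
  ext j
  rw [mem_Sp, mem_erase, mem_Sp, image_erase_of_Om h, hl, mem_erase]
  tauto

/-- the arithmetic of the induction step -/
theorem S2_arith {τ s r X X2 W0 W1 A P Q U G HL HB Pg Zg M : ℝ} (hτ : 0 ≤ τ) (hX : 0 ≤ X)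
    (hA : 0 ≤ A) (hb : r * HB - A * HL = Pg + τ * P) (hc : HL ≤ Q + U + G)
    (hd : A * X * U ≤ (r - 1) * X2 * P) (he : A * G ≤ M * Pg)
    (hf : -(τ * Zg) ≤ s * P - A * Q) (hW0 : W0 = W1 + τ * X) (hW1 : W1 = s * X + (r - 1) * X2)
    (hg : τ ^ 2 * X * Zg ≤ (W1 - τ * X * M) * Pg) :
    W0 * (A * HL) ≤ W1 * (r * HB) := by
  have h1 : W1 * (r * HB) - W0 * (A * HL) = W1 * (Pg + τ * P) - τ * X * A * HL := by
    rw [hW0, ← hb]; ring
  have h2 : τ * X * A * HL ≤ τ * X * A * (Q + U + G) :=
    mul_le_mul_of_nonneg_left hc (by positivity)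
  have h3 : τ * (A * X * U) ≤ τ * ((r - 1) * X2 * P) := mul_le_mul_of_nonneg_left hd hτ
  have h4 : τ * X * (A * G) ≤ τ * X * (M * Pg) := mul_le_mul_of_nonneg_left he (by positivity)
  have h5 : τ * X * (-(τ * Zg)) ≤ τ * X * (s * P - A * Q) :=
    mul_le_mul_of_nonneg_left hf (by positivity)
  have h6 : W1 * (Pg + τ * P) = W1 * Pg + τ * P * (s * X + (r - 1) * X2) := by
    rw [hW1]; ring
  have h7 : 0 ≤ W1 * (r * HB) - W0 * (A * HL) := by
    rw [h1, h6]
    nlinarith [h2, h3, h4, h5, hg]
  linarith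

/-- the class of weights on the columns -/
noncomputable def al (t : ℝ) (z j : Fin n) : ℝ := if j = z then t else 1

theorem al_self (t : ℝ) (z : Fin n) : al t z z = t := if_pos rfl

theorem al_ne (t : ℝ) {z j : Fin n} (h : j ≠ z) : al t z j = 1 := if_neg h

theorem al_pos {t : ℝ} (ht : 1 ≤ t) (z j : Fin n) : 0 < al t z j := by
  unfold al; split_ifs <;> linarith

/-- comparison of the groups of columns (S2) -/
theorem main_S2 {t : ℝ} (ht1 : 1 ≤ t) (ht2 : t ≤ 2) {f : Equiv.Perm (Fin n) → ℝ} (hf : Mon f) :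
    ∀ (m : ℕ) (I : Finset (Fin n)) (ρ : Equiv.Perm (Fin n)), I.card = m → Cls I ρ →
      ∀ z ∈ I, (∀ i ∈ I, z ≤ i) →
      Rk t (I.card - 1) (Sp I ρ z).card *
          ((∑ b ∈ Ol I ρ z, al t z b) * ∑ l ∈ Sp I ρ z, Hj t I ρ z f l)
        ≤ Rk t (I.card - 1) ((Sp I ρ z).card - 1) *
          (((Sp I ρ z).card : ℝ) * ∑ b ∈ Ol I ρ z, al t z b * Hj t I ρ z f b) := by
  intro m
  induction m with
  | zero =>
    intro I ρ hI _ z hz
    rw [Finset.card_eq_zero] at hI
    rw [hI] at hz
    exact absurd hz (Finset.notMem_empty z)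
  | succ m ih =>
    intro I ρ hI hc z hzI hz
    have ht0 : (0 : ℝ) ≤ t := by linarith
    have hτ : (0 : ℝ) ≤ t - 1 := by linarith
    rcases Nat.eq_zero_or_pos (Sp I ρ z).card with hr0 | hrpos
    · rw [Finset.card_eq_zero] at hr0
      rw [hr0]
      simp
    -- names
    have hcard := card_Ol_add_Sp I ρ z
    have hSpsub : Sp I ρ z ⊆ I.erase z := by
      intro j hj
      exact mem_erase.2 ⟨ne_of_gt (mem_Sp.1 hj).2, Sp_sub hc hzI hj⟩
    have hSple : (Sp I ρ z).card ≤ m := by
      have := Finset.card_le_card hSpsub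
      rw [Finset.card_erase_of_mem hzI, hI] at this
      omega
    set O := Ol I ρ z with hO
    set S := Sp I ρ z with hS
    set J := I.image ρ with hJ
    have hOJ : ∀ b ∈ O, b ∈ J := fun b hb => (mem_Ol.1 hb).1
    have hSJ : ∀ b ∈ S, b ∈ J := fun b hb => (mem_Sp.1 hb).1
    have hOS : ∀ b ∈ O, ∀ l ∈ S, b < l := fun b hb l hl =>
      lt_of_le_of_lt (mem_Ol.1 hb).2 (mem_Sp.1 hl).2
    -- (1) the difference of an old and a special column
    have f1 : ∀ b ∈ O, ∀ l ∈ S, Hj t I ρ z f b - Hj t I ρ z f l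
        = gs t I ρ z f b l + (t - 1) * Xs t I ρ z f b l := by
      intro b hb l hl
      rw [Hj_sub (ne_of_lt (hOS b hb l hl)) (hOJ b hb) (hSJ l hl)]
      have : Xs t I ρ z f l b = 0 := by
        by_cases hbz : b = z
        · subst hbz
          exact Xs_eq_zero (hOJ _ hb) (Or.inr ⟨rfl, ne_of_gt (hOS _ hb l hl)⟩)
        · exact Xs_eq_zero (hOJ _ hb) (Or.inl (Ol_notMem hz hb hbz))
      rw [this, sub_zero]
    -- (2)
    have f2 : ∀ l ∈ S, Hj t I ρ z f l ≤ (∑ b ∈ O, Xs t I ρ z f b l)
        + (∑ u ∈ S.erase l, Xs t I ρ z f u l)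
        + ∑ u ∈ S.filter (fun u => l < u), Gs t I ρ z f l u := by
      intro l hl
      have h := Hj_le_Xs ht0 hf hc hzI hl
      have h2 : (I.image ρ).erase l = O ∪ S.erase l := by
        ext u
        rw [mem_erase, ← Ol_union_Sp I ρ z, mem_union, mem_union, mem_erase]
        constructor
        · rintro ⟨h3, h4 | h4⟩
          · exact Or.inl h4
          · exact Or.inr ⟨h3, h4⟩
        · rintro (h4 | ⟨h3, h4⟩)
          · exact ⟨ne_of_lt (hOS u h4 l hl), Or.inl h4⟩
          · exact ⟨h3, Or.inr h4⟩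
      rw [h2, Finset.sum_union] at h
      · exact h
      · exact Finset.disjoint_of_subset_right (Finset.erase_subset _ _) (Ol_disj_Sp I ρ z)
    -- (3) the induction hypothesis
    have f3 : ∀ l ∈ S, Rk t (I.card - 1 - 1) (S.card - 1) *
        ((∑ b ∈ O, al t z b) * ∑ u ∈ S.erase l, Xs t I ρ z f u l)
        ≤ Rk t (I.card - 1 - 1) (S.card - 1 - 1) *
          (((S.card : ℝ) - 1) * ∑ b ∈ O, al t z b * Xs t I ρ z f b l) := by
      intro l hl
      have hzl : z < l := (mem_Sp.1 hl).2
      have hlI : l ∈ I := Sp_sub hc hzI hl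
      obtain ⟨ρ', h1, h2⟩ := exists_mem_Cy (ρ := ρ) hlI (hSJ l hl)
      have h3 := ih (I.erase l) ρ' (by rw [Finset.card_erase_of_mem hlI, hI]; rfl)
        (hc.sub_fix h1 h2) z (mem_erase.2 ⟨ne_of_lt hzl, hzI⟩)
        (fun i hi => hz i (mem_of_mem_erase hi))
      rw [Ol_sub_fix h1 h2 hzl, Sp_sub_fix h1 h2, Finset.card_erase_of_mem hl,
        Finset.card_erase_of_mem hlI] at h3
      have h4 : ∀ u, Hj t (I.erase l) ρ' z f u = Xs t I ρ z f u l := fun u =>
        (Xs_eq_Hj hlI h1 h2).symm
      simp only [h4] at h3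
      rw [Nat.cast_sub hrpos, Nat.cast_one] at h3
      exact h3
    -- (4)
    obtain ⟨k, hk⟩ : ∃ k, S.card = k + 1 := ⟨S.card - 1, by omega⟩
    have hN : I.card - 1 = m := by omega
    have hW0 : Rk t (I.card - 1) S.card
        = Rk t (I.card - 1) (S.card - 1) + (t - 1) * Rk t (I.card - 1 - 1) (S.card - 1) := by
      rw [hk]; exact Rk_pascal t _ k
    have hW1 : Rk t (I.card - 1) (S.card - 1)
        = (O.card : ℝ) * Rk t (I.card - 1 - 1) (S.card - 1)
          + ((S.card : ℝ) - 1) * Rk t (I.card - 1 - 1) (S.card - 1 - 1) := by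
      have h1 : S.card - 1 + 1 ≤ I.card - 1 := by omega
      rw [Rk_row t h1]
      have h2 : ((I.card - 1 : ℕ) : ℝ) - ((S.card - 1 : ℕ) : ℝ) = (O.card : ℝ) := by
        rw [sub_eq_iff_eq_add, ← Nat.cast_add, Nat.cast_inj]
        omega
      rw [h2, Nat.cast_sub hrpos, Nat.cast_one]
    have hX : 0 < Rk t (I.card - 1 - 1) (S.card - 1) := Rk_pos ht1 _ _
    have hX2 : 0 < Rk t (I.card - 1 - 1) (S.card - 1 - 1) := Rk_pos ht1 _ _
    have hOpos : 1 ≤ O.card := by omega
    set A := ∑ b ∈ O, al t z b with hA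
    have hApos : 0 ≤ A := Finset.sum_nonneg fun b _ => (al_pos ht1 z b).le
    set X := Rk t (I.card - 1 - 1) (S.card - 1) with hXdef
    set X2 := Rk t (I.card - 1 - 1) (S.card - 1 - 1) with hX2def
    set W1 := Rk t (I.card - 1) (S.card - 1) with hW1def
    have hgn : ∀ b ∈ O, ∀ l ∈ S, 0 ≤ gs t I ρ z f b l := fun b hb l hl =>
      gs_nonneg ht0 hf hz (hOS b hb l hl) (hSJ l hl)
    -- the totals
    set Pg := ∑ b ∈ O, al t z b * ∑ l ∈ S, gs t I ρ z f b l with hPg
    have hPgn : 0 ≤ Pg := Finset.sum_nonneg fun b hb =>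
      mul_nonneg (al_pos ht1 z b).le (Finset.sum_nonneg fun l hl => hgn b hb l hl)
    set P := ∑ l ∈ S, ∑ b ∈ O, al t z b * Xs t I ρ z f b l with hP
    set Q := ∑ l ∈ S, ∑ b ∈ O, Xs t I ρ z f b l with hQ
    set U := ∑ l ∈ S, ∑ u ∈ S.erase l, Xs t I ρ z f u l with hU
    set G := ∑ l ∈ S, ∑ u ∈ S.filter (fun u => l < u), Gs t I ρ z f l u with hG
    set HL := ∑ l ∈ S, Hj t I ρ z f l with hHL
    set HB := ∑ b ∈ O, al t z b * Hj t I ρ z f b with hHB
    have hb : (S.card : ℝ) * HB - A * HL = Pg + (t - 1) * P := by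
      have e1 : (S.card : ℝ) * HB - A * HL
          = ∑ b ∈ O, ∑ l ∈ S, al t z b * (Hj t I ρ z f b - Hj t I ρ z f l) := by
        rw [hHB, hA, hHL, Finset.sum_mul_sum, Finset.mul_sum, ← Finset.sum_sub_distrib]
        apply Finset.sum_congr rfl
        intro b _
        simp only [mul_sub, Finset.sum_sub_distrib, Finset.sum_const, nsmul_eq_mul]
      rw [e1, hPg, hP, Finset.sum_comm (s := S), Finset.mul_sum, ← Finset.sum_add_distrib]
      apply Finset.sum_congr rfl
      intro b hb
      rw [Finset.mul_sum, Finset.mul_sum, ← Finset.sum_add_distrib]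
      apply Finset.sum_congr rfl
      intro l hl
      rw [f1 b hb l hl]
      ring
    have hcc : HL ≤ Q + U + G := by
      rw [hHL, hQ, hU, hG, ← Finset.sum_add_distrib, ← Finset.sum_add_distrib]
      exact Finset.sum_le_sum f2
    have hd : A * X * U ≤ ((S.card : ℝ) - 1) * X2 * P := by
      have := Finset.sum_le_sum f3
      rw [← Finset.mul_sum, ← Finset.mul_sum, ← Finset.mul_sum, ← Finset.mul_sum] at this
      rw [← hU, ← hP] at this
      linarith [this]
    -- the loss
    obtain ⟨M, hM0, hMe, hMX⟩ : ∃ M : ℝ, 0 ≤ M ∧ A * G ≤ M * Pg ∧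
        (M + ((O.card : ℝ) - 1)) * X ≤ W1 := by
      rcases Nat.lt_or_ge 1 S.card with hr2 | hr1
      · have hr2' : (2 : ℝ) ≤ S.card := by exact_mod_cast hr2
        have hMn : 0 ≤ ((S.card : ℝ) - 2) / t := by
          apply div_nonneg <;> linarith
        refine ⟨1 + ((S.card : ℝ) - 2) / t, by linarith, ?_, ?_⟩
        · rw [hA, hPg, Finset.sum_mul, Finset.mul_sum]
          apply Finset.sum_le_sum
          intro b hb
          have h := mul_le_mul_of_nonneg_left (core_B1 ht1 hf hc hzI hz hb hr2) (al_pos ht1 z b).le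
          rw [← hS, ← hG] at h
          calc al t z b * G ≤ _ := h
            _ = _ := by ring
        · rw [hW1]
          have hle : X ≤ t * X2 := by
            obtain ⟨k2, hk2⟩ : ∃ k2, S.card - 1 = k2 + 1 := ⟨S.card - 2, by omega⟩
            rw [hXdef, hX2def, hk2]
            exact Rk_le ht1 _ k2
          have htp : 0 < t := by linarith
          have h1 : X / t ≤ X2 := by rw [div_le_iff₀ htp]; linarith
          have h2 : ((S.card : ℝ) - 1) * (X / t) ≤ ((S.card : ℝ) - 1) * X2 :=
            mul_le_mul_of_nonneg_left h1 (by linarith)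
          have h3 : ((S.card : ℝ) - 2) / t * X ≤ ((S.card : ℝ) - 1) * (X / t) := by
            rw [div_mul_eq_mul_div, mul_div_assoc]
            exact mul_le_mul_of_nonneg_right (by linarith) (by positivity)
          nlinarith [h2, h3]
      · have hr1' : S.card = 1 := by omega
        refine ⟨0, le_refl 0, ?_, ?_⟩
        · have hG0 : G = 0 := by
            rw [hG]
            apply Finset.sum_eq_zero
            intro l hl
            have : S.filter (fun u => l < u) = ∅ := by
              apply Finset.filter_eq_empty_iff.2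
              intro u hu
              obtain ⟨a, ha⟩ := Finset.card_eq_one.1 hr1'
              rw [ha, mem_singleton] at hu hl
              rw [hu, hl]
              exact lt_irrefl a
            rw [this, Finset.sum_empty]
          rw [hG0]; simp
        · rw [hW1, hr1']
          have : (0:ℝ) ≤ X := hX.le
          push_cast
          nlinarith
    -- the own column of the row `z`
    have hτ1 : t - 1 ≤ 1 := by linarith
    obtain ⟨Zg, hZf, hZg⟩ : ∃ Zg : ℝ, -((t - 1) * Zg) ≤ (O.card : ℝ) * P - A * Q ∧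
        (t - 1) ^ 2 * X * Zg ≤ (W1 - (t - 1) * X * M) * Pg := by
      have hbase : 0 ≤ W1 - (t - 1) * X * M := by
        have h1 : (t - 1) * (X * M) ≤ 1 * (X * M) :=
          mul_le_mul_of_nonneg_right hτ1 (by positivity)
        have h2 : (0:ℝ) ≤ ((O.card : ℝ) - 1) * X := by
          apply mul_nonneg _ hX.le
          have : (1:ℝ) ≤ O.card := by exact_mod_cast hOpos
          linarith
        nlinarith [h1, h2, hMX]
      by_cases hzO : z ∈ O
      · have hAe : A = (O.card : ℝ) + (t - 1) := by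
          rw [hA, ← Finset.add_sum_erase _ _ hzO, al_self]
          rw [Finset.sum_congr rfl (fun b hb => al_ne t (ne_of_mem_erase hb)),
            Finset.sum_const, nsmul_eq_mul, mul_one, Finset.card_erase_of_mem hzO,
            Nat.cast_sub hOpos, Nat.cast_one]
          ring
        have hPe : P = Q + (t - 1) * ∑ l ∈ S, Xs t I ρ z f z l := by
          rw [hP, hQ, Finset.mul_sum, ← Finset.sum_add_distrib]
          apply Finset.sum_congr rfl
          intro l _
          rw [← Finset.add_sum_erase _ _ hzO, ← Finset.add_sum_erase (a := z) (s := O)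
            (f := fun b => Xs t I ρ z f b l) hzO, al_self]
          rw [Finset.sum_congr rfl (fun b hb => by
            rw [al_ne t (ne_of_mem_erase hb), one_mul])]
          ring
        refine ⟨∑ b ∈ O.erase z, ∑ l ∈ S, gs t I ρ z f b l, ?_, ?_⟩
        · -- the sum of (B2)
          have h1 : Q - (O.card : ℝ) * ∑ l ∈ S, Xs t I ρ z f z l
              ≤ ∑ b ∈ O.erase z, ∑ l ∈ S, gs t I ρ z f b l := by
            have h2 : Q - (O.card : ℝ) * ∑ l ∈ S, Xs t I ρ z f z l
                = ∑ b ∈ O, ∑ l ∈ S, (Xs t I ρ z f b l - Xs t I ρ z f z l) := by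
              rw [hQ, Finset.sum_comm (s := S)]
              simp only [Finset.sum_sub_distrib, Finset.sum_const, nsmul_eq_mul]
            rw [h2, ← Finset.add_sum_erase _ _ hzO]
            have h3 : ∑ l ∈ S, (Xs t I ρ z f z l - Xs t I ρ z f z l) = 0 := by
              simp
            rw [h3, zero_add]
            apply Finset.sum_le_sum
            intro b hb
            apply Finset.sum_le_sum
            intro l hl
            have hb' := mem_erase.1 hb
            exact core_B2 ht0 hf hc hzI hz (hOJ z hzO) hb'.2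
              (lt_of_le_of_ne (mem_Ol.1 hb'.2).2 hb'.1) hl
          have h4 := mul_le_mul_of_nonneg_left h1 hτ
          rw [hPe, hAe]
          nlinarith [h4]
        · -- size
          have hZle : ∑ b ∈ O.erase z, ∑ l ∈ S, gs t I ρ z f b l ≤ Pg := by
            rw [hPg, ← Finset.add_sum_erase _ _ hzO]
            have h1 : 0 ≤ al t z z * ∑ l ∈ S, gs t I ρ z f z l :=
              mul_nonneg (al_pos ht1 z z).le (Finset.sum_nonneg fun l hl => hgn z hzO l hl)
            have h2 : ∑ b ∈ O.erase z, al t z b * ∑ l ∈ S, gs t I ρ z f b l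
                = ∑ b ∈ O.erase z, ∑ l ∈ S, gs t I ρ z f b l := by
              apply Finset.sum_congr rfl
              intro b hb
              rw [al_ne t (ne_of_mem_erase hb), one_mul]
            linarith
          have hZn : 0 ≤ ∑ b ∈ O.erase z, ∑ l ∈ S, gs t I ρ z f b l :=
            Finset.sum_nonneg fun b hb => Finset.sum_nonneg fun l hl =>
              hgn b (mem_of_mem_erase hb) l hl
          rcases Nat.lt_or_ge 1 O.card with hs2 | hs1
          · have hs2' : (2 : ℝ) ≤ O.card := by exact_mod_cast hs2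
            have h1 : (t - 1) ^ 2 * X ≤ W1 - (t - 1) * X * M := by
              have e1 : (t - 1) * (X * M) ≤ 1 * (X * M) :=
                mul_le_mul_of_nonneg_right hτ1 (by positivity)
              have e2 : (t - 1) ^ 2 ≤ 1 := by nlinarith
              have e3 : (t - 1) ^ 2 * X ≤ 1 * X := mul_le_mul_of_nonneg_right e2 hX.le
              have e4 : (0:ℝ) ≤ ((O.card : ℝ) - 2) * X := mul_nonneg (by linarith) hX.le
              nlinarith [e1, e3, e4, hMX]
            calc (t - 1) ^ 2 * X * ∑ b ∈ O.erase z, ∑ l ∈ S, gs t I ρ z f b l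
                ≤ (t - 1) ^ 2 * X * Pg := mul_le_mul_of_nonneg_left hZle (by positivity)
              _ ≤ (W1 - (t - 1) * X * M) * Pg := mul_le_mul_of_nonneg_right h1 hPgn
          · have : O.erase z = ∅ := by
              rw [← Finset.card_eq_zero, Finset.card_erase_of_mem hzO]
              omega
            rw [this, Finset.sum_empty, mul_zero]
            exact mul_nonneg hbase hPgn
      · have hal : ∀ b ∈ O, al t z b = 1 := fun b hb => al_ne t (by
          rintro rfl; exact hzO hb)
        have hAe : A = (O.card : ℝ) := by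
          rw [hA, Finset.sum_congr rfl hal, Finset.sum_const, nsmul_eq_mul, mul_one]
        have hPe : P = Q := by
          rw [hP, hQ]
          apply Finset.sum_congr rfl
          intro l _
          apply Finset.sum_congr rfl
          intro b hb
          rw [hal b hb, one_mul]
        refine ⟨0, ?_, ?_⟩
        · rw [hAe, hPe]; simp
        · rw [mul_zero]; exact mul_nonneg hbase hPgn
    exact S2_arith hτ hX.le hApos hb hcc hd hMe hZf hW0 hW1 hZg

end FixPA
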