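import Pool.Agent.H.MP_f011a7_co.S1
import Pool.Agent.H.MP_f011a7_co.S2

/-!
# MP_f011a7_co: positive association on the boards
-/

set_option autoImplicit false

namespace FixPA

open Finset Equiv

variable {n : ℕ}

/-- weighted Chebyshev inequality -/
theorem cheb_weighted {ι : Type*} [LinearOrder ι] (O : Finset ι) (w a b : ι → ℝ)
    (hw : ∀ i ∈ O, 0 ≤ w i) (ha : ∀ i ∈ O, ∀ j ∈ O, i < j → a j ≤ a i)
    (hb : ∀ i ∈ O, ∀ j ∈ O, i < j → b j ≤ b i) :
    (∑ i ∈ O, w i * a i) * (∑ i ∈ O, w i * b i)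
      ≤ (∑ i ∈ O, w i) * ∑ i ∈ O, w i * (a i * b i) := by
  have h1 : 0 ≤ ∑ i ∈ O, ∑ j ∈ O, w i * w j * ((a i - a j) * (b i - b j)) := by
    apply Finset.sum_nonneg
    intro i hi
    apply Finset.sum_nonneg
    intro j hj
    apply mul_nonneg (mul_nonneg (hw i hi) (hw j hj))
    rcases lt_trichotomy i j with h | h | h
    · exact mul_nonneg (sub_nonneg.2 (ha i hi j hj h)) (sub_nonneg.2 (hb i hi j hj h))
    · rw [h]; simp
    · exact mul_nonneg_of_nonpos_of_nonpos (sub_nonpos.2 (ha j hj i hi h))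
        (sub_nonpos.2 (hb j hj i hi h))
  have h2 : ∑ i ∈ O, ∑ j ∈ O, w i * w j * ((a i - a j) * (b i - b j))
      = 2 * ((∑ i ∈ O, w i) * (∑ i ∈ O, w i * (a i * b i))
        - (∑ i ∈ O, w i * a i) * (∑ i ∈ O, w i * b i)) := by
    have e1 : (∑ i ∈ O, w i) * (∑ i ∈ O, w i * (a i * b i))
        = ∑ i ∈ O, ∑ j ∈ O, w i * (w j * (a j * b j)) := Finset.sum_mul_sum _ _ _ _
    have e2 : (∑ i ∈ O, w i) * (∑ i ∈ O, w i * (a i * b i))
        = ∑ i ∈ O, ∑ j ∈ O, w j * (w i * (a i * b i)) := by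
      rw [e1, Finset.sum_comm]
    have e3 : (∑ i ∈ O, w i * a i) * (∑ i ∈ O, w i * b i)
        = ∑ i ∈ O, ∑ j ∈ O, w i * a i * (w j * b j) := Finset.sum_mul_sum _ _ _ _
    have e4 : (∑ i ∈ O, w i * a i) * (∑ i ∈ O, w i * b i)
        = ∑ i ∈ O, ∑ j ∈ O, w j * a j * (w i * b i) := by
      rw [e3, Finset.sum_comm]
    have e5 : 2 * ((∑ i ∈ O, w i) * (∑ i ∈ O, w i * (a i * b i))
        - (∑ i ∈ O, w i * a i) * (∑ i ∈ O, w i * b i))
        = ((∑ i ∈ O, w i) * (∑ i ∈ O, w i * (a i * b i))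
          + (∑ i ∈ O, w i) * (∑ i ∈ O, w i * (a i * b i)))
          - ((∑ i ∈ O, w i * a i) * (∑ i ∈ O, w i * b i)
            + (∑ i ∈ O, w i * a i) * (∑ i ∈ O, w i * b i)) := by ring
    rw [e5]
    nth_rewrite 1 [e1]
    nth_rewrite 1 [e2]
    nth_rewrite 1 [e3]
    rw [e4, ← Finset.sum_add_distrib, ← Finset.sum_add_distrib, ← Finset.sum_sub_distrib]
    apply Finset.sum_congr rfl
    intro i _
    rw [← Finset.sum_add_distrib, ← Finset.sum_add_distrib, ← Finset.sum_sub_distrib]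
    apply Finset.sum_congr rfl
    intro j _
    ring
  rw [h2] at h1
  linarith

/-- Chebyshev inequality from the suffix property -/
theorem cheb_suffix {ι : Type*} [LinearOrder ι] (a b : ι → ℝ) :
    ∀ (S : Finset ι), (∀ j ∈ S, 0 ≤ ∑ l ∈ S.filter (fun l => j < l), (a j - a l)) →
      (∀ j ∈ S, 0 ≤ ∑ l ∈ S.filter (fun l => j < l), (b j - b l)) →
      (∑ i ∈ S, a i) * (∑ i ∈ S, b i) ≤ (S.card : ℝ) * ∑ i ∈ S, a i * b i := by
  intro S
  induction S using Finset.induction_on_min with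
  | empty => intro _ _; simp
  | insert m S hm ih =>
    intro ha hb
    have hmS : m ∉ S := fun h => lt_irrefl m (hm m h)
    have hfil : ∀ j ∈ S, (insert m S).filter (fun l => j < l) = S.filter (fun l => j < l) := by
      intro j hj
      rw [Finset.filter_insert, if_neg (not_lt.2 (hm j hj).le)]
    have hfilm : (insert m S).filter (fun l => m < l) = S := by
      rw [Finset.filter_insert, if_neg (lt_irrefl m)]
      exact Finset.filter_true_of_mem hm
    have h1 := ih (fun j hj => by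
        have := ha j (mem_insert_of_mem hj)
        rwa [hfil j hj] at this) (fun j hj => by
        have := hb j (mem_insert_of_mem hj)
        rwa [hfil j hj] at this)
    have h2 := ha m (mem_insert_self m S)
    have h3 := hb m (mem_insert_self m S)
    rw [hfilm, Finset.sum_sub_distrib, Finset.sum_const, nsmul_eq_mul] at h2 h3
    rw [Finset.sum_insert hmS, Finset.sum_insert hmS, Finset.sum_insert hmS,
      Finset.card_insert_of_notMem hmS]
    push_cast
    set A := ∑ i ∈ S, a i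
    set B := ∑ i ∈ S, b i
    set C := ∑ i ∈ S, a i * b i
    rcases Finset.eq_empty_or_nonempty S with hS | hS
    · have hA : A = 0 := by simp [A, hS]
      have hB : B = 0 := by simp [B, hS]
      have hC : C = 0 := by simp [C, hS]
      rw [hA, hB, hC, hS]
      simp
    · have hc : (0 : ℝ) < S.card := by exact_mod_cast hS.card_pos
      set c : ℝ := (S.card : ℝ)
      have h4 : 0 ≤ (c * a m - A) * (c * b m - B) := mul_nonneg h2 h3
      have h5 : 0 ≤ c * (C + c * (a m * b m) - a m * B - A * b m) := by nlinarith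
      have h6 : 0 ≤ C + c * (a m * b m) - a m * B - A * b m := by
        by_contra hneg
        have hneg' := not_le.1 hneg
        nlinarith [mul_neg_of_pos_of_neg hc hneg']
      nlinarith

/-- the last step -/
theorem combine {x y A A' B B' CO CS : ℝ} (hx : 0 < x) (hy : 0 < y) (h1 : A * A' ≤ x * CO)
    (h2 : B * B' ≤ y * CS) (h3 : x * B ≤ y * A) (h4 : x * B' ≤ y * A') :
    (A + B) * (A' + B') ≤ (CO + CS) * (x + y) := by
  have h5 : 0 ≤ (y * A - x * B) * (y * A' - x * B') :=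
    mul_nonneg (sub_nonneg.2 h3) (sub_nonneg.2 h4)
  have h6 : y * y * (A * A') ≤ y * y * (x * CO) :=
    mul_le_mul_of_nonneg_left h1 (by positivity)
  have h7 : x * x * (B * B') ≤ x * x * (y * CS) :=
    mul_le_mul_of_nonneg_left h2 (by positivity)
  have hxy : 0 < x * y := mul_pos hx hy
  have h8 : x * y * (A * B' + A' * B) ≤ x * y * (y * CO + x * CS) := by nlinarith
  have h9 : A * B' + A' * B ≤ y * CO + x * CS := le_of_mul_le_mul_left h8 hxy
  nlinarith

/-- (S0): the old columns -/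
theorem main_S0 {t : ℝ} (ht : 0 ≤ t) {f : Equiv.Perm (Fin n) → ℝ} (hf : Mon f)
    {I : Finset (Fin n)} {ρ : Equiv.Perm (Fin n)} {z : Fin n}
    (hz : ∀ i ∈ I, z ≤ i) {b b' : Fin n} (hb : b ∈ Ol I ρ z) (hb' : b' ∈ Ol I ρ z)
    (hlt : b < b') : Hj t I ρ z f b' ≤ Hj t I ρ z f b := by
  have hbJ := (mem_Ol.1 hb).1
  have hbJ' := (mem_Ol.1 hb').1
  have hbz : b ≠ z := ne_of_lt (lt_of_lt_of_le hlt (mem_Ol.1 hb').2)
  have h1 : Xs t I ρ z f b' b = 0 := Xs_eq_zero hbJ (Or.inl (Ol_notMem hz hb hbz))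
  have h2 : Xs t I ρ z f b b' = 0 := by
    by_cases h : b' = z
    · subst h; exact Xs_eq_zero hbJ' (Or.inr ⟨rfl, hbz⟩)
    · exact Xs_eq_zero hbJ' (Or.inl (Ol_notMem hz hb' h))
  have h3 := Hj_sub (t := t) (f := f) (z := z) (ne_of_lt hlt) hbJ hbJ'
  rw [h1, h2, sub_zero, mul_zero, add_zero] at h3
  have h4 := gs_nonneg ht hf hz hlt hbJ'
  linarith

/-- (S1): the suffix property of the special columns -/
theorem main_S1 {t : ℝ} (ht1 : 1 ≤ t) (ht2 : t ≤ 2) {f : Equiv.Perm (Fin n) → ℝ} (hf : Mon f)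
    {I : Finset (Fin n)} {ρ : Equiv.Perm (Fin n)} (hc : Cls I ρ) {z : Fin n} (hzI : z ∈ I)
    (hz : ∀ i ∈ I, z ≤ i) {j : Fin n} (hj : j ∈ Sp I ρ z) :
    0 ≤ ∑ l ∈ (Sp I ρ z).filter (fun l => j < l), (Hj t I ρ z f j - Hj t I ρ z f l) := by
  have ht0 : (0 : ℝ) ≤ t := by linarith
  have h1 := core_S1 ht0 hf hc hzI hz hj
  have h2 : ∑ l ∈ (Sp I ρ z).filter (fun l => j < l), (Hj t I ρ z f j - Hj t I ρ z f l)
      = ∑ l ∈ (Sp I ρ z).filter (fun l => j < l), gs t I ρ z f j l
        - (t - 1) * ∑ l ∈ (Sp I ρ z).filter (fun l => j < l),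
          (Xs t I ρ z f l j - Xs t I ρ z f j l) := by
    rw [Finset.mul_sum, ← Finset.sum_sub_distrib]
    apply Finset.sum_congr rfl
    intro l hl
    rw [mem_filter] at hl
    rw [Hj_sub (ne_of_lt hl.2) (mem_Sp.1 hj).1 (mem_Sp.1 hl.1).1]
    ring
  have h3 : 0 ≤ ∑ l ∈ (Sp I ρ z).filter (fun l => j < l), gs t I ρ z f j l := by
    apply Finset.sum_nonneg
    intro l hl
    rw [mem_filter] at hl
    exact gs_nonneg ht0 hf hz hl.2 (mem_Sp.1 hl.1).1
  rw [h2]
  have h4 := mul_le_mul_of_nonneg_left h1 (by linarith : (0:ℝ) ≤ t - 1)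
  nlinarith

/-- positive association on the boards of the class -/
theorem main_PA {t : ℝ} (ht1 : 1 ≤ t) (ht2 : t ≤ 2) {f f' : Equiv.Perm (Fin n) → ℝ}
    (hf : Mon f) (hf' : Mon f') :
    ∀ (m : ℕ) (I : Finset (Fin n)) (ρ : Equiv.Perm (Fin n)), I.card = m → Cls I ρ →
      Hs t I ρ f * Hs t I ρ f'
        ≤ Hs t I ρ (fun σ => f σ * f' σ) * Hs t I ρ (fun _ => 1) := by
  intro m
  induction m with
  | zero =>
    intro I ρ hI _
    rw [Finset.card_eq_zero] at hI
    subst hI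
    have h1 : Om (∅ : Finset (Fin n)) ρ = {ρ} := by
      ext σ
      rw [mem_Om, mem_singleton]
      constructor
      · intro h; exact Equiv.ext fun i => h i (Finset.notMem_empty i)
      · rintro rfl i _; rfl
    unfold Hs
    rw [h1]
    simp [wt]
  | succ m ih =>
    intro I ρ hI hc
    have ht0 : (0 : ℝ) ≤ t := by linarith
    have hne : I.Nonempty := by
      rw [← Finset.card_pos]; omega
    set z := I.min' hne with hzdef
    have hzI : z ∈ I := I.min'_mem hne
    have hz : ∀ i ∈ I, z ≤ i := fun i hi => I.min'_le i hi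
    -- the leaves
    have hleaf : ∀ j ∈ I.image ρ, Hj t I ρ z f j * Hj t I ρ z f' j
        ≤ Hj t I ρ z (fun σ => f σ * f' σ) j * Hj t I ρ z (fun _ => 1) j := by
      intro j hj
      obtain ⟨ρ', h1, h2⟩ := exists_mem_Cy (ρ := ρ) hzI hj
      rw [← h2, Hj_eq_Hs hzI h1, Hj_eq_Hs hzI h1, Hj_eq_Hs hzI h1, Hj_eq_Hs hzI h1]
      exact ih (I.erase z) ρ' (by rw [Finset.card_erase_of_mem hzI, hI]; rfl) (hc.sub_min h1 hz)
    have hcard := card_Ol_add_Sp I ρ z
    have hSpsub : Sp I ρ z ⊆ I.erase z := by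
      intro j hj
      exact mem_erase.2 ⟨ne_of_gt (mem_Sp.1 hj).2, Sp_sub hc hzI hj⟩
    have hSple : (Sp I ρ z).card ≤ m := by
      have := Finset.card_le_card hSpsub
      rw [Finset.card_erase_of_mem hzI, hI] at this
      omega
    have hsplit : ∀ F : Equiv.Perm (Fin n) → ℝ, Hs t I ρ F
        = ∑ b ∈ Ol I ρ z, al t z b * Hj t I ρ z F b + ∑ l ∈ Sp I ρ z, Hj t I ρ z F l := by
      intro F
      rw [Hs_eq hzI, ← Ol_union_Sp I ρ z, Finset.sum_union (Ol_disj_Sp I ρ z)]
      congr 1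
      apply Finset.sum_congr rfl
      intro l hl
      rw [if_neg (ne_of_gt (mem_Sp.1 hl).2), one_mul]
    have hZO : ∀ b ∈ Ol I ρ z, Hj t I ρ z (fun _ => 1) b = Rk t (I.card - 1) (Sp I ρ z).card :=
      fun b hb => Hj_one_Ol t hc hzI hz hb
    have hZS : ∀ b ∈ Sp I ρ z, Hj t I ρ z (fun _ => 1) b
        = Rk t (I.card - 1) ((Sp I ρ z).card - 1) := fun b hb => Hj_one_Sp t hc hzI hz hb
    have hW0 : 0 < Rk t (I.card - 1) (Sp I ρ z).card := Rk_pos ht1 _ _
    have hW1 : 0 < Rk t (I.card - 1) ((Sp I ρ z).card - 1) := Rk_pos ht1 _ _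
    have hS2 := main_S2 ht1 ht2 hf (m + 1) I ρ hI hc z hzI hz
    have hS2' := main_S2 ht1 ht2 hf' (m + 1) I ρ hI hc z hzI hz
    set O := Ol I ρ z with hO
    set S := Sp I ρ z with hS
    set W0 := Rk t (I.card - 1) S.card with hW0d
    set W1 := Rk t (I.card - 1) (S.card - 1) with hW1d
    have hOJ : ∀ b ∈ O, b ∈ I.image ρ := fun b hb => (mem_Ol.1 hb).1
    have hSJ : ∀ b ∈ S, b ∈ I.image ρ := fun b hb => (mem_Sp.1 hb).1
    have hOne : O.Nonempty := by
      rw [← Finset.card_pos]; omega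
    rw [hsplit f, hsplit f', hsplit (fun σ => f σ * f' σ), hsplit (fun _ => 1)]
    set A := ∑ b ∈ O, al t z b * Hj t I ρ z f b with hA
    set A' := ∑ b ∈ O, al t z b * Hj t I ρ z f' b with hA'
    set B := ∑ l ∈ S, Hj t I ρ z f l with hB
    set B' := ∑ l ∈ S, Hj t I ρ z f' l with hB'
    set CO := ∑ b ∈ O, al t z b * Hj t I ρ z (fun σ => f σ * f' σ) b with hCO
    set CS := ∑ l ∈ S, Hj t I ρ z (fun σ => f σ * f' σ) l with hCS
    have hZOs : ∑ b ∈ O, al t z b * Hj t I ρ z (fun _ => 1) b = (∑ b ∈ O, al t z b) * W0 := by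
      rw [Finset.sum_mul]
      exact Finset.sum_congr rfl fun b hb => by rw [hZO b hb]
    have hZSs : ∑ l ∈ S, Hj t I ρ z (fun _ => 1) l = (S.card : ℝ) * W1 := by
      rw [Finset.sum_congr rfl hZS, Finset.sum_const, nsmul_eq_mul]
    rw [hZOs, hZSs]
    have hAO : 0 < ∑ b ∈ O, al t z b := Finset.sum_pos (fun b _ => al_pos ht1 z b) hOne
    -- the group of the old columns
    have g1 : A * A' ≤ (∑ b ∈ O, al t z b) * W0 * CO := by
      have c1 := cheb_weighted O (fun b => al t z b) (fun b => Hj t I ρ z f b)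
        (fun b => Hj t I ρ z f' b) (fun b _ => (al_pos ht1 z b).le)
        (fun i hi j hj hij => main_S0 ht0 hf hz hi hj hij)
        (fun i hi j hj hij => main_S0 ht0 hf' hz hi hj hij)
      have c2 : ∑ b ∈ O, al t z b * (Hj t I ρ z f b * Hj t I ρ z f' b) ≤ W0 * CO := by
        rw [hCO, Finset.mul_sum]
        apply Finset.sum_le_sum
        intro b hb
        have h := hleaf b (hOJ b hb)
        rw [hZO b hb] at h
        have h2 := mul_le_mul_of_nonneg_left h (al_pos ht1 z b).le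
        calc _ ≤ _ := h2
          _ = _ := by ring
      calc A * A' ≤ _ := c1
        _ ≤ (∑ b ∈ O, al t z b) * (W0 * CO) := mul_le_mul_of_nonneg_left c2 hAO.le
        _ = _ := by ring
    -- the group of the special columns
    have g2 : B * B' ≤ (S.card : ℝ) * W1 * CS := by
      have c1 := cheb_suffix (fun b => Hj t I ρ z f b) (fun b => Hj t I ρ z f' b) S
        (fun j hj => main_S1 ht1 ht2 hf hc hzI hz hj)
        (fun j hj => main_S1 ht1 ht2 hf' hc hzI hz hj)
      have c2 : ∑ b ∈ S, Hj t I ρ z f b * Hj t I ρ z f' b ≤ W1 * CS := by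
        rw [hCS, Finset.mul_sum]
        apply Finset.sum_le_sum
        intro b hb
        have h := hleaf b (hSJ b hb)
        rw [hZS b hb] at h
        linarith
      calc B * B' ≤ _ := c1
        _ ≤ (S.card : ℝ) * (W1 * CS) := mul_le_mul_of_nonneg_left c2 (Nat.cast_nonneg _)
        _ = _ := by ring
    rcases Nat.eq_zero_or_pos S.card with hr0 | hrpos
    · have hSe : S = ∅ := Finset.card_eq_zero.1 hr0
      have hB0 : B = 0 := by rw [hB, hSe, Finset.sum_empty]
      have hB0' : B' = 0 := by rw [hB', hSe, Finset.sum_empty]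
      have hCS0 : CS = 0 := by rw [hCS, hSe, Finset.sum_empty]
      rw [hB0, hB0', hCS0, hr0]
      simp only [add_zero, Nat.cast_zero, zero_mul]
      linarith [g1]
    · have hx : 0 < (∑ b ∈ O, al t z b) * W0 := mul_pos hAO hW0
      have hy : 0 < (S.card : ℝ) * W1 := mul_pos (by exact_mod_cast hrpos) hW1
      refine combine hx hy g1 g2 ?_ ?_
      · calc (∑ b ∈ O, al t z b) * W0 * B = W0 * ((∑ b ∈ O, al t z b) * B) := by ring
          _ ≤ _ := hS2
          _ = _ := by ring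
      · calc (∑ b ∈ O, al t z b) * W0 * B' = W0 * ((∑ b ∈ O, al t z b) * B') := by ring
          _ ≤ _ := hS2'
          _ = _ := by ring

end FixPA
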