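import Pool.Agent.H.MP_f011a7_co.Near

namespace Pool.Agent.H.MP_f011a7_co

open Equiv Finset

variable {n : ℕ}

lemma ins_mul (v : Fin (n + 1)) (a b : Perm (Fin n)) :
    ins v (a * b) = ins v a * ins (Fin.last n) b := by
  apply Equiv.ext
  intro k
  rw [Perm.mul_apply]
  refine Fin.lastCases ?_ (fun k => ?_) k
  · rw [ins_last, ins_last, ins_last]
  · rw [ins_castSucc, ins_castSucc, Fin.succAbove_last_apply, ins_castSucc, Perm.mul_apply]

lemma ins_last_one : ins (Fin.last n) (1 : Perm (Fin n)) = 1 := by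
  apply Equiv.ext
  intro k
  refine Fin.lastCases ?_ (fun k => ?_) k
  · rw [ins_last]; rfl
  · rw [ins_castSucc, Fin.succAbove_last_apply]; rfl

/-- The moves of values induced by exchanging the last entry with a larger one. -/
def Mv (n : ℕ) : Set (Perm (Fin n)) :=
  {g | ∃ v j : Fin (n + 1), v < j ∧ swap v j * ins v 1 = ins j g}

lemma ins_last_mv {g : Perm (Fin n)} (hg : g ∈ Mv n) : ins (Fin.last n) g ∈ Mv (n + 1) := by
  obtain ⟨v, j, hvj, h⟩ := hg
  refine ⟨v.castSucc, j.castSucc, by simpa using hvj, ?_⟩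
  have hx : ∀ z : Fin n, swap v j (v.succAbove z) = j.succAbove (g z) := by
    intro z
    have := congrArg (fun c : Perm (Fin (n + 1)) => c z.castSucc) h
    simpa only [Perm.mul_apply, ins_castSucc, Perm.one_apply] using this
  have hv : v ≠ Fin.last n := fun h => absurd (Fin.le_last j) (not_le.mpr (h ▸ hvj))
  apply Equiv.ext
  intro k
  rw [Perm.mul_apply]
  refine Fin.lastCases ?_ (fun k => ?_) k
  · rw [ins_last, ins_last, swap_apply_left]
  · rw [ins_castSucc, ins_castSucc, Perm.one_apply]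
    refine Fin.lastCases ?_ (fun z => ?_) k
    · have e1 : v.castSucc.succAbove (Fin.last n) = Fin.last (n + 1) :=
        Fin.succAbove_ne_last_last (Fin.castSucc_lt_last v).ne
      have e2 : j.castSucc.succAbove (Fin.last n) = Fin.last (n + 1) :=
        Fin.succAbove_ne_last_last (Fin.castSucc_lt_last j).ne
      rw [ins_last, e1, e2, swap_apply_of_ne_of_ne (Fin.castSucc_lt_last v).ne'
        (Fin.castSucc_lt_last j).ne']
    · rw [ins_castSucc, Fin.succAbove_last_apply, Fin.castSucc_succAbove_castSucc,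
        Fin.castSucc_succAbove_castSucc, ← hx z,
        (Fin.castSucc_injective (n + 1)).swap_apply]

lemma ins_one_mv (v : Fin (n + 1)) : ins v 1 ∈ Mv (n + 1) := by
  refine ⟨v.castSucc, Fin.last (n + 1), Fin.castSucc_lt_last v, ?_⟩
  apply Equiv.ext
  intro k
  rw [Perm.mul_apply]
  refine Fin.lastCases ?_ (fun k => ?_) k
  · rw [ins_last, ins_last, swap_apply_left]
  · rw [ins_castSucc, ins_castSucc, Perm.one_apply]
    refine Fin.lastCases ?_ (fun z => ?_) k
    · have e1 : v.castSucc.succAbove (Fin.last n) = Fin.last (n + 1) :=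
        Fin.succAbove_ne_last_last (Fin.castSucc_lt_last v).ne
      rw [ins_last, e1, swap_apply_right, Fin.succAbove_last_apply]
    · rw [ins_castSucc, Fin.succAbove_last_apply, Fin.castSucc_succAbove_castSucc, Perm.one_apply,
        swap_apply_of_ne_of_ne]
      · intro h
        rw [Fin.castSucc_inj] at h
        exact Fin.succAbove_ne v z h
      · exact (Fin.castSucc_lt_last _).ne

/-- A subadditive function which is at most `D` on the moves is at most `(n - 1) D`. -/
lemma subadd_bound (D : ℕ) : ∀ (n : ℕ) (F : Perm (Fin n) → ℕ), F 1 = 0 →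
    (∀ g h, F (g * h) ≤ F g + F h) → (∀ g ∈ Mv n, F g ≤ D) → ∀ g, F g ≤ (n - 1) * D := by
  intro n
  induction n with
  | zero =>
    intro F h1 _ _ g
    rw [Subsingleton.elim g 1, h1]; exact Nat.zero_le _
  | succ n ih =>
    intro F h1 hsub hmv g
    obtain ⟨v, a, rfl⟩ := ins_surj g
    rcases n with _ | n
    · have : ins v a = 1 := Equiv.ext fun x => Subsingleton.elim (α := Fin 1) _ _
      rw [this, h1]; exact Nat.zero_le _
    · have hF := ih (fun a => F (ins (Fin.last _) a)) (by rw [ins_last_one]; exact h1)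
        (fun g h => by
          rw [ins_mul]; exact hsub _ _)
        (fun g hg => hmv _ (ins_last_mv hg)) a
      simp only [Nat.add_sub_cancel] at hF ⊢
      have hsplit : ins v a = ins v 1 * ins (Fin.last _) a := by
        rw [← ins_mul, one_mul]
      have hv : F (ins v 1) ≤ D := hmv _ (ins_one_mv v)
      rw [hsplit]
      calc F (ins v 1 * ins (Fin.last _) a) ≤ F (ins v 1) + F (ins (Fin.last _) a) := hsub _ _
        _ ≤ D + n * D := Nat.add_le_add hv hF
        _ = (n + 1) * D := by ring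

open Classical in
/-- The number of members of `H` which `g` moves out of `H`. -/
noncomputable def bd (H : Set (Perm (Fin n))) (g : Perm (Fin n)) : ℕ :=
  (univ.filter fun a => a ∈ H ∧ g * a ∉ H).card

lemma bd_one (H : Set (Perm (Fin n))) : bd H 1 = 0 := by
  classical
  unfold bd
  simp

lemma bd_mul (H : Set (Perm (Fin n))) (g h : Perm (Fin n)) : bd H (g * h) ≤ bd H g + bd H h := by
  classical
  have h1 : (univ.filter fun a => a ∈ H ∧ g * h * a ∉ H) ⊆
      (univ.filter fun a => a ∈ H ∧ h * a ∉ H) ∪ (univ.filter fun a => h * a ∈ H ∧ g * (h * a) ∉ H) := by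
    intro a ha
    simp only [mem_filter, mem_univ, true_and, mem_union] at ha ⊢
    by_cases hh : h * a ∈ H
    · right; exact ⟨hh, by rw [← mul_assoc]; exact ha.2⟩
    · left; exact ⟨ha.1, hh⟩
  have h2 : (univ.filter fun a => h * a ∈ H ∧ g * (h * a) ∉ H).card = bd H g := by
    unfold bd
    apply Finset.card_bij (fun a _ => h * a)
    · intro a ha
      simpa using ha
    · intro a _ b _ hab
      exact mul_left_cancel hab
    · intro b hb
      refine ⟨h⁻¹ * b, ?_, by simp⟩
      simpa using hb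
  have h3 := (Finset.card_le_card h1).trans (Finset.card_union_le _ _)
  rw [h2] at h3
  have h4 : bd H (g * h) = (univ.filter fun a => a ∈ H ∧ g * h * a ∉ H).card := by
    unfold bd; congr
  have h5 : bd H h = (univ.filter fun a => a ∈ H ∧ h * a ∉ H).card := by
    unfold bd; congr
  rw [h4, h5]
  omega

lemma sum_bd (H : Set (Perm (Fin n))) : ∑ g, bd H g = num H * num Hᶜ := by
  classical
  have h1 : ∀ g, bd H g = ∑ a : Perm (Fin n), if a ∈ H ∧ g * a ∉ H then 1 else 0 := by
    intro g
    unfold bd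
    rw [Finset.card_filter]
  simp only [h1]
  rw [Finset.sum_comm]
  have h2 : ∀ a : Perm (Fin n), (∑ g : Perm (Fin n), if a ∈ H ∧ g * a ∉ H then 1 else 0)
      = if a ∈ H then num Hᶜ else 0 := by
    intro a
    by_cases ha : a ∈ H
    · simp only [ha, true_and, if_true]
      rw [num_eq, Finset.card_filter]
      exact Equiv.sum_comp (Equiv.mulRight a) (fun b : Perm (Fin n) => if b ∈ Hᶜ then 1 else 0)
    · simp [ha]
  simp only [h2]
  rw [Finset.sum_ite, Finset.sum_const, Finset.sum_const_zero, add_zero, smul_eq_mul, num_eq H]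

lemma num_compl (A : Set (Perm (Fin n))) : num A + num Aᶜ = n.factorial := by
  classical
  rw [num_eq, num_eq]
  have := Finset.card_filter_add_card_filter_not (s := (univ : Finset (Perm (Fin n))))
    (fun a => a ∈ A)
  rw [Finset.card_univ, Fintype.card_perm, Fintype.card_fin] at this
  simp only [Set.mem_compl_iff]
  convert this using 2

lemma sec_compl (A : Set (Perm (Fin (n + 1)))) (v : Fin (n + 1)) : sec Aᶜ v = (sec A v)ᶜ := rfl

lemma bd_mv {A : Set (Perm (Fin (n + 1)))} (hA : StrongUpset A) {g : Perm (Fin n)}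
    (hg : g ∈ Mv n) : bd (sec A (Fin.last n)) g + num (sec A 0) ≤ num (sec A (Fin.last n)) := by
  classical
  obtain ⟨v, j, hvj, h⟩ := hg
  have key : ∀ a ∈ sec A 0, g * a ∈ sec A (Fin.last n) := by
    intro a ha
    have h1 : ins v a ∈ A := sec_mono hA (Fin.zero_le v) ha
    have h2 := hA _ h1 v j hvj (by
      rw [ins_symm_self]
      apply Fin.lt_last_iff_ne_last.mpr
      intro h3
      rw [Equiv.symm_apply_eq, ins_last] at h3
      exact hvj.ne' h3)
    have h3 : swap v j * ins v a = ins j (g * a) := by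
      calc swap v j * ins v a = swap v j * (ins v 1 * ins (Fin.last n) a) := by
            rw [← ins_mul, one_mul]
        _ = ins j g * ins (Fin.last n) a := by rw [← mul_assoc, h]
        _ = ins j (g * a) := by rw [← ins_mul]
    rw [h3] at h2
    exact sec_mono hA (Fin.le_last j) h2
  have e1 : bd (sec A (Fin.last n)) g
      = (univ.filter fun a => a ∈ sec A (Fin.last n) ∧ g * a ∉ sec A (Fin.last n)).card := by
    unfold bd; congr
  rw [e1, num_eq, num_eq, ← Finset.card_union_of_disjoint]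
  · apply Finset.card_le_card
    intro a ha
    simp only [mem_union, mem_filter, mem_univ, true_and] at ha ⊢
    rcases ha with ha | ha
    · exact ha.1
    · exact sec_mono hA (Fin.zero_le _) ha
  · rw [Finset.disjoint_left]
    intro a ha hb
    simp only [mem_filter, mem_univ, true_and] at ha hb
    exact ha.2 (key a hb)

/-- The top section has small variance if the first and the last section are close. -/
lemma section_var {A : Set (Perm (Fin (n + 1)))} (hA : StrongUpset A) :
    num (sec A (Fin.last n)) * num (sec A (Fin.last n))ᶜ ≤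
      n.factorial * ((n - 1) * (num (sec A (Fin.last n)) - num (sec A 0))) := by
  rw [← sum_bd]
  calc ∑ g, bd (sec A (Fin.last n)) g
      ≤ ∑ _g : Perm (Fin n), (n - 1) * (num (sec A (Fin.last n)) - num (sec A 0)) := by
        apply Finset.sum_le_sum
        intro g _
        apply subadd_bound _ n (fun g => bd (sec A (Fin.last n)) g) (bd_one _) (bd_mul _)
        intro g hg
        have := bd_mv hA hg
        omega
    _ = _ := by
        rw [Finset.sum_const, Finset.card_univ, Fintype.card_perm, Fintype.card_fin, smul_eq_mul]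

/-- `|A| |Aᶜ|` is controlled by the difference of the extreme sections. -/
lemma var_le {A : Set (Perm (Fin (n + 1)))} (hA : StrongUpset A) :
    (num A : ℝ) * num Aᶜ ≤ ((n + 1 : ℕ) : ℝ) * ((n - 1 + 1 : ℕ) : ℝ) * ((n + 1).factorial : ℝ) *
      ((num (sec A (Fin.last n)) : ℝ) - num (sec A 0)) := by
  set H := sec A (Fin.last n) with hH
  have h0 : num (sec A 0) ≤ num H := num_mono (sec_mono hA (Fin.zero_le _))
  have hv := section_var hA
  rw [← hH] at hv
  have hc := num_compl H
  -- upper bounds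
  have h1 : num A ≤ (n + 1) * num H := by
    rw [num_succ]
    calc ∑ v, num (sec A v) ≤ ∑ _v : Fin (n + 1), num H :=
          Finset.sum_le_sum fun v _ => num_mono (sec_mono hA (Fin.le_last v))
      _ = _ := by rw [Finset.sum_const, Finset.card_univ, Fintype.card_fin, smul_eq_mul]
  have h2 : num Aᶜ ≤ (n + 1) * num (sec A 0)ᶜ := by
    rw [num_succ]
    calc ∑ v, num (sec Aᶜ v) ≤ ∑ _v : Fin (n + 1), num (sec A 0)ᶜ :=
          Finset.sum_le_sum fun v _ => by
            rw [sec_compl]
            exact num_mono (Set.compl_subset_compl.mpr (sec_mono hA (Fin.zero_le v)))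
      _ = _ := by rw [Finset.sum_const, Finset.card_univ, Fintype.card_fin, smul_eq_mul]
  have hc0 := num_compl (sec A 0)
  set D : ℝ := (num H : ℝ) - num (sec A 0) with hD
  have hD0 : 0 ≤ D := by
    have : (num (sec A 0) : ℝ) ≤ num H := by exact_mod_cast h0
    linarith
  have hvr : (num H : ℝ) * num Hᶜ ≤ (n.factorial : ℝ) * (((n - 1 : ℕ) : ℝ) * D) := by
    have e : ((num H - num (sec A 0) : ℕ) : ℝ) = D := by
      rw [Nat.cast_sub h0]
    rw [← e]
    exact_mod_cast hv
  have hcr : (num H : ℝ) + num Hᶜ = n.factorial := by exact_mod_cast hc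
  have hcr0 : (num (sec A 0) : ℝ) + num (sec A 0)ᶜ = n.factorial := by exact_mod_cast hc0
  have h1r : (num A : ℝ) ≤ (n + 1) * num H := by exact_mod_cast h1
  have h2r : (num Aᶜ : ℝ) ≤ (n + 1) * num (sec A 0)ᶜ := by exact_mod_cast h2
  have hHf : (num H : ℝ) ≤ n.factorial := by exact_mod_cast num_le H
  have hf0 : (0 : ℝ) ≤ (n.factorial : ℝ) := by positivity
  have hs : (num (sec A 0)ᶜ : ℝ) = num Hᶜ + D := by rw [hD]; linarith
  have hmain : (num H : ℝ) * num (sec A 0)ᶜ ≤
      (n.factorial : ℝ) * (((n - 1 : ℕ) : ℝ) * D) + (n.factorial : ℝ) * D := by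
    rw [hs, mul_add]
    exact add_le_add hvr (mul_le_mul_of_nonneg_right hHf hD0)
  have hn1 : (0 : ℝ) ≤ (n : ℝ) + 1 := by positivity
  calc (num A : ℝ) * num Aᶜ ≤ ((n + 1) * num H) * ((n + 1) * num (sec A 0)ᶜ) :=
        mul_le_mul h1r h2r (by positivity) (by positivity)
    _ = (n + 1) * (n + 1) * (num H * num (sec A 0)ᶜ) := by ring
    _ ≤ (n + 1) * (n + 1) * ((n.factorial : ℝ) * (((n - 1 : ℕ) : ℝ) * D)
          + (n.factorial : ℝ) * D) :=
        mul_le_mul_of_nonneg_left hmain (by positivity)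
    _ = _ := by
        rw [Nat.factorial_succ]
        push_cast
        ring

/-- Chebyshev with a remainder. -/
lemma cheb_rem (f g : Fin (n + 1) → ℝ) (hf : Monotone f) (hg : Monotone g) :
    (∑ v, f v) * (∑ v, g v) + (f (Fin.last n) - f 0) * (g (Fin.last n) - g 0)
      ≤ (n + 1) * ∑ v, f v * g v := by
  set T : Fin (n + 1) → Fin (n + 1) → ℝ := fun v w => (f v - f w) * (g v - g w) with hT
  have hT0 : ∀ v w, 0 ≤ T v w := by
    intro v w
    rcases le_total v w with h | h
    · exact mul_nonneg_of_nonpos_of_nonpos (by linarith [hf h]) (by linarith [hg h])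
    · exact mul_nonneg (by linarith [hf h]) (by linarith [hg h])
  have hsum : ∑ v, ∑ w, T v w = 2 * ((n + 1 : ℝ) * ∑ v, f v * g v - (∑ v, f v) * (∑ v, g v)) := by
    have : ∀ v w, T v w = f v * g v - f v * g w - f w * g v + f w * g w := by
      intro v w; simp only [hT]; ring
    simp only [this, Finset.sum_add_distrib, Finset.sum_sub_distrib, Finset.sum_const,
      Finset.card_univ, Fintype.card_fin, nsmul_eq_mul, ← Finset.mul_sum, ← Finset.sum_mul]
    push_cast
    ring
  have hge : 2 * ((f (Fin.last n) - f 0) * (g (Fin.last n) - g 0)) ≤ ∑ v, ∑ w, T v w := by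
    by_cases hne : (0 : Fin (n + 1)) = Fin.last n
    · rw [← hne, sub_self, zero_mul, mul_zero]
      exact Finset.sum_nonneg fun v _ => Finset.sum_nonneg fun w _ => hT0 v w
    · have h0 : T 0 (Fin.last n) ≤ ∑ w, T 0 w :=
        Finset.single_le_sum (f := fun w => T 0 w) (fun w _ => hT0 0 w) (mem_univ _)
      have h1 : T (Fin.last n) 0 ≤ ∑ w, T (Fin.last n) w :=
        Finset.single_le_sum (f := fun w => T (Fin.last n) w) (fun w _ => hT0 _ w) (mem_univ _)
      have h2 : ∑ v ∈ {0, Fin.last n}, ∑ w, T v w ≤ ∑ v, ∑ w, T v w :=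
        Finset.sum_le_sum_of_subset_of_nonneg (Finset.subset_univ _)
          (fun v _ _ => Finset.sum_nonneg fun w _ => hT0 v w)
      rw [Finset.sum_pair hne] at h2
      have e1 : T 0 (Fin.last n) = (f (Fin.last n) - f 0) * (g (Fin.last n) - g 0) := by
        simp only [hT]; ring
      have e2 : T (Fin.last n) 0 = (f (Fin.last n) - f 0) * (g (Fin.last n) - g 0) := by
        simp only [hT]
      linarith
  linarith

/-- Quantitative positive association of the uniform measure, first form. -/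
theorem uniform_rem {A B : Set (Perm (Fin (n + 1)))} (hA : StrongUpset A) (hB : StrongUpset B) :
    (num A : ℝ) * num B + ((num (sec A (Fin.last n)) : ℝ) - num (sec A 0)) *
      ((num (sec B (Fin.last n)) : ℝ) - num (sec B 0)) ≤ ((n + 1).factorial : ℝ) * num (A ∩ B) := by
  have h1 := cheb_rem (fun v => (num (sec A v) : ℝ)) (fun v => (num (sec B v) : ℝ))
    (fun v w h => by simp only; exact_mod_cast num_mono (sec_mono hA h))
    (fun v w h => by simp only; exact_mod_cast num_mono (sec_mono hB h))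
  have h2 : ∑ v, (num (sec A v) : ℝ) * num (sec B v) ≤
      ∑ v : Fin (n + 1), (n.factorial : ℝ) * num (sec (A ∩ B) v) :=
    Finset.sum_le_sum fun v _ => by
      exact_mod_cast uniform_pa n _ _ (sec_upset hA v) (sec_upset hB v)
  rw [← Finset.mul_sum] at h2
  rw [num_succ A, num_succ B, num_succ (A ∩ B), Nat.factorial_succ]
  push_cast
  have hn1 : (0 : ℝ) ≤ (n : ℝ) + 1 := by positivity
  have h3 := mul_le_mul_of_nonneg_left h2 hn1
  linarith

/-- The four products: odds ratio of the uniform measure. -/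
theorem odds {m : ℕ} (hm : 2 ≤ m) {A B : Set (Perm (Fin m))} (hA : StrongUpset A)
    (hB : StrongUpset B) :
    ((m : ℝ) ^ 4) * ((num (A ∩ Bᶜ) : ℝ) * num (Aᶜ ∩ B)) ≤
      ((m : ℝ) ^ 4 - 1) * ((num (A ∩ B) : ℝ) * num (Aᶜ ∩ Bᶜ)) := by
  obtain ⟨n, rfl⟩ : ∃ n, m = n + 1 := ⟨m - 1, by omega⟩
  have hn : 1 ≤ n := by omega
  -- the four numbers
  have c1 : num A = num (A ∩ B) + num (A ∩ Bᶜ) := by
    classical
    simp only [num_eq, Finset.card_filter, ← Finset.sum_add_distrib]
    apply Finset.sum_congr rfl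
    intro a _
    by_cases h1 : a ∈ A <;> by_cases h2 : a ∈ B <;> simp [h1, h2]
  have c2 : num B = num (A ∩ B) + num (Aᶜ ∩ B) := by
    classical
    simp only [num_eq, Finset.card_filter, ← Finset.sum_add_distrib]
    apply Finset.sum_congr rfl
    intro a _
    by_cases h1 : a ∈ A <;> by_cases h2 : a ∈ B <;> simp [h1, h2]
  have c3 : num Aᶜ = num (Aᶜ ∩ B) + num (Aᶜ ∩ Bᶜ) := by
    classical
    simp only [num_eq, Finset.card_filter, ← Finset.sum_add_distrib]
    apply Finset.sum_congr rfl
    intro a _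
    by_cases h1 : a ∈ A <;> by_cases h2 : a ∈ B <;> simp [h1, h2]
  have c4 := num_compl A
  have c5 := num_compl B
  have hpa := uniform_pa (n + 1) A B hA hB
  have hrem := uniform_rem hA hB
  have vA := var_le hA
  have vB := var_le hB
  have e : (n - 1 + 1 : ℕ) = n := by omega
  rw [e] at vA vB
  set N : ℝ := ((n + 1).factorial : ℝ) with hN
  set x : ℝ := (num (A ∩ B) : ℝ) with hx
  set z : ℝ := (num (A ∩ Bᶜ) : ℝ) with hz
  set w : ℝ := (num (Aᶜ ∩ B) : ℝ) with hw
  set y : ℝ := (num (Aᶜ ∩ Bᶜ) : ℝ) with hy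
  set DA : ℝ := (num (sec A (Fin.last n)) : ℝ) - num (sec A 0) with hDA
  set DB : ℝ := (num (sec B (Fin.last n)) : ℝ) - num (sec B 0) with hDB
  have hDA0 : 0 ≤ DA := by
    have : (num (sec A 0) : ℝ) ≤ num (sec A (Fin.last n)) := by
      exact_mod_cast num_mono (sec_mono hA (Fin.zero_le _))
    linarith
  have hDB0 : 0 ≤ DB := by
    have : (num (sec B 0) : ℝ) ≤ num (sec B (Fin.last n)) := by
      exact_mod_cast num_mono (sec_mono hB (Fin.zero_le _))
    linarith
  have rA : (num A : ℝ) = x + z := by rw [hx, hz]; exact_mod_cast c1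
  have rB : (num B : ℝ) = x + w := by rw [hx, hw]; exact_mod_cast c2
  have rAc : (num Aᶜ : ℝ) = w + y := by rw [hy, hw]; exact_mod_cast c3
  have r4 : (num A : ℝ) + num Aᶜ = N := by rw [hN]; exact_mod_cast c4
  have r5 : (num B : ℝ) + num Bᶜ = N := by rw [hN]; exact_mod_cast c5
  have hx0 : 0 ≤ x := by positivity
  have hy0 : 0 ≤ y := by positivity
  have hz0 : 0 ≤ z := by positivity
  have hw0 : 0 ≤ w := by positivity
  have hNsum : N = x + y + z + w := by linarith
  have rBc : (num Bᶜ : ℝ) = z + y := by linarith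
  have hN0 : 0 < N := by
    rw [hN]; exact_mod_cast Nat.factorial_pos _
  have hpar : (x + z) * (x + w) ≤ N * x := by
    rw [← rA, ← rB, hN, hx]; exact_mod_cast hpa
  -- the difference of the products
  set T : ℝ := x * y - z * w with hT
  have hTeq : N * x - (x + z) * (x + w) = T := by rw [hNsum, hT]; ring
  have hT1 : DA * DB ≤ T := by
    rw [rA, rB] at hrem
    linarith
  -- z N ≤ |A| |Bᶜ| and w N ≤ |Aᶜ| |B|
  have k1 : z * N ≤ (x + z) * (z + y) := by
    have : (x + z) * (z + y) - z * N = T := by rw [hNsum, hT]; ring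
    nlinarith
  have k2 : w * N ≤ (w + y) * (x + w) := by
    have : (w + y) * (x + w) - w * N = T := by rw [hNsum, hT]; ring
    nlinarith
  set κ : ℝ := ((n + 1 : ℕ) : ℝ) * (n : ℝ) with hκ
  have hκ0 : 0 ≤ κ := by positivity
  have vA' : (x + z) * (w + y) ≤ κ * N * DA := by
    rw [rA, rAc] at vA; exact vA
  have vB' : (x + w) * (z + y) ≤ κ * N * DB := by
    rw [rB, rBc] at vB; exact vB
  have k3 : (z * w) * N ^ 2 ≤ (κ ^ 2 * T) * N ^ 2 := by
    calc (z * w) * N ^ 2 = (z * N) * (w * N) := by ring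
      _ ≤ ((x + z) * (z + y)) * ((w + y) * (x + w)) :=
          mul_le_mul k1 k2 (by positivity) (by positivity)
      _ = ((x + z) * (w + y)) * ((x + w) * (z + y)) := by ring
      _ ≤ (κ * N * DA) * (κ * N * DB) := mul_le_mul vA' vB' (by positivity) (by positivity)
      _ = κ ^ 2 * N ^ 2 * (DA * DB) := by ring
      _ ≤ κ ^ 2 * N ^ 2 * T := mul_le_mul_of_nonneg_left hT1 (by positivity)
      _ = (κ ^ 2 * T) * N ^ 2 := by ring
  have k4 : z * w ≤ κ ^ 2 * T := le_of_mul_le_mul_right k3 (by positivity)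
  have hκ4 : κ ^ 2 + 1 ≤ ((n + 1 : ℕ) : ℝ) ^ 4 := by
    have h1 : (1 : ℝ) ≤ n := by exact_mod_cast hn
    rw [hκ]
    push_cast
    nlinarith [mul_nonneg (by positivity : (0 : ℝ) ≤ ((n : ℝ) + 1) ^ 2) (by linarith : (0 : ℝ) ≤ 2 * (n : ℝ) + 1)]
  have hTn : 0 ≤ T := (mul_nonneg hDA0 hDB0).trans hT1
  -- conclusion
  set M : ℝ := ((n + 1 : ℕ) : ℝ) ^ 4 with hM
  have hxy : x * y = z * w + T := by rw [hT]; ring
  have hzw0 : 0 ≤ z * w := mul_nonneg hz0 hw0
  rw [hxy]
  nlinarith [mul_le_mul_of_nonneg_right hκ4 hTn]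

lemma pair_iff {q : ℝ} (A B : Set (Perm (Fin n))) :
    mass n q A * mass n q B ≤ mass n q (A ∩ B) * mass n q Set.univ ↔
      mass n q (A ∩ Bᶜ) * mass n q (Aᶜ ∩ B) ≤ mass n q (A ∩ B) * mass n q (Aᶜ ∩ Bᶜ) := by
  classical
  have c1 : mass n q A = mass n q (A ∩ B) + mass n q (A ∩ Bᶜ) := by
    simp only [mass_eq, Finset.sum_filter, ← Finset.sum_add_distrib]
    apply Finset.sum_congr rfl
    intro a _
    by_cases h1 : a ∈ A <;> by_cases h2 : a ∈ B <;> simp [h1, h2]
  have c2 : mass n q B = mass n q (A ∩ B) + mass n q (Aᶜ ∩ B) := by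
    simp only [mass_eq, Finset.sum_filter, ← Finset.sum_add_distrib]
    apply Finset.sum_congr rfl
    intro a _
    by_cases h1 : a ∈ A <;> by_cases h2 : a ∈ B <;> simp [h1, h2]
  have c3 : mass n q Set.univ = mass n q (A ∩ B) + mass n q (A ∩ Bᶜ) + mass n q (Aᶜ ∩ B)
      + mass n q (Aᶜ ∩ Bᶜ) := by
    simp only [mass_eq, Finset.sum_filter, ← Finset.sum_add_distrib]
    apply Finset.sum_congr rfl
    intro a _
    by_cases h1 : a ∈ A <;> by_cases h2 : a ∈ B <;> simp [h1, h2]
  rw [c1, c2, c3]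
  constructor <;> intro h <;> nlinarith

/-- Positive association for `1 - q ≤ 1 / (2 n ^ 5)`. -/
theorem near_one_poly {q : ℝ} (hq : 0 < q) (hq1 : q < 1)
    (hnear : 1 - 1 / (2 * (n : ℝ) ^ 5) ≤ q)
    {A B : Set (Perm (Fin n))} (hA : StrongUpset A) (hB : StrongUpset B) :
    mu n q A * mu n q B ≤ mu n q (A ∩ B) := by
  classical
  rw [mu_le_iff hq.le, pair_iff]
  rcases Nat.lt_or_ge n 2 with hn | hn
  · interval_cases n
    · norm_num at hnear
      linarith
    · have hz : mass 1 q (A ∩ Bᶜ) * mass 1 q (Aᶜ ∩ B) = 0 := by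
        by_cases h : (1 : Perm (Fin 1)) ∈ A
        · have : Aᶜ ∩ B = ∅ := by
            rw [Set.eq_empty_iff_forall_notMem]
            rintro a ⟨ha, _⟩
            apply ha
            have : a = 1 := Equiv.ext fun x => Subsingleton.elim (α := Fin 1) _ _
            rw [this]; exact h
          rw [this]
          have : mass 1 q (∅ : Set (Perm (Fin 1))) = 0 := by rw [mass_eq]; simp
          rw [this, mul_zero]
        · have : A ∩ Bᶜ = ∅ := by
            rw [Set.eq_empty_iff_forall_notMem]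
            rintro a ⟨ha, _⟩
            apply h
            have : a = 1 := Equiv.ext fun x => Subsingleton.elim (α := Fin 1) _ _
            rw [this] at ha; exact ha
          rw [this]
          have : mass 1 q (∅ : Set (Perm (Fin 1))) = 0 := by rw [mass_eq]; simp
          rw [this, zero_mul]
      rw [hz]
      exact mul_nonneg (mass_nonneg hq.le _) (mass_nonneg hq.le _)
  · have ho := odds hn hA hB
    have hn0 : (0 : ℝ) < n := by
      have : 0 < n := by omega
      exact_mod_cast this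
    have hbern : 1 - 2 * n * (1 - q) ≤ q ^ n * q ^ n := by
      have := one_add_mul_le_pow (a := q - 1) (by linarith) (2 * n)
      rw [← pow_add]
      have e : n + n = 2 * n := by ring
      rw [e]
      push_cast at this
      have e2 : 1 + (q - 1) = q := by ring
      rw [e2] at this
      linarith
    have h1q : (1 - q) * (2 * (n : ℝ) ^ 5) ≤ 1 := by
      have : 1 - q ≤ 1 / (2 * (n : ℝ) ^ 5) := by linarith
      rwa [le_div_iff₀ (by positivity)] at this
    have hM0 : (0 : ℝ) < (n : ℝ) ^ 4 := by positivity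
    have hqq : ((n : ℝ) ^ 4 - 1) ≤ (n : ℝ) ^ 4 * (q ^ n * q ^ n) := by
      have h2 := mul_le_mul_of_nonneg_left hbern hM0.le
      have h3 : (n : ℝ) ^ 4 * (1 - 2 * n * (1 - q)) = (n : ℝ) ^ 4 - (1 - q) * (2 * (n : ℝ) ^ 5) := by
        ring
      rw [h3] at h2
      linarith
    set x : ℝ := (num (A ∩ B) : ℝ) with hx
    set z : ℝ := (num (A ∩ Bᶜ) : ℝ) with hz
    set w : ℝ := (num (Aᶜ ∩ B) : ℝ) with hw
    set y : ℝ := (num (Aᶜ ∩ Bᶜ) : ℝ) with hy
    have hx0 : 0 ≤ x := by positivity
    have hy0 : 0 ≤ y := by positivity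
    have hz0 : 0 ≤ z := by positivity
    have hw0 : 0 ≤ w := by positivity
    have l1 : mass n q (A ∩ Bᶜ) * mass n q (Aᶜ ∩ B) ≤ z * w :=
      mul_le_mul (mass_le_num hq.le hq1.le _) (mass_le_num hq.le hq1.le _) (mass_nonneg hq.le _) hz0
    have l2 : (q ^ n * x) * (q ^ n * y) ≤ mass n q (A ∩ B) * mass n q (Aᶜ ∩ Bᶜ) :=
      mul_le_mul (mass_ge_num hq.le hq1.le _) (mass_ge_num hq.le hq1.le _) (by positivity)
        (mass_nonneg hq.le _)
    have l3 : z * w ≤ (q ^ n * x) * (q ^ n * y) := by
      have h4 : (n : ℝ) ^ 4 * (z * w) ≤ (n : ℝ) ^ 4 * ((q ^ n * x) * (q ^ n * y)) := by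
        calc (n : ℝ) ^ 4 * (z * w) ≤ ((n : ℝ) ^ 4 - 1) * (x * y) := ho
          _ ≤ ((n : ℝ) ^ 4 * (q ^ n * q ^ n)) * (x * y) :=
              mul_le_mul_of_nonneg_right hqq (mul_nonneg hx0 hy0)
          _ = _ := by ring
      exact le_of_mul_le_mul_left h4 hM0
    exact l1.trans (l3.trans l2)

end Pool.Agent.H.MP_f011a7_co
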