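import Pool.Agent.H.MP_f011a7_co.A1

/-!
# MP_f011a7_co: the suffix inequality
-/

set_option autoImplicit false

namespace FixPA

open Finset Equiv

variable {n : ℕ}

/-- the difference of the two `Xs` sums as one sum -/
theorem Xs_sub_Xs {t : ℝ} {f : Equiv.Perm (Fin n) → ℝ} {I : Finset (Fin n)}
    {ρ : Equiv.Perm (Fin n)} {z j l : Fin n} (hzI : z ∈ I) (hjI : j ∈ I) (hlI : l ∈ I)
    (hzj : z ≠ j) (hzl : z ≠ l) (hjl : j ≠ l) :
    Xs t I ρ z f l j - Xs t I ρ z f j l
      = ∑ σ ∈ (Cy I ρ z l).filter (fun σ => σ j = j),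
          wt t ((I.erase l).erase j) σ * (f σ - f (σ * (swap z j * swap j l))) := by
  have hzl' : l ≠ z := hzl.symm
  have hzj' : j ≠ z := hzj.symm
  have hjl' : l ≠ j := hjl.symm
  have key : Xs t I ρ z f j l = ∑ σ ∈ (Cy I ρ z l).filter (fun σ => σ j = j),
          wt t ((I.erase l).erase j) σ * f (σ * (swap z j * swap j l)) := by
    unfold Xs
    symm
    refine Finset.sum_bij' (fun σ _ => σ * (swap z j * swap j l))
      (fun σ _ => σ * (swap j l * swap z j)) ?_ ?_ ?_ ?_ ?_
    · intro σ hσ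
      rw [mem_filter, mem_Cy] at hσ ⊢
      obtain ⟨⟨h1, h2⟩, h3⟩ := hσ
      refine ⟨⟨?_, ?_⟩, ?_⟩
      · rw [← mul_assoc]
        exact mul_swap_mem_Om (mul_swap_mem_Om h1 hzI hjI) hjI hlI
      · rw [Equiv.Perm.mul_apply, Equiv.Perm.mul_apply,
          Equiv.swap_apply_of_ne_of_ne hzj hzl, Equiv.swap_apply_left, h3]
      · rw [Equiv.Perm.mul_apply, Equiv.Perm.mul_apply,
          Equiv.swap_apply_right, Equiv.swap_apply_right, h2]
    · intro σ hσ
      rw [mem_filter, mem_Cy] at hσ ⊢
      obtain ⟨⟨h1, h2⟩, h3⟩ := hσ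
      refine ⟨⟨?_, ?_⟩, ?_⟩
      · rw [← mul_assoc]
        exact mul_swap_mem_Om (mul_swap_mem_Om h1 hjI hlI) hzI hjI
      · rw [Equiv.Perm.mul_apply, Equiv.Perm.mul_apply,
          Equiv.swap_apply_left, Equiv.swap_apply_left, h3]
      · rw [Equiv.Perm.mul_apply, Equiv.Perm.mul_apply,
          Equiv.swap_apply_right, Equiv.swap_apply_of_ne_of_ne hzj hzl, h2]
    · intro σ _
      rw [mul_assoc]
      have : swap z j * swap j l * (swap j l * swap z j) = 1 := by
        rw [mul_assoc, ← mul_assoc (swap j l), Equiv.swap_mul_self, one_mul, Equiv.swap_mul_self]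
      rw [this, mul_one]
    · intro σ _
      rw [mul_assoc]
      have : swap j l * swap z j * (swap z j * swap j l) = 1 := by
        rw [mul_assoc, ← mul_assoc (swap z j), Equiv.swap_mul_self, one_mul, Equiv.swap_mul_self]
      rw [this, mul_one]
    · intro σ hσ
      rw [mem_filter, mem_Cy] at hσ
      obtain ⟨⟨h1, h2⟩, h3⟩ := hσ
      congr 1
      apply wt_ext
      intro i
      rw [mem_erase, mem_erase, mem_erase, mem_erase]
      by_cases hiz : i = z
      · subst hiz
        have e1 : (σ * (swap i j * swap j l)) i = j := by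
          rw [Equiv.Perm.mul_apply, Equiv.Perm.mul_apply,
            Equiv.swap_apply_of_ne_of_ne hzj hzl, Equiv.swap_apply_left, h3]
        rw [e1, h2]
        constructor
        · rintro ⟨_, h⟩; exact absurd h hzl'
        · rintro ⟨_, h⟩; exact absurd h hzj'
      · by_cases hij : i = j
        · subst hij
          constructor
          · rintro ⟨⟨h, _, _⟩, _⟩; exact absurd rfl h
          · rintro ⟨⟨_, h, _⟩, _⟩; exact absurd rfl h
        · by_cases hil : i = l
          · subst hil
            constructor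
            · rintro ⟨⟨_, h, _⟩, _⟩; exact absurd rfl h
            · rintro ⟨⟨h, _, _⟩, _⟩; exact absurd rfl h
          · have e1 : (σ * (swap z j * swap j l)) i = σ i := by
              rw [Equiv.Perm.mul_apply, Equiv.Perm.mul_apply,
                Equiv.swap_apply_of_ne_of_ne hij hil, Equiv.swap_apply_of_ne_of_ne hiz hij]
            rw [e1]
            tauto
  rw [key]
  unfold Xs
  simp only [mul_sub, Finset.sum_sub_distrib]

/-- the bound of one term -/
theorem term_le {t : ℝ} (ht : 0 ≤ t) {f : Equiv.Perm (Fin n) → ℝ} (hf : Mon f)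
    {I : Finset (Fin n)} {σ : Equiv.Perm (Fin n)} {z j l : Fin n}
    (hzj : z < j) (hjl : j < l) (h2 : σ z = l) (h3 : σ j = j) :
    wt t ((I.erase l).erase j) σ * (f σ - f (σ * (swap z j * swap j l)))
      ≤ if l < σ l then wt t ((I.erase j).erase (σ l)) (σ * swap z j)
          * (f (σ * swap z j) - f (swap j (σ l) * (σ * swap z j))) else 0 := by
  have hzl : z < l := hzj.trans hjl
  have hne1 : σ l ≠ l := by
    intro h
    exact hzl.ne' (σ.injective (h.trans h2.symm))
  have hne2 : σ l ≠ j := by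
    intro h
    exact hjl.ne' (σ.injective (h.trans h3.symm))
  have hup : f σ ≤ f (σ * swap z j) := hf.up hzj (by rw [h2, h3]; exact hjl)
  have ez : (σ * swap z j) z = j := by rw [Equiv.Perm.mul_apply, Equiv.swap_apply_left, h3]
  have ej : (σ * swap z j) j = l := by rw [Equiv.Perm.mul_apply, Equiv.swap_apply_right, h2]
  have el : (σ * swap z j) l = σ l := by
    rw [Equiv.Perm.mul_apply, Equiv.swap_apply_of_ne_of_ne hzl.ne' hjl.ne']
  split_ifs with hx
  · -- the value of the row `l` is above `l`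
    have hwt : wt t ((I.erase l).erase j) σ
        = wt t ((I.erase j).erase (σ l)) (σ * swap z j) := by
      apply wt_ext
      intro i
      rw [mem_erase, mem_erase, mem_erase, mem_erase]
      by_cases hiz : i = z
      · subst hiz
        rw [ez, h2]
        constructor
        · rintro ⟨_, h⟩; exact absurd h hzl.ne'
        · rintro ⟨_, h⟩; exact absurd h hzj.ne'
      · by_cases hij : i = j
        · subst hij
          constructor
          · rintro ⟨⟨h, _, _⟩, _⟩; exact absurd rfl h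
          · rintro ⟨⟨_, h, _⟩, _⟩; exact absurd rfl h
        · have e1 : (σ * swap z j) i = σ i := by
            rw [Equiv.Perm.mul_apply, Equiv.swap_apply_of_ne_of_ne hiz hij]
          rw [e1]
          constructor
          · rintro ⟨⟨_, h5, h6⟩, h7⟩
            refine ⟨⟨?_, hij, h6⟩, h7⟩
            intro hh
            rw [hh] at h7
            exact hne1 (σ.injective h7)
          · rintro ⟨⟨h4, _, h6⟩, h7⟩
            refine ⟨⟨hij, ?_, h6⟩, h7⟩
            intro hh
            rw [hh] at h7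
            exact hne1 h7
    rw [hwt]
    apply mul_le_mul_of_nonneg_left _ (wt_nonneg ht _ _)
    have hlow : f (swap j (σ l) * (σ * swap z j)) ≤ f (σ * (swap z j * swap j l)) := by
      have a1 : (swap j (σ l) * (σ * swap z j)) z = σ l := by
        rw [Equiv.Perm.mul_apply, ez, Equiv.swap_apply_left]
      have a2 : (swap j (σ l) * (σ * swap z j)) j = l := by
        rw [Equiv.Perm.mul_apply, ej, Equiv.swap_apply_of_ne_of_ne hjl.ne' hne1.symm]
      have a3 : (swap j (σ l) * (σ * swap z j)) l = j := by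
        rw [Equiv.Perm.mul_apply, el, Equiv.swap_apply_right]
      have b1 := hf.up (σ := swap j (σ l) * (σ * swap z j)) hzj (by rw [a1, a2]; exact hx)
      have b2 := hf.up (σ := swap j (σ l) * (σ * swap z j) * swap z j) hzl (by
        rw [Equiv.Perm.mul_apply _ (swap z j) z, Equiv.swap_apply_left, a2,
          Equiv.Perm.mul_apply _ (swap z j) l,
          Equiv.swap_apply_of_ne_of_ne hzl.ne' hjl.ne', a3]
        exact hjl)
      refine (b1.trans b2).trans (le_of_eq ?_)
      congr 1
      -- both sides have the rows `(z, j, l) -> (j, σ l, l)`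
      have e0 : swap j (σ l) * σ = σ * swap j l := by
        rw [Equiv.mul_swap_eq_swap_mul, h3]
      have e1 : swap j (σ l) * (σ * swap z j) * swap z j * swap z l
          = σ * (swap j l * swap z l) := by
        rw [mul_assoc _ (swap z j) (swap z l), ← mul_assoc (swap j (σ l)) σ (swap z j), e0]
        rw [mul_assoc (σ * swap j l) (swap z j), ← mul_assoc (swap z j) (swap z j),
          Equiv.swap_mul_self, one_mul, mul_assoc]
      rw [e1]
      congr 1
      ext i
      rw [Equiv.Perm.mul_apply, Equiv.Perm.mul_apply]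
      by_cases hiz : i = z
      · subst hiz
        rw [Equiv.swap_apply_left, Equiv.swap_apply_right,
          Equiv.swap_apply_of_ne_of_ne hzj.ne hzl.ne, Equiv.swap_apply_left]
      · by_cases hij : i = j
        · subst hij
          rw [Equiv.swap_apply_of_ne_of_ne hzj.ne' hjl.ne, Equiv.swap_apply_left,
            Equiv.swap_apply_of_ne_of_ne hzl.ne' hjl.ne']
        · by_cases hil : i = l
          · subst hil
            rw [Equiv.swap_apply_right, Equiv.swap_apply_of_ne_of_ne hzj.ne hzl.ne,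
              Equiv.swap_apply_right, Equiv.swap_apply_right]
          · rw [Equiv.swap_apply_of_ne_of_ne hiz hil, Equiv.swap_apply_of_ne_of_ne hij hil,
              Equiv.swap_apply_of_ne_of_ne hiz hij]
    linarith
  · -- the value of the row `l` is below `l`
    have hx' : σ l < l := lt_of_le_of_ne (not_lt.1 hx) hne1
    have h4 := hf.up (σ := σ * swap z j) hjl (by rw [ej, el]; exact hx')
    rw [mul_assoc] at h4
    apply mul_nonpos_of_nonneg_of_nonpos (wt_nonneg ht _ _)
    linarith

theorem core_S1 {t : ℝ} (ht : 0 ≤ t) {f : Equiv.Perm (Fin n) → ℝ} (hf : Mon f)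
    {I : Finset (Fin n)} {ρ : Equiv.Perm (Fin n)} (hc : Cls I ρ) {z : Fin n} (hzI : z ∈ I)
    (hz : ∀ i ∈ I, z ≤ i) {j : Fin n} (hj : j ∈ Sp I ρ z) :
    ∑ l ∈ (Sp I ρ z).filter (fun l => j < l), (Xs t I ρ z f l j - Xs t I ρ z f j l)
      ≤ ∑ u ∈ (Sp I ρ z).filter (fun u => j < u), gs t I ρ z f j u := by
  classical
  have hzj : z < j := (mem_Sp.1 hj).2
  have hjI : j ∈ I := Sp_sub hc hzI hj
  have hjJ : j ∈ I.image ρ := (mem_Sp.1 hj).1
  have hKf : ∀ l ∈ (Sp I ρ z).filter (fun l => j < l),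
      l ∈ I ∧ l ∈ I.image ρ ∧ j < l := by
    intro l hl
    rw [mem_filter] at hl
    exact ⟨Sp_sub hc hzI hl.1, (mem_Sp.1 hl.1).1, hl.2⟩
  have hKm : ∀ x, x ∈ I.image ρ → j < x → x ∈ (Sp I ρ z).filter (fun l => j < l) := by
    intro x hx hjx
    rw [mem_filter]
    exact ⟨mem_Sp.2 ⟨hx, hzj.trans hjx⟩, hjx⟩
  set K := (Sp I ρ z).filter (fun l => j < l) with hK
  -- the bound by the terms with `l < σ l`
  have step : ∑ l ∈ K, (Xs t I ρ z f l j - Xs t I ρ z f j l)
      ≤ ∑ l ∈ K, ∑ σ ∈ (Cy I ρ z l).filter (fun σ => σ j = j),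
          (if l < σ l then wt t ((I.erase j).erase (σ l)) (σ * swap z j)
            * (f (σ * swap z j) - f (swap j (σ l) * (σ * swap z j))) else 0) := by
    apply Finset.sum_le_sum
    intro l hl
    obtain ⟨hlI, _, hjl⟩ := hKf l hl
    rw [Xs_sub_Xs hzI hjI hlI hzj.ne (hzj.trans hjl).ne hjl.ne]
    apply Finset.sum_le_sum
    intro σ hσ
    rw [mem_filter, mem_Cy] at hσ
    exact term_le ht hf hzj hjl hσ.1.2 hσ.2
  refine step.trans ?_
  unfold gs
  rw [Finset.sum_sigma', Finset.sum_sigma']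
  rw [← Finset.sum_filter (fun x : (_ : Fin n) × Equiv.Perm (Fin n) => x.1 < x.2 x.1)
    (fun x : (_ : Fin n) × Equiv.Perm (Fin n) =>
      wt t ((I.erase j).erase (x.2 x.1)) (x.2 * swap z j)
            * (f (x.2 * swap z j) - f (swap j (x.2 x.1) * (x.2 * swap z j))))]
  set S := (K.sigma fun l => (Cy I ρ z l).filter (fun σ => σ j = j)).filter
    (fun x : (_ : Fin n) × Equiv.Perm (Fin n) => x.1 < x.2 x.1) with hS
  -- the map into the pairs `(u, sh)`
  let m : (_ : Fin n) × Equiv.Perm (Fin n) → (_ : Fin n) × Equiv.Perm (Fin n) :=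
    fun x => ⟨x.2 x.1, x.2 * swap z j⟩
  have hSf : ∀ x ∈ S, x.1 ∈ K ∧ x.2 ∈ Om I ρ ∧ x.2 z = x.1 ∧ x.2 j = j ∧ x.1 < x.2 x.1 := by
    intro x hx
    rw [hS, mem_filter, mem_sigma] at hx
    obtain ⟨⟨h1, h2⟩, h3⟩ := hx
    rw [mem_filter, mem_Cy] at h2
    exact ⟨h1, h2.1.1, h2.1.2, h2.2, h3⟩
  have hinj : Set.InjOn m (S : Set ((_ : Fin n) × Equiv.Perm (Fin n))) := by
    intro x hx y hy hxy
    have hx' := hSf x (by simpa using hx)
    have hy' := hSf y (by simpa using hy)
    have h1 : x.2 * swap z j = y.2 * swap z j := by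
      have := congrArg Sigma.snd hxy
      exact this
    have h2 : x.2 = y.2 := mul_right_cancel h1
    have h3 : x.1 = y.1 := by
      rw [← hx'.2.2.1, ← hy'.2.2.1, h2]
    exact Sigma.ext h3 (heq_of_eq h2)
  have himg : ∑ x ∈ S, wt t ((I.erase j).erase (x.2 x.1)) (x.2 * swap z j)
            * (f (x.2 * swap z j) - f (swap j (x.2 x.1) * (x.2 * swap z j)))
      = ∑ y ∈ S.image m, wt t ((I.erase j).erase y.1) y.2 * (f y.2 - f (swap j y.1 * y.2)) := by
    rw [Finset.sum_image hinj]
  rw [himg]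
  apply Finset.sum_le_sum_of_subset_of_nonneg
  · intro y hy
    rw [mem_image] at hy
    obtain ⟨x, hx, rfl⟩ := hy
    obtain ⟨h1, h2, h3, h4, h5⟩ := hSf x hx
    obtain ⟨hlI, _, hjl⟩ := hKf _ h1
    rw [mem_sigma]
    refine ⟨hKm _ ((mem_image_of_Om h2 _).2 hlI) (hjl.trans h5), ?_⟩
    rw [mem_Cy]
    refine ⟨mul_swap_mem_Om h2 hzI hjI, ?_⟩
    change (x.2 * swap z j) z = j
    rw [Equiv.Perm.mul_apply, Equiv.swap_apply_left, h4]
  · intro y hy _
    rw [mem_sigma] at hy
    obtain ⟨_, hlJ, hjl⟩ := hKf _ hy.1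
    exact mul_nonneg (wt_nonneg ht _ _) (gain_nonneg hf hz hjl hlJ hy.2)

end FixPA
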