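import Pool.Agent.H.MP_f011a7_co.A1

/-!
# MP_f011a7_co: preparations for the comparison of old and special columns
-/

set_option autoImplicit false

namespace FixPA

open Finset Equiv

variable {n : ℕ}

/-- the part `σ z = l`, `σ l = u` of the column `l` -/
theorem term_eq {t : ℝ} {f : Equiv.Perm (Fin n) → ℝ} {I : Finset (Fin n)}
    {ρ : Equiv.Perm (Fin n)} {z l u : Fin n} (hl : l ∈ I.image ρ) (hu : u ∈ I.image ρ)
    (hul : u ≠ l) :
    ∑ σ ∈ (Cy I ρ z l).filter (fun σ => σ l = u), wt t (I.erase l) σ * f σ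
      = Xs t I ρ z f u l + Gs t I ρ z f l u := by
  have h1 : Xs t I ρ z f u l = ∑ σ ∈ (Cy I ρ z l).filter (fun σ => σ l = u),
      wt t ((I.erase l).erase u) σ * f (swap l u * σ) := by
    unfold Xs
    symm
    refine Finset.sum_bij' (fun σ _ => swap l u * σ) (fun σ _ => swap l u * σ) ?_ ?_ ?_ ?_ ?_
    · intro σ hσ
      rw [mem_filter] at hσ ⊢
      refine ⟨swap_mul_mem_Cy hl hu hσ.1, ?_⟩
      rw [Equiv.Perm.mul_apply, hσ.2, Equiv.swap_apply_right]
    · intro σ hσ
      rw [mem_filter] at hσ ⊢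
      refine ⟨?_, ?_⟩
      · rw [Equiv.swap_comm]; exact swap_mul_mem_Cy hu hl hσ.1
      · rw [Equiv.Perm.mul_apply, hσ.2, Equiv.swap_apply_left]
    · intro σ _
      rw [← mul_assoc, Equiv.swap_mul_self, one_mul]
    · intro σ _
      rw [← mul_assoc, Equiv.swap_mul_self, one_mul]
    · intro σ _
      rw [Finset.erase_right_comm (a := u), wt_swap]
  rw [h1]
  unfold Gs
  rw [← Finset.sum_add_distrib]
  apply Finset.sum_congr rfl
  intro σ hσ
  rw [mem_filter] at hσ
  have h2 : wt t ((I.erase l).erase u) σ = wt t (I.erase l) σ := by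
    apply wt_erase_of_ne
    intro h
    exact hul (σ.injective (h.trans hσ.2.symm))
  rw [h2]
  ring

/-- `H_l` against the columns of the board without the fixed point `l` -/
theorem Hj_le_Xs {t : ℝ} (ht : 0 ≤ t) {f : Equiv.Perm (Fin n) → ℝ} (hf : Mon f)
    {I : Finset (Fin n)} {ρ : Equiv.Perm (Fin n)} (hc : Cls I ρ) {z : Fin n} (hzI : z ∈ I)
    {l : Fin n} (hl : l ∈ Sp I ρ z) :
    Hj t I ρ z f l ≤ ∑ u ∈ (I.image ρ).erase l, Xs t I ρ z f u l
      + ∑ u ∈ (Sp I ρ z).filter (fun u => l < u), Gs t I ρ z f l u := by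
  have hlI : l ∈ I := Sp_sub hc hzI hl
  rw [mem_Sp] at hl
  obtain ⟨hlJ, hzl⟩ := hl
  have h1 : Hj t I ρ z f l = ∑ u ∈ (I.image ρ).erase l,
      ∑ σ ∈ (Cy I ρ z l).filter (fun σ => σ l = u), wt t (I.erase l) σ * f σ := by
    unfold Hj
    rw [Finset.sum_fiberwise_of_maps_to]
    intro σ hσ
    rw [mem_Cy] at hσ
    rw [mem_erase]
    refine ⟨?_, (mem_image_of_Om hσ.1 l).2 hlI⟩
    intro h
    exact (ne_of_gt hzl) (σ.injective (h.trans hσ.2.symm))
  rw [h1, Finset.sum_congr rfl (fun u hu => term_eq (t := t) (f := f) hlJ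
    (mem_of_mem_erase hu) (ne_of_mem_erase hu)), Finset.sum_add_distrib]
  apply add_le_add_right
  have h2 : (Sp I ρ z).filter (fun u => l < u) = ((I.image ρ).erase l).filter (fun u => l < u) := by
    ext u
    rw [mem_filter, mem_filter, mem_Sp, mem_erase]
    constructor
    · rintro ⟨⟨h3, _⟩, h4⟩; exact ⟨⟨ne_of_gt h4, h3⟩, h4⟩
    · rintro ⟨⟨_, h3⟩, h4⟩; exact ⟨⟨h3, hzl.trans h4⟩, h4⟩
  rw [h2, Finset.sum_filter]
  apply Finset.sum_le_sum
  intro u hu
  rw [mem_erase] at hu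
  by_cases hlu : l < u
  · rw [if_pos hlu]
  · rw [if_neg hlu]
    unfold Gs
    apply Finset.sum_nonpos
    intro σ hσ
    rw [mem_filter, mem_Cy] at hσ
    apply mul_nonpos_of_nonneg_of_nonpos (wt_nonneg ht _ _)
    have hul : u < l := lt_of_le_of_ne (not_lt.1 hlu) hu.1
    have := hf.left_ge (σ := σ) hul (by
      rw [← hσ.2, Equiv.symm_apply_apply]
      have : σ.symm l = z := by rw [← hσ.1.2, Equiv.symm_apply_apply]
      rw [this]
      exact hzl)
    rw [Equiv.swap_comm u l] at this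
    linarith

end FixPA
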