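import Pool.Agent.H.MP_f011a7_co.Defs

namespace Pool.Agent.H.MP_f011a7_co

open Equiv Finset

variable {n : ℕ}

/-- Complement of a strong up-set, in terms of positions. -/
lemma down_step {A : Set (Perm (Fin n))} (hA : StrongUpset A) {c : Perm (Fin n)} (hc : c ∉ A)
    {k l : Fin n} (hkl : k < l) (h : c k < c l) : c * swap k l ∉ A := by
  intro hmem
  apply hc
  have h1 := hA _ hmem (c k) (c l) h (by
    have e1 : (c * swap k l).symm (c l) = k := by
      rw [Equiv.symm_apply_eq]; simp
    have e2 : (c * swap k l).symm (c k) = l := by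
      rw [Equiv.symm_apply_eq]; simp
    rw [e1, e2]; exact hkl)
  have h2 : swap (c k) (c l) * (c * swap k l) = c := by
    have : swap (c k) (c l) * c = c * swap k l := by
      rw [Equiv.swap_mul_eq_mul_swap]; simp
    rw [← mul_assoc, this, mul_assoc, swap_mul_self, mul_one]
  rwa [h2] at h1

lemma up_step {A : Set (Perm (Fin n))} (hA : StrongUpset A) {c : Perm (Fin n)} (hc : c ∈ A)
    {k l : Fin n} (hkl : k < l) (h : c l < c k) : c * swap k l ∈ A := by
  have h1 := hA c hc (c l) (c k) h (by simpa using hkl)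
  have : swap (c l) (c k) * c = c * swap k l := by
    rw [Equiv.swap_comm, Equiv.swap_mul_eq_mul_swap]; simp
  rwa [this] at h1

/-- The statistic `∑ k · c k`. -/
def pot (c : Perm (Fin n)) : ℕ := ∑ k : Fin n, (k : ℕ) * (c k : ℕ)

lemma pot_swap_lt {c : Perm (Fin n)} {k l : Fin n} (hkl : k < l) (h : c k < c l) :
    pot (c * swap k l) < pot c := by
  have hne : k ≠ l := hkl.ne
  unfold pot
  have hl : l ∈ univ.erase k := by simp [hne.symm]
  rw [← Finset.add_sum_erase _ _ (mem_univ k), ← Finset.add_sum_erase univ (fun j : Fin n => (j : ℕ) * (c j : ℕ)) (mem_univ k),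
    ← Finset.add_sum_erase _ _ hl, ← Finset.add_sum_erase _ (fun j : Fin n => (j : ℕ) * (c j : ℕ)) hl]
  have hrest : ∑ x ∈ (univ.erase k).erase l, (x : ℕ) * ((c * swap k l) x : ℕ)
      = ∑ x ∈ (univ.erase k).erase l, (x : ℕ) * (c x : ℕ) := by
    apply Finset.sum_congr rfl
    intro x hx
    simp only [mem_erase, mem_univ, and_true] at hx
    rw [Perm.mul_apply, swap_apply_of_ne_of_ne hx.2 hx.1]
  rw [hrest]
  have e1 : (c * swap k l) k = c l := by simp
  have e2 : (c * swap k l) l = c k := by simp
  rw [e1, e2]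
  have h1 : (k : ℕ) < l := hkl
  have h2 : (c k : ℕ) < c l := h
  nlinarith

/-- From a member of a family whose members can be lowered, one reaches a member with the same
support bound which is decreasing on `X`. -/
lemma exists_anti {D : Set (Perm (Fin n))}
    (hD : ∀ c ∈ D, ∀ k l : Fin n, k < l → c k < c l → c * swap k l ∈ D)
    (X : Finset (Fin n)) {a : Perm (Fin n)} (ha : a ∈ D) (hX : ∀ k, k ∉ X → a k = k) :
    ∃ c ∈ D, (∀ k, k ∉ X → c k = k) ∧ ∀ k ∈ X, ∀ l ∈ X, k < l → c l < c k := by
  classical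
  obtain ⟨c, hc, hmin⟩ := Finset.exists_min_image
    (univ.filter fun c : Perm (Fin n) => c ∈ D ∧ ∀ k, k ∉ X → c k = k) pot
    ⟨a, by simp [ha]; exact hX⟩
  simp only [mem_filter, mem_univ, true_and] at hc hmin
  refine ⟨c, hc.1, hc.2, ?_⟩
  intro k hk l hl hkl
  by_contra hcon
  have hlt : c k < c l := lt_of_le_of_ne (not_lt.mp hcon) (fun h => hkl.ne (c.injective h))
  have h1 := hmin (c * swap k l) ⟨hD c hc.1 k l hkl hlt, by
    intro j hj
    have hjk : j ≠ k := fun h => hj (h ▸ hk)
    have hjl : j ≠ l := fun h => hj (h ▸ hl)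
    rw [Perm.mul_apply, swap_apply_of_ne_of_ne hjk hjl]
    exact hc.2 j hj⟩
  exact absurd (pot_swap_lt hkl hlt) (not_lt.mpr h1)

/-- Uniqueness of the decreasing permutation of `X`. -/
lemma anti_unique (X : Finset (Fin n)) {c d : Perm (Fin n)}
    (hc : ∀ k, k ∉ X → c k = k) (hc' : ∀ k ∈ X, ∀ l ∈ X, k < l → c l < c k)
    (hd : ∀ k, k ∉ X → d k = k) (hd' : ∀ k ∈ X, ∀ l ∈ X, k < l → d l < d k) : c = d := by
  have key : ∀ (m : ℕ) (k : Fin n), (k : ℕ) < m → c k = d k := by
    intro m
    induction m with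
    | zero => intro k hk; omega
    | succ m ih =>
      intro k hk
      by_cases hkX : k ∈ X
      · -- both images lie in X
        have main : ∀ (c d : Perm (Fin n)), (∀ k, k ∉ X → c k = k) →
            (∀ k ∈ X, ∀ l ∈ X, k < l → c l < c k) → (∀ k, k ∉ X → d k = k) →
            (∀ j : Fin n, (j : ℕ) < m → c j = d j) → ¬ (c k < d k) := by
          intro c d hc hc' hd hih hlt
          obtain ⟨l, hl⟩ := c.surjective (d k)
          have hdk : d k ∈ X := by
            by_contra h
            have := hd _ h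
            have h2 : d k = k := d.injective this
            exact h (by rw [h2]; exact hkX)
          have hlX : l ∈ X := by
            by_contra h
            rw [hc l h] at hl
            exact h (hl ▸ hdk)
          rcases lt_trichotomy l k with h | h | h
          · have := hih l (by have : (l : ℕ) < k := h; omega)
            rw [this] at hl
            exact h.ne (d.injective hl)
          · subst h; exact hlt.ne hl
          · have := hc' k hkX l hlX h
            rw [hl] at this
            exact lt_asymm this hlt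
        rcases lt_trichotomy (c k) (d k) with h | h | h
        · exact absurd h (main c d hc hc' hd ih)
        · exact h
        · exact absurd h (main d c hd hd' hc (fun j hj => (ih j hj).symm))
      · rw [hc k hkX, hd k hkX]
  exact Equiv.ext fun k => key n k k.2

/-- The number of moved points. -/
def cost (a : Perm (Fin n)) : ℕ := (univ.filter fun k => a k ≠ k).card

lemma cost_eq (a : Perm (Fin n)) : n - fixCount a = cost a := by
  have h := Finset.card_filter_add_card_filter_not (s := (univ : Finset (Fin n))) (fun k => a k = k)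
  rw [Finset.card_univ, Fintype.card_fin] at h
  unfold fixCount cost
  simp only [ne_eq]
  have e : ∀ (a b c : ℕ), a + b = c → c - a = b := by intro a b c h; omega
  convert e _ _ _ h using 1

lemma cost_le_card (X : Finset (Fin n)) {a : Perm (Fin n)} (h : ∀ k, k ∉ X → a k = k) :
    cost a ≤ X.card := by
  apply Finset.card_le_card
  intro k hk
  simp only [mem_filter, mem_univ, true_and] at hk
  by_contra hkX
  exact hk (h k hkX)

lemma cost_one : cost (1 : Perm (Fin n)) = 0 := by simp [cost]

lemma cost_le (a : Perm (Fin n)) : cost a ≤ n := by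
  have := Finset.card_le_univ (univ.filter fun k => a k ≠ k)
  simpa [cost] using this

lemma cost_pos {a : Perm (Fin n)} (h : a ≠ 1) : 0 < cost a := by
  rw [cost, Finset.card_pos]
  by_contra hcon
  rw [Finset.not_nonempty_iff_eq_empty, Finset.filter_eq_empty_iff] at hcon
  apply h
  ext k
  have := @hcon k (mem_univ k)
  simp at this
  simp [this]

/-- The support as a finset. -/
def supp (a : Perm (Fin n)) : Finset (Fin n) := univ.filter fun k => a k ≠ k

lemma mem_supp {a : Perm (Fin n)} {k : Fin n} : k ∈ supp a ↔ a k ≠ k := by simp [supp]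

lemma supp_nonempty {a : Perm (Fin n)} (h : a ≠ 1) : (supp a).Nonempty := by
  have := cost_pos h
  rwa [cost, Finset.card_pos] at this

/-- Overlapping supports: a common lower bound of small cost. -/
lemma overlap {D E : Set (Perm (Fin n))}
    (hD : ∀ c ∈ D, ∀ k l : Fin n, k < l → c k < c l → c * swap k l ∈ D)
    (hE : ∀ c ∈ E, ∀ k l : Fin n, k < l → c k < c l → c * swap k l ∈ E)
    {a b : Perm (Fin n)} (ha : a ∈ D) (hb : b ∈ E) {x : Fin n} (hxa : x ∈ supp a)
    (hxb : x ∈ supp b) : ∃ c, c ∈ D ∧ c ∈ E ∧ cost c + 1 ≤ cost a + cost b := by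
  classical
  set X := supp a ∪ supp b with hX
  have hXa : ∀ k, k ∉ X → a k = k := by
    intro k hk
    by_contra h
    exact hk (Finset.mem_union_left _ (mem_supp.mpr h))
  have hXb : ∀ k, k ∉ X → b k = k := by
    intro k hk
    by_contra h
    exact hk (Finset.mem_union_right _ (mem_supp.mpr h))
  obtain ⟨c, hcD, hc1, hc2⟩ := exists_anti hD X ha hXa
  obtain ⟨d, hdE, hd1, hd2⟩ := exists_anti hE X hb hXb
  have hcd : c = d := anti_unique X hc1 hc2 hd1 hd2
  refine ⟨c, hcD, hcd ▸ hdE, ?_⟩
  have h1 := cost_le_card X hc1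
  have h2 := Finset.card_union_add_card_inter (supp a) (supp b)
  have h3 : 0 < (supp a ∩ supp b).card :=
    Finset.card_pos.mpr ⟨x, Finset.mem_inter.mpr ⟨hxa, hxb⟩⟩
  have h4 : (supp a).card = cost a := rfl
  have h5 : (supp b).card = cost b := rfl
  rw [← hX] at h2
  omega

/-- Moving the smallest support point to the left is a lowering. -/
lemma shift_left {E : Set (Perm (Fin n))}
    (hE : ∀ c ∈ E, ∀ k l : Fin n, k < l → c k < c l → c * swap k l ∈ E)
    {b : Perm (Fin n)} (hb : b ∈ E) {x y : Fin n} (hxy : x < y) (hx : b x = x)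
    (hy : b y ≠ y) (hmin : ∀ k, k < y → b k = k) :
    ∃ b' ∈ E, b' x ≠ x ∧ cost b' = cost b := by
  -- b y > y
  have hby : y < b y := by
    rcases lt_trichotomy (b y) y with h | h | h
    · have h2 := hmin _ h
      exact absurd (b.injective h2) hy
    · exact absurd h hy
    · exact h
  obtain ⟨z, hz⟩ := b.surjective y
  have hzy : y < z := by
    rcases lt_trichotomy z y with h | h | h
    · rw [hmin z h] at hz; exact absurd hz h.ne
    · subst h; exact absurd hz hy
    · exact h
  -- first step
  have s1 : b * swap x y ∈ E := hE b hb x y hxy (by rw [hx]; exact hxy.trans hby)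
  have e1 : (b * swap x y) y = x := by simp [hx]
  have e2 : (b * swap x y) z = y := by
    rw [Perm.mul_apply, swap_apply_of_ne_of_ne (hxy.trans hzy).ne' hzy.ne', hz]
  have s2 : b * swap x y * swap y z ∈ E :=
    hE _ s1 y z hzy (by rw [e1, e2]; exact hxy)
  refine ⟨_, s2, ?_, ?_⟩
  · have : (b * swap x y * swap y z) x = b y := by
      rw [Perm.mul_apply, swap_apply_of_ne_of_ne hxy.ne (hxy.trans hzy).ne, Perm.mul_apply,
        swap_apply_left]
    rw [this]
    exact (hxy.trans hby).ne'
  · -- it is the conjugate by the transposition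
    have hconj : b * swap x y * swap y z = swap x y * b * swap x y := by
      ext k
      congr 1
      simp only [Perm.mul_apply]
      by_cases hkx : k = x
      · subst hkx
        rw [swap_apply_of_ne_of_ne hxy.ne (hxy.trans hzy).ne, swap_apply_left,
          swap_apply_of_ne_of_ne (hxy.trans hby).ne' hby.ne']
      · by_cases hky : k = y
        · subst hky
          rw [swap_apply_left, swap_apply_of_ne_of_ne (hxy.trans hzy).ne' hzy.ne', hz,
            swap_apply_right, hx, swap_apply_left]
        · by_cases hkz : k = z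
          · subst hkz
            rw [swap_apply_right, swap_apply_right, hx, swap_apply_of_ne_of_ne hkx hky, hz,
              swap_apply_right]
          · rw [swap_apply_of_ne_of_ne hky hkz, swap_apply_of_ne_of_ne hkx hky]
            have h1 : b k ≠ x := fun h => hkx (b.injective (h.trans hx.symm))
            have h2 : b k ≠ y := fun h => hkz (b.injective (h.trans hz.symm))
            rw [swap_apply_of_ne_of_ne h1 h2]
    rw [hconj]
    unfold cost
    apply Finset.card_bij (fun k _ => swap x y k)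
    · intro k hk
      simp only [mem_filter, mem_univ, true_and, Perm.mul_apply, ne_eq] at hk ⊢
      intro h
      apply hk
      rw [h, swap_apply_self]
    · intro k _ l _ h
      exact (swap x y).injective h
    · intro k hk
      refine ⟨swap x y k, ?_, by simp⟩
      simp only [mem_filter, mem_univ, true_and, Perm.mul_apply, ne_eq, swap_apply_self] at hk ⊢
      intro h
      exact hk ((swap x y).injective h)

/-- Any two members have a common lower bound which is cheaper than the two together. -/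
lemma common_lower_aux {D E : Set (Perm (Fin n))}
    (hD : ∀ c ∈ D, ∀ k l : Fin n, k < l → c k < c l → c * swap k l ∈ D)
    (hE : ∀ c ∈ E, ∀ k l : Fin n, k < l → c k < c l → c * swap k l ∈ E)
    {a b : Perm (Fin n)} (ha : a ∈ D) (hb : b ∈ E) (ha1 : a ≠ 1) (hb1 : b ≠ 1)
    (hle : (supp a).min' (supp_nonempty ha1) ≤ (supp b).min' (supp_nonempty hb1)) :
    ∃ c, c ∈ D ∧ c ∈ E ∧ cost c + 1 ≤ cost a + cost b := by
  set x := (supp a).min' (supp_nonempty ha1) with hx
  set y := (supp b).min' (supp_nonempty hb1) with hy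
  have hxa : x ∈ supp a := Finset.min'_mem _ _
  have hyb : y ∈ supp b := Finset.min'_mem _ _
  by_cases hxb : x ∈ supp b
  · exact overlap hD hE ha hb hxa hxb
  · have hxy : x < y := lt_of_le_of_ne hle (fun h => hxb (h ▸ hyb))
    have hbx : b x = x := by
      by_contra h
      exact hxb (mem_supp.mpr h)
    obtain ⟨b', hb', hb'x, hcost⟩ := shift_left hE hb hxy hbx (mem_supp.mp hyb) (by
      intro k hk
      by_contra h
      exact absurd (Finset.min'_le (supp b) k (mem_supp.mpr h)) (not_le.mpr hk))
    obtain ⟨c, h1, h2, h3⟩ := overlap hD hE ha hb' hxa (mem_supp.mpr hb'x)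
    exact ⟨c, h1, h2, by omega⟩

lemma common_lower {D E : Set (Perm (Fin n))}
    (hD : ∀ c ∈ D, ∀ k l : Fin n, k < l → c k < c l → c * swap k l ∈ D)
    (hE : ∀ c ∈ E, ∀ k l : Fin n, k < l → c k < c l → c * swap k l ∈ E)
    {a b : Perm (Fin n)} (ha : a ∈ D) (hb : b ∈ E) (ha1 : a ≠ 1) (hb1 : b ≠ 1) :
    ∃ c, c ∈ D ∧ c ∈ E ∧ cost c + 1 ≤ cost a + cost b := by
  rcases le_total ((supp a).min' (supp_nonempty ha1)) ((supp b).min' (supp_nonempty hb1))
    with h | h
  · exact common_lower_aux hD hE ha hb ha1 hb1 h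
  · obtain ⟨c, h1, h2, h3⟩ := common_lower_aux hE hD hb ha hb1 ha1 h
    exact ⟨c, h2, h1, by omega⟩

/-- A nonempty strong up-set contains the identity. -/
lemma one_mem {A : Set (Perm (Fin n))} (hA : StrongUpset A) {a : Perm (Fin n)} (ha : a ∈ A) :
    (1 : Perm (Fin n)) ∈ A := by
  classical
  obtain ⟨c, hc, hmax⟩ := Finset.exists_max_image
    (univ.filter fun c : Perm (Fin n) => c ∈ A) pot ⟨a, by simp [ha]⟩
  simp only [mem_filter, mem_univ, true_and] at hc hmax
  have hmono : ∀ k l : Fin n, k < l → c k < c l := by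
    intro k l hkl
    by_contra hcon
    have hlt : c l < c k := lt_of_le_of_ne (not_lt.mp hcon) (fun h => hkl.ne (c.injective h).symm)
    have h1 := up_step hA hc hkl hlt
    have h2 := hmax _ h1
    have h3 : pot c < pot (c * swap k l) := by
      have := pot_swap_lt (c := c * swap k l) hkl (by simpa using hlt)
      rwa [mul_assoc, swap_mul_self, mul_one] at this
    omega
  have hc1 : c = 1 := by
    have : StrictMono c := fun k l h => hmono k l h
    ext k
    have h1 : ∀ m : ℕ, ∀ k : Fin n, (k : ℕ) = m → c k = k := by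
      intro m
      induction m using Nat.strong_induction_on with
      | _ m ih =>
        intro k hk
        obtain ⟨l, hl⟩ := c.surjective k
        rcases lt_trichotomy l k with h | h | h
        · rw [ih l (by have : (l : ℕ) < k := h; omega) l rfl] at hl
          exact absurd hl h.ne
        · rw [h] at hl; exact hl
        · have h2 : c k < k := by rw [← hl]; exact this (by rw [hl]; exact h)
          have h3 := ih (c k) (by have : (c k : ℕ) < k := h2; omega) (c k) rfl
          exact absurd (c.injective h3) h2.ne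
    rw [h1 k k rfl]; rfl
  rwa [hc1] at hc

lemma mass_eq (q : ℝ) (A : Set (Perm (Fin n))) [DecidablePred (· ∈ A)] :
    mass n q A = ∑ a ∈ univ.filter (fun a => a ∈ A), q ^ cost a := by
  classical
  unfold mass
  simp only [cost_eq]
  congr

lemma mass_nonneg {q : ℝ} (hq : 0 ≤ q) (A : Set (Perm (Fin n))) : 0 ≤ mass n q A := by
  classical
  rw [mass_eq]
  exact Finset.sum_nonneg fun a _ => pow_nonneg hq _

lemma le_mass {q : ℝ} (hq : 0 ≤ q) {A : Set (Perm (Fin n))} {a : Perm (Fin n)} (ha : a ∈ A) :
    q ^ cost a ≤ mass n q A := by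
  classical
  rw [mass_eq]
  exact Finset.single_le_sum (f := fun a : Perm (Fin n) => q ^ cost a)
    (fun a _ => pow_nonneg hq _) (by simp [ha])

lemma one_le_mass_univ {q : ℝ} (hq : 0 ≤ q) : 1 ≤ mass n q (Set.univ : Set (Perm (Fin n))) := by
  have := le_mass hq (Set.mem_univ (1 : Perm (Fin n)))
  simpa [cost_one] using this

lemma mass_le {q : ℝ} (hq : 0 ≤ q) (hq1 : q ≤ 1) {A : Set (Perm (Fin n))} {m : ℕ}
    (h : ∀ a ∈ A, m ≤ cost a) : mass n q A ≤ (n.factorial : ℝ) * q ^ m := by
  classical
  rw [mass_eq]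
  calc ∑ a ∈ univ.filter (fun a => a ∈ A), q ^ cost a
      ≤ ∑ a ∈ univ.filter (fun a => a ∈ A), q ^ m := by
        apply Finset.sum_le_sum
        intro a ha
        exact pow_le_pow_of_le_one hq hq1 (h a (by simpa using ha))
    _ = ((univ.filter (fun a => a ∈ A)).card : ℝ) * q ^ m := by
        rw [Finset.sum_const, nsmul_eq_mul]
    _ ≤ (n.factorial : ℝ) * q ^ m := by
        apply mul_le_mul_of_nonneg_right _ (pow_nonneg hq _)
        have := Finset.card_le_univ (univ.filter (fun a : Perm (Fin n) => a ∈ A))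
        rw [Fintype.card_perm, Fintype.card_fin] at this
        exact_mod_cast this

lemma mass_compl (q : ℝ) (A : Set (Perm (Fin n))) :
    mass n q A + mass n q Aᶜ = mass n q Set.univ := by
  classical
  simp only [mass_eq, Finset.sum_filter, ← Finset.sum_add_distrib]
  apply Finset.sum_congr rfl
  intro a _
  by_cases h1 : a ∈ A <;> simp [h1]

lemma mass_inter (q : ℝ) (A B : Set (Perm (Fin n))) :
    mass n q (A ∩ B) + mass n q Aᶜ + mass n q Bᶜ = mass n q Set.univ + mass n q (Aᶜ ∩ Bᶜ) := by
  classical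
  simp only [mass_eq, Finset.sum_filter, ← Finset.sum_add_distrib]
  apply Finset.sum_congr rfl
  intro a _
  by_cases h1 : a ∈ A <;> by_cases h2 : a ∈ B <;> simp [h1, h2]

/-- The inequality in terms of masses. -/
lemma mu_le_iff {q : ℝ} (hq : 0 ≤ q) (A B : Set (Perm (Fin n))) :
    mu n q A * mu n q B ≤ mu n q (A ∩ B) ↔
      mass n q A * mass n q B ≤ mass n q (A ∩ B) * mass n q Set.univ := by
  have hZ : 0 < mass n q (Set.univ : Set (Perm (Fin n))) := lt_of_lt_of_le one_pos (one_le_mass_univ hq)
  unfold mu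
  rw [div_mul_div_comm, div_le_div_iff₀ (mul_pos hZ hZ) hZ, ← mul_assoc,
    mul_le_mul_iff_left₀ hZ]

lemma compl_iff {q : ℝ} (A B : Set (Perm (Fin n))) :
    mass n q A * mass n q B ≤ mass n q (A ∩ B) * mass n q Set.univ ↔
      mass n q Aᶜ * mass n q Bᶜ ≤ mass n q (Aᶜ ∩ Bᶜ) * mass n q Set.univ := by
  have h1 := mass_compl q A
  have h2 := mass_compl q B
  have h3 := mass_inter q A B
  have e1 : mass n q A = mass n q Set.univ - mass n q Aᶜ := by linarith
  have e2 : mass n q B = mass n q Set.univ - mass n q Bᶜ := by linarith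
  have e3 : mass n q (A ∩ B) = mass n q Set.univ + mass n q (Aᶜ ∩ Bᶜ) - mass n q Aᶜ - mass n q Bᶜ := by
    linarith
  rw [e1, e2, e3]
  constructor <;> intro h <;> nlinarith

/-- The low temperature regime. -/
theorem small_q {q : ℝ} (hq : 0 < q) (hsmall : q ≤ 1 / (n.factorial : ℝ) ^ 2)
    {A B : Set (Perm (Fin n))} (hA : StrongUpset A) (hB : StrongUpset B) :
    mu n q A * mu n q B ≤ mu n q (A ∩ B) := by
  classical
  have hf : (1 : ℝ) ≤ (n.factorial : ℝ) := by exact_mod_cast Nat.factorial_pos n
  have hf2 : (1 : ℝ) ≤ (n.factorial : ℝ) ^ 2 := one_le_pow₀ hf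
  have hq1 : q ≤ 1 := hsmall.trans (by rw [div_le_one (by positivity)]; exact hf2)
  rw [mu_le_iff hq.le, compl_iff]
  have hD : ∀ c ∈ Aᶜ, ∀ k l : Fin n, k < l → c k < c l → c * swap k l ∈ Aᶜ :=
    fun c hc k l hkl h => down_step hA hc hkl h
  have hE : ∀ c ∈ Bᶜ, ∀ k l : Fin n, k < l → c k < c l → c * swap k l ∈ Bᶜ :=
    fun c hc k l hkl h => down_step hB hc hkl h
  by_cases hA1 : (1 : Perm (Fin n)) ∈ A
  swap
  · have hAe : A = ∅ := by
      rw [Set.eq_empty_iff_forall_notMem]
      intro a ha
      exact hA1 (one_mem hA ha)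
    subst hAe
    simp only [Set.compl_empty, Set.univ_inter]
    rw [mul_comm]
  by_cases hB1 : (1 : Perm (Fin n)) ∈ B
  swap
  · have hBe : B = ∅ := by
      rw [Set.eq_empty_iff_forall_notMem]
      intro a ha
      exact hB1 (one_mem hB ha)
    subst hBe
    simp only [Set.compl_empty, Set.inter_univ]
    exact le_refl _
  by_cases hAe : Aᶜ.Nonempty
  swap
  · rw [Set.not_nonempty_iff_eq_empty.mp hAe]
    have : mass n q (∅ : Set (Perm (Fin n))) = 0 := by rw [mass_eq]; simp
    rw [this, zero_mul]
    exact mul_nonneg (mass_nonneg hq.le _) (mass_nonneg hq.le _)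
  by_cases hBe : Bᶜ.Nonempty
  swap
  · rw [Set.not_nonempty_iff_eq_empty.mp hBe]
    have : mass n q (∅ : Set (Perm (Fin n))) = 0 := by rw [mass_eq]; simp
    rw [this, mul_zero]
    exact mul_nonneg (mass_nonneg hq.le _) (mass_nonneg hq.le _)
  obtain ⟨a0, ha0⟩ := hAe
  obtain ⟨b0, hb0⟩ := hBe
  obtain ⟨a, ha, hamin⟩ := Finset.exists_min_image
    (univ.filter fun c : Perm (Fin n) => c ∈ Aᶜ) cost ⟨a0, by simpa using ha0⟩
  obtain ⟨b, hb, hbmin⟩ := Finset.exists_min_image
    (univ.filter fun c : Perm (Fin n) => c ∈ Bᶜ) cost ⟨b0, by simpa using hb0⟩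
  simp only [mem_filter, mem_univ, true_and] at ha hamin hb hbmin
  have ha1 : a ≠ 1 := fun h => ha (h ▸ hA1)
  have hb1 : b ≠ 1 := fun h => hb (h ▸ hB1)
  obtain ⟨c, hcA, hcB, hcost⟩ := common_lower hD hE ha hb ha1 hb1
  have m1 := mass_le hq.le hq1 hamin
  have m2 := mass_le hq.le hq1 hbmin
  have m3 : q ^ cost c ≤ mass n q (Aᶜ ∩ Bᶜ) := le_mass hq.le ⟨hcA, hcB⟩
  have m4 := one_le_mass_univ (n := n) hq.le
  have hpow : q ^ (cost a + cost b) ≤ q * q ^ cost c := by
    rw [← pow_succ']
    exact pow_le_pow_of_le_one hq.le hq1 hcost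
  calc mass n q Aᶜ * mass n q Bᶜ
      ≤ ((n.factorial : ℝ) * q ^ cost a) * ((n.factorial : ℝ) * q ^ cost b) :=
        mul_le_mul m1 m2 (mass_nonneg hq.le _) (by positivity)
    _ = (n.factorial : ℝ) ^ 2 * q ^ (cost a + cost b) := by rw [pow_add]; ring
    _ ≤ (n.factorial : ℝ) ^ 2 * (q * q ^ cost c) := by
        apply mul_le_mul_of_nonneg_left hpow (by positivity)
    _ = ((n.factorial : ℝ) ^ 2 * q) * q ^ cost c := by ring
    _ ≤ 1 * q ^ cost c := by
        apply mul_le_mul_of_nonneg_right _ (by positivity)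
        rw [le_div_iff₀ (by positivity)] at hsmall
        linarith
    _ ≤ mass n q (Aᶜ ∩ Bᶜ) * mass n q Set.univ := by
        rw [one_mul]
        calc q ^ cost c ≤ mass n q (Aᶜ ∩ Bᶜ) := m3
          _ = mass n q (Aᶜ ∩ Bᶜ) * 1 := by ring
          _ ≤ _ := mul_le_mul_of_nonneg_left m4 (mass_nonneg hq.le _)

end Pool.Agent.H.MP_f011a7_co
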